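import Pool.Agent.Lib.MP_aa636d_nt.Asym

/-! Estimates of Mertens type, sums over rough numbers, and the size of a coincidence. -/

namespace Pool.Agent.Lib.MP_aa636d_nt.Win
open Finset
open scoped ArithmeticFunction.vonMangoldt

theorem log_fact_eq (n : ℕ) :
    Real.log (n.factorial : ℝ) = ∑ m ∈ Ioc 0 n, Λ m * ((n / m : ℕ) : ℝ) := by
  have h1 : Real.log (n.factorial : ℝ) = ∑ k ∈ Ioc 0 n, Real.log k := by
    induction n with
    | zero => simp
    | succ n ih =>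
      rw [Nat.factorial_succ, Nat.cast_mul, Real.log_mul (by positivity) (by positivity), ih,
        sum_Ioc_succ_top (Nat.zero_le n), add_comm]
  rw [h1]
  have h2 : ∀ k ∈ Ioc 0 n, Real.log k = ∑ m ∈ Ioc 0 n, if m ∣ k then Λ m else 0 := by
    intro k hk
    rw [← ArithmeticFunction.vonMangoldt_sum, ← sum_filter]
    refine sum_congr ?_ fun _ _ => rfl
    ext m
    simp only [mem_Ioc] at hk
    simp only [Nat.mem_divisors, mem_filter, mem_Ioc]
    constructor
    · rintro ⟨h, -⟩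
      exact ⟨⟨Nat.pos_of_dvd_of_pos h hk.1, (Nat.le_of_dvd hk.1 h).trans hk.2⟩, h⟩
    · rintro ⟨-, h⟩
      exact ⟨h, hk.1.ne'⟩
  rw [sum_congr rfl h2, sum_comm]
  refine sum_congr rfl fun m _ => ?_
  rw [← sum_filter, sum_const, nsmul_eq_mul, Nat.Ioc_filter_dvd_card_eq_div, mul_comm]

theorem lam_div_lower {n : ℕ} (hn : 1 ≤ n) : Real.log n - 1 ≤ ∑ m ∈ Ioc 0 n, Λ m / m := by
  have hn' : (0 : ℝ) < n := by exact_mod_cast hn
  have h1 : (n : ℝ) * Real.log n - n ≤ Real.log (n.factorial : ℝ) := by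
    have h := Real.pow_div_factorial_le_exp (n : ℝ) hn'.le n
    have hf : (0 : ℝ) < n.factorial := by positivity
    have := Real.log_le_log (by positivity) h
    rw [Real.log_div (by positivity) hf.ne', Real.log_exp, Real.log_pow] at this
    linarith
  have h2 : Real.log (n.factorial : ℝ) ≤ n * ∑ m ∈ Ioc 0 n, Λ m / m := by
    rw [log_fact_eq, mul_sum]
    refine sum_le_sum fun m _ => ?_
    have := ArithmeticFunction.vonMangoldt_nonneg (n := m)
    calc Λ m * ((n / m : ℕ) : ℝ) ≤ Λ m * ((n : ℝ) / m) := by gcongr; exact Nat.cast_div_le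
      _ = _ := by ring
  have : (n : ℝ) * (Real.log n - 1) ≤ n * ∑ m ∈ Ioc 0 n, Λ m / m := by linarith
  exact le_of_mul_le_mul_left this hn'

theorem lam_div_upper {n : ℕ} (hn : 1 ≤ n) :
    ∑ m ∈ Ioc 0 n, Λ m / m ≤ Real.log n + (Real.log 4 + 4) := by
  have hn' : (0 : ℝ) < n := by exact_mod_cast hn
  have h1 : Real.log (n.factorial : ℝ) ≤ n * Real.log n := by
    rw [← Real.log_pow]
    exact Real.log_le_log (by positivity) (by exact_mod_cast Nat.factorial_le_pow n)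
  have h3 := Chebyshev.psi_le_const_mul_self hn'.le
  have h4 : Chebyshev.psi n = ∑ m ∈ Ioc 0 n, Λ m := by
    rw [Chebyshev.psi, Nat.floor_natCast]
  have h2 : n * ∑ m ∈ Ioc 0 n, Λ m / m ≤ Real.log (n.factorial : ℝ) + Chebyshev.psi n := by
    rw [log_fact_eq, mul_sum, h4, ← sum_add_distrib]
    refine sum_le_sum fun m hm => ?_
    have hm0 : 0 < m := (mem_Ioc.1 hm).1
    have hm' : (0 : ℝ) < m := by exact_mod_cast hm0
    have := ArithmeticFunction.vonMangoldt_nonneg (n := m)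
    have h5 : (n : ℝ) / m ≤ ((n / m : ℕ) : ℝ) + 1 := by
      rw [div_le_iff₀ hm']
      have := Nat.lt_div_mul_add (a := n) hm0
      have h6 : (n : ℝ) < ((n / m : ℕ) : ℝ) * m + m := by exact_mod_cast this
      linarith
    calc (n : ℝ) * (Λ m / m) = Λ m * ((n : ℝ) / m) := by ring
      _ ≤ Λ m * (((n / m : ℕ) : ℝ) + 1) := by gcongr
      _ = _ := by ring
  have : (n : ℝ) * ∑ m ∈ Ioc 0 n, Λ m / m ≤ n * (Real.log n + (Real.log 4 + 4)) := by nlinarith
  exact le_of_mul_le_mul_left this hn'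

theorem nonprime_le : ∃ C : ℝ, ∀ s : Finset ℕ, ∑ m ∈ s with ¬ m.Prime, Λ m / m ≤ C := by
  have h := ArithmeticFunction.vonMangoldt.summable_residueClass_non_primes_div (q := 1) 0
  refine ⟨_, fun s => le_trans (le_of_eq ?_) (h.sum_le_tsum s fun n _ => ?_)⟩
  · rw [sum_filter]
    refine sum_congr rfl fun n _ => ?_
    by_cases hp : n.Prime
    · simp [hp]
    · simp only [hp, not_false_eq_true, if_true, if_false]
      rw [ArithmeticFunction.vonMangoldt.residueClass, Set.indicator_of_mem]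
      exact Subsingleton.elim _ _
  · have := ArithmeticFunction.vonMangoldt.residueClass_nonneg (q := 1) 0 n
    split_ifs
    · simp
    · positivity

theorem mertens_lower : ∃ C : ℝ, ∀ u v : ℕ, 1 ≤ u → u ≤ v →
    Real.log v - Real.log u - C ≤ ∑ p ∈ Ioc u v with p.Prime, Real.log p / p := by
  obtain ⟨C, hC⟩ := nonprime_le
  refine ⟨C + (Real.log 4 + 5), fun u v hu huv => ?_⟩
  have h1 := lam_div_lower (hu.trans huv)
  have h2 := lam_div_upper hu
  have h3 : ∑ m ∈ Ioc 0 v, Λ m / (m : ℝ) = ∑ m ∈ Ioc 0 u, Λ m / (m : ℝ) + ∑ m ∈ Ioc u v, Λ m / (m : ℝ) :=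
    (sum_Ioc_consecutive _ (Nat.zero_le u) huv).symm
  have h4 := sum_filter_add_sum_filter_not (Ioc u v) Nat.Prime (fun m => Λ m / (m : ℝ))
  have h5 := hC (Ioc u v)
  have h6 : ∑ p ∈ Ioc u v with p.Prime, Λ p / (p : ℝ) = ∑ p ∈ Ioc u v with p.Prime, Real.log p / p :=
    sum_congr rfl fun p hp => by rw [ArithmeticFunction.vonMangoldt_apply_prime (mem_filter.1 hp).2]
  linarith

theorem log_four_le : Real.log 4 ≤ 2 := by
  rw [show (4 : ℝ) = 2 ^ 2 by norm_num, Real.log_pow]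
  have := Real.log_two_lt_d9
  push_cast
  linarith

theorem mertens_upper {n : ℕ} (hn : 1 ≤ n) (P : Finset ℕ) (hP : ∀ p ∈ P, p.Prime ∧ p ≤ n) :
    ∑ p ∈ P, Real.log p / p ≤ Real.log n + 6 := by
  have h : ∑ p ∈ P, Real.log p / p ≤ ∑ m ∈ Ioc 0 n, Λ m / (m : ℝ) := by
    rw [← show ∑ p ∈ P, Λ p / (p : ℝ) = ∑ p ∈ P, Real.log p / p from sum_congr rfl fun p hp => by
      rw [ArithmeticFunction.vonMangoldt_apply_prime (hP p hp).1]]
    exact sum_le_sum_of_subset_of_nonneg (f := fun m : ℕ => Λ m / (m : ℝ))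
      (fun p hp => mem_Ioc.2 ⟨(hP p hp).1.pos, (hP p hp).2⟩)
      fun _ _ _ => div_nonneg ArithmeticFunction.vonMangoldt_nonneg (Nat.cast_nonneg _)
  linarith [lam_div_upper hn, log_four_le]

theorem sum_le_of_injOn {α : Type*} (s : Finset α) (t : Finset ℕ) (φ : α → ℕ)
    (hi : Set.InjOn φ s) (hm : ∀ x ∈ s, φ x ∈ t) (F : ℕ → ℝ) (hF : ∀ y, 0 ≤ F y) :
    ∑ x ∈ s, F (φ x) ≤ ∑ y ∈ t, F y := by
  rw [← sum_image hi]
  exact sum_le_sum_of_subset_of_nonneg (image_subset_iff.2 hm) fun y _ _ => hF y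

theorem rough_sum {Y D : ℕ} (V : Finset ℕ) (hV : ∀ d ∈ V, 0 < d ∧ d ≤ D)
    (hr : ∀ d ∈ V, ∀ p, p.Prime → p ∣ d → Y < p) :
    (∑ d ∈ V, (d : ℝ)⁻¹) * Real.log (Y + 1 : ℕ) ≤ 1 + Real.log (D * Y : ℕ) := by
  have h1 := log_add_one_le_harmonic Y
  have h2 := harmonic_le_one_add_log (D * Y)
  simp only [harmonic_eq_sum_Icc, Rat.cast_sum, Rat.cast_inv, Rat.cast_natCast] at h1 h2
  refine (mul_le_mul_of_nonneg_left h1 (by positivity)).trans (le_trans ?_ h2)
  rw [sum_mul_sum, ← sum_product']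
  have co : ∀ d ∈ V, ∀ e ∈ Icc 1 Y, Nat.Coprime d e := fun d hd e he =>
    Nat.coprime_of_dvd fun p pp h h' => by
      have := hr d hd p pp h
      have := Nat.le_of_dvd (mem_Icc.1 he).1 h'
      have := (mem_Icc.1 he).2
      omega
  refine le_trans (le_of_eq (sum_congr rfl fun x _ => ?_)) (sum_le_of_injOn (V ×ˢ Icc 1 Y) _
    (fun x => x.1 * x.2) ?_ ?_ (fun y => (y : ℝ)⁻¹) fun _ => by positivity)
  · rw [Nat.cast_mul, mul_inv]
  · rintro ⟨d, e⟩ h ⟨d', e'⟩ h' q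
    rw [mem_coe, mem_product] at h h'
    have q' : d * e = d' * e' := q
    obtain rfl : d = d' := Nat.dvd_antisymm
      ((co d h.1 e' h'.2).dvd_of_dvd_mul_right ⟨e, q'.symm⟩)
      ((co d' h'.1 e h.2).dvd_of_dvd_mul_right ⟨e', q'⟩)
    rw [Nat.eq_of_mul_eq_mul_left (hV d h.1).1 q']
  · intro x hx
    rw [mem_product, mem_Icc] at hx
    exact mem_Icc.2 ⟨Nat.mul_pos (hV _ hx.1).1 hx.2.1, Nat.mul_le_mul (hV _ hx.1).2 hx.2.2⟩

theorem cnt_le_lam {K a : ℕ} (hK : 1 ≤ K) (P : Finset ℕ) (hP : ∀ p ∈ P, p.Prime) :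
    ∑ p ∈ P, (cnt K p a : ℝ) * Real.log p ≤ ∑ q ∈ Ioc 0 K with q ∣ a, Λ q := by
  have h := sum_le_of_injOn (P.sigma fun p => {j ∈ Icc 1 (Nat.log p K) | p ^ j ∣ a})
    {q ∈ Ioc 0 K | q ∣ a} (fun x => x.1 ^ x.2) ?_ ?_ (fun q => Λ q)
    fun _ => ArithmeticFunction.vonMangoldt_nonneg
  · refine le_trans (le_of_eq ?_) h
    rw [sum_sigma]
    refine sum_congr rfl fun p hp => ?_
    rw [cnt, ← nsmul_eq_mul, ← sum_const]
    refine sum_congr rfl fun j hj => ?_
    have := (mem_Icc.1 (mem_filter.1 hj).1).1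
    rw [ArithmeticFunction.vonMangoldt_apply_pow (Nat.one_le_iff_ne_zero.1 this),
      ArithmeticFunction.vonMangoldt_apply_prime (hP p hp)]
  · rintro ⟨p, i⟩ h ⟨q, j⟩ h' e
    simp only [mem_coe, mem_sigma, mem_filter, mem_Icc] at h h'
    obtain ⟨rfl, rfl⟩ := (hP p h.1).pow_inj' (hP q h'.1)
      (Nat.one_le_iff_ne_zero.1 h.2.1.1) (Nat.one_le_iff_ne_zero.1 h'.2.1.1) e
    rfl
  · rintro ⟨p, i⟩ h
    simp only [mem_sigma, mem_filter, mem_Icc] at h
    exact mem_filter.2 ⟨mem_Ioc.2 ⟨pow_pos (hP p h.1).pos _,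
      Nat.pow_le_of_le_log (by omega) h.2.1.2⟩, h.2.2⟩

theorem pair_lam {K n : ℕ} (U : Finset ℕ) (hU : ∀ x ∈ U, x < K) (Q : Finset ℕ) :
    ∑ q ∈ Q, Λ q * ((#{x ∈ U | q ∣ n + x} : ℝ) * #{x ∈ U | q ∣ n + x} - #{x ∈ U | q ∣ n + x}) ≤
      (U.card : ℝ) ^ 2 * Real.log K := by
  have h1 : ∀ q ∈ Q, Λ q * ((#{x ∈ U | q ∣ n + x} : ℝ) * #{x ∈ U | q ∣ n + x} -
      #{x ∈ U | q ∣ n + x}) ≤ ∑ xy ∈ U.offDiag, if q ∣ Nat.dist xy.1 xy.2 then Λ q else 0 := by
    intro q _
    rw [← sum_filter, sum_const, nsmul_eq_mul, mul_comm]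
    refine mul_le_mul_of_nonneg_right ?_ ArithmeticFunction.vonMangoldt_nonneg
    rw [← Nat.cast_mul, ← Nat.cast_sub (Nat.le_mul_self _), ← offDiag_card, Nat.cast_le]
    refine card_le_card fun xy h => ?_
    simp only [mem_offDiag, mem_filter] at h ⊢
    exact ⟨⟨h.1.1, h.2.1.1, h.2.2⟩, dvd_dist h.1.2 h.2.1.2⟩
  refine (sum_le_sum h1).trans ?_
  rw [sum_comm]
  refine (sum_le_card_nsmul _ _ (Real.log K) fun xy h => ?_).trans ?_
  · rw [mem_offDiag] at h
    refine le_trans ?_ (log_nat_mono (dist_lt (hU _ h.1) (hU _ h.2.1)).le)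
    rw [← ArithmeticFunction.vonMangoldt_sum, ← sum_filter]
    exact sum_le_sum_of_subset_of_nonneg (fun q hq => Nat.mem_divisors.2
      ⟨(mem_filter.1 hq).2, (Nat.dist_pos_of_ne h.2.2).ne'⟩)
      fun _ _ _ => ArithmeticFunction.vonMangoldt_nonneg
  · rw [nsmul_eq_mul, offDiag_card]
    refine mul_le_mul_of_nonneg_right ?_ (log_nat_nonneg K)
    have : U.card * U.card - U.card ≤ U.card ^ 2 := by rw [sq]; omega
    exact_mod_cast this

/-- The number of factors in a coincidence of two products. -/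
theorem size_bound {n K y : ℕ} (hn : 1 ≤ n) (hy : 1 ≤ y) (hyK : y ≤ K) (hK : 2 ≤ K)
    (hz : 384 * y * Real.log K ≤ Real.log n ^ 2) {S T : Finset ℕ}
    (hS : ∀ x ∈ S, x < K) (hT : ∀ x ∈ T, x < K) (hd : Disjoint S T) (hne : S.Nonempty)
    (he : ∏ x ∈ S, (n + x) = ∏ x ∈ T, (n + x)) :
    (S ∪ T).card * Real.log n ≤ 8 * K * (Real.log K - Real.log y + 10) := by
  have hU : ∀ x ∈ S ∪ T, x < K := fun x hx => (mem_union.1 hx).elim (hS x) (hT x)
  have k0 : 0 < Real.log K := Real.log_pos (by exact_mod_cast hK)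
  have y0 : (0 : ℝ) < y := by exact_mod_cast hy
  have L0 : 0 < Real.log n := by
    refine (log_nat_nonneg n).lt_of_ne fun h => ?_
    rw [← h] at hz
    nlinarith [mul_pos y0 k0]
  have u0 : (0 : ℝ) < (S ∪ T).card := by exact_mod_cast (hne.mono subset_union_left).card_pos
  set Q : ℕ := ∏ x ∈ S, (n + x) with hQ
  have h1 : (S ∪ T).card * Real.log n ≤ 2 * Real.log Q := by
    have h1 := card_mul_log_le hn S
    have h2 := card_mul_log_le hn T
    rw [← he] at h2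
    rw [card_union_of_disjoint hd]
    push_cast
    linarith
  have Q0 : Q ≠ 0 := prod_ne_zero_iff.2 fun x _ => by omega
  have h2 : Real.log Q ≤ ∑ q ∈ Ioc 0 K, Λ q * (#{x ∈ S ∪ T | q ∣ n + x} : ℝ) := by
    refine (log_le_sum_val Q Q.primeFactors fun p pp hp =>
      Nat.mem_primeFactors.2 ⟨pp, hp, Q0⟩).trans ?_
    have a : ∀ p ∈ Q.primeFactors, (Q.factorization p : ℝ) * Real.log p ≤
        ∑ x ∈ S ∪ T, (cnt K p (n + x) : ℝ) * Real.log p := fun p hp => by
      have pp := Nat.prime_of_mem_primeFactors hp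
      rw [← sum_mul]
      refine mul_le_mul_of_nonneg_right ?_ (log_nat_nonneg p)
      have : Q.factorization p ≤ ∑ x ∈ S ∪ T, cnt K p (n + x) := by
        rw [sum_union hd]
        rcases side (n := n) (p := p) hS hT hd with h | h
        · rw [hQ, Nat.factorization_prod_apply fun x _ => by omega]
          exact le_add_right (sum_le_sum fun x hx => val_le_cnt pp (by omega) (h x hx))
        · rw [he, Nat.factorization_prod_apply fun x _ => by omega]
          exact le_add_left (sum_le_sum fun x hx => val_le_cnt pp (by omega) (h x hx))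
      exact_mod_cast this
    refine (sum_le_sum a).trans ?_
    rw [sum_comm]
    refine (sum_le_sum fun x _ => cnt_le_lam (by omega) _ fun p hp =>
      Nat.prime_of_mem_primeFactors hp).trans (le_of_eq ?_)
    simp only [sum_filter, card_filter, Nat.cast_sum, mul_sum]
    rw [sum_comm]
    refine sum_congr rfl fun q _ => sum_congr rfl fun x _ => ?_
    split_ifs <;> simp
  set u : ℝ := ((S ∪ T).card : ℝ)
  set k := Real.log K
  set L := Real.log n
  have t0 : 0 < 8 * u * k / L := by positivity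
  have h3 : ∑ q ∈ Ioc 0 y, Λ q * (#{x ∈ S ∪ T | q ∣ n + x} : ℝ) ≤
      (8 * u * k / L + 1) * (6 * y) + u ^ 2 * k / (8 * u * k / L) := by
    refine (sum_le_sum fun q _ => mul_le_mul_of_nonneg_left (le_quad _ t0)
      ArithmeticFunction.vonMangoldt_nonneg).trans ?_
    simp only [mul_add (Λ _), sum_add_distrib, ← mul_div_assoc, ← sum_div, ← sum_mul]
    have b1 := Chebyshev.psi_le_const_mul_self y0.le
    rw [Chebyshev.psi, Nat.floor_natCast] at b1
    have b2 : ∑ q ∈ Ioc 0 y, Λ q ≤ 6 * y := b1.trans (by nlinarith [log_four_le])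
    have b3 := div_le_div_of_nonneg_right (pair_lam (n := n) _ hU (Ioc 0 y)) t0.le
    have b4 := mul_le_mul_of_nonneg_right b2 t0.le
    simp only [mul_div_assoc] at b3 b4 ⊢
    nlinarith
  have h4 : ∑ q ∈ Ioc y K, Λ q * (#{x ∈ S ∪ T | q ∣ n + x} : ℝ) ≤
      2 * K * (k - Real.log y + 7) := by
    have a : ∀ q ∈ Ioc y K, Λ q * (#{x ∈ S ∪ T | q ∣ n + x} : ℝ) ≤ 2 * K * (Λ q / q) := by
      intro q hq
      rw [mem_Ioc] at hq
      have q0 : (0 : ℝ) < q := by exact_mod_cast (by omega : 0 < q)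
      have c1 : (#{x ∈ S ∪ T | q ∣ n + x} : ℝ) ≤ (K / q : ℕ) + 1 := by
        exact_mod_cast card_mult_le (n := n) (by omega) _ hU
      have c2 : (1 : ℝ) ≤ K / q := (one_le_div q0).2 (by exact_mod_cast hq.2)
      have c3 : ((K / q : ℕ) : ℝ) ≤ K / q := Nat.cast_div_le
      calc _ ≤ Λ q * (2 * (K / q)) :=
            mul_le_mul_of_nonneg_left (by linarith) ArithmeticFunction.vonMangoldt_nonneg
        _ = _ := by ring
    refine (sum_le_sum a).trans ?_
    rw [← mul_sum]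
    refine mul_le_mul_of_nonneg_left ?_ (by positivity)
    have := sum_Ioc_consecutive (fun q => Λ q / (q : ℝ)) (Nat.zero_le y) hyK
    linarith [lam_div_lower hy, lam_div_upper (hy.trans hyK), log_four_le]
  rw [← sum_Ioc_consecutive _ (Nat.zero_le y) hyK] at h2
  have e1 : u ^ 2 * k / (8 * u * k / L) = u * L / 8 := by field_simp
  have e2 : 8 * u * k / L * (6 * y) ≤ u * L / 8 := by
    rw [div_mul_eq_mul_div, div_le_div_iff₀ L0 (by norm_num)]
    nlinarith
  have e3 : (y : ℝ) ≤ K := by exact_mod_cast hyK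
  nlinarith

end Pool.Agent.Lib.MP_aa636d_nt.Win
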