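import Mathlib

-- part Pool.Agent.Lib.MP_aa636d_nt.Val
section

/- Valuation bookkeeping for products of integers in a short window. -/

namespace Pool.Agent.Lib.MP_aa636d_nt
open Finset Real

lemma dvd_dist {q n x y : ℕ} (hx : q ∣ n + x) (hy : q ∣ n + y) : q ∣ Nat.dist x y := by
  rcases le_total x y with h | h
  · rw [Nat.dist_eq_sub_of_le h]
    have : y - x = (n + y) - (n + x) := by omega
    rw [this]; exact Nat.dvd_sub hy hx
  · rw [Nat.dist_eq_sub_of_le_right h]
    have : x - y = (n + x) - (n + y) := by omega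
    rw [this]; exact Nat.dvd_sub hx hy

lemma dist_lt {K x y : ℕ} (hx : x < K) (hy : y < K) : Nat.dist x y < K := by
  unfold Nat.dist; omega

lemma log_nat_nonneg (p : ℕ) : 0 ≤ Real.log p := Real.log_natCast_nonneg p

lemma log_nat_mono {a b : ℕ} (h : a ≤ b) : Real.log a ≤ Real.log b := by
  rcases Nat.eq_zero_or_pos a with rfl | ha
  · simpa using log_nat_nonneg b
  · exact Real.log_le_log (by exact_mod_cast ha) (by exact_mod_cast h)

lemma sum_val_le (d : ℕ) (P : Finset ℕ) :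
    ∑ p ∈ P, (d.factorization p : ℝ) * Real.log p ≤ Real.log d := by
  rw [Real.log_nat_eq_sum_factorization, Finsupp.sum]
  calc ∑ p ∈ P, (d.factorization p : ℝ) * Real.log p
      = ∑ p ∈ P ∩ d.factorization.support, (d.factorization p : ℝ) * Real.log p := by
        symm
        apply Finset.sum_subset Finset.inter_subset_left
        intro p hp hp'
        have : d.factorization p = 0 := by
          by_contra h
          exact hp' (Finset.mem_inter.2 ⟨hp, Finsupp.mem_support_iff.2 h⟩)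
        simp [this]
    _ ≤ _ := by
        apply Finset.sum_le_sum_of_subset_of_nonneg Finset.inter_subset_right
        intro p _ _
        exact mul_nonneg (Nat.cast_nonneg _) (log_nat_nonneg p)

lemma log_le_sum_val (d : ℕ) (P : Finset ℕ) (hP : ∀ p, p.Prime → p ∣ d → p ∈ P) :
    Real.log d ≤ ∑ p ∈ P, (d.factorization p : ℝ) * Real.log p := by
  rw [Real.log_nat_eq_sum_factorization, Finsupp.sum]
  apply Finset.sum_le_sum_of_subset_of_nonneg
  · intro p hp
    rw [Nat.support_factorization, Nat.mem_primeFactors] at hp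
    exact hP p hp.1 hp.2.1
  · intro p _ _
    exact mul_nonneg (Nat.cast_nonneg _) (log_nat_nonneg p)

lemma sum_prime_le (d : ℕ) (hd : d ≠ 0) (P : Finset ℕ) (hP : ∀ p ∈ P, p.Prime ∧ p ∣ d) :
    ∑ p ∈ P, Real.log p ≤ Real.log d := by
  refine le_trans ?_ (sum_val_le d P)
  apply Finset.sum_le_sum
  intro p hp
  have h1 : 1 ≤ d.factorization p := ((hP p hp).1.dvd_iff_one_le_factorization hd).1 (hP p hp).2
  have : (1 : ℝ) ≤ d.factorization p := by exact_mod_cast h1
  nlinarith [log_nat_nonneg p]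

/-- number of exponents `j` with `p ^ j ≤ K` and `p ^ j ∣ a` -/
def cnt (K p a : ℕ) : ℕ := #{j ∈ Icc 1 (Nat.log p K) | p ^ j ∣ a}

lemma cnt_le_val {K p a : ℕ} (hp : p.Prime) (ha : a ≠ 0) : cnt K p a ≤ a.factorization p := by
  unfold cnt
  calc _ ≤ #(Icc 1 (a.factorization p)) := by
        apply Finset.card_le_card
        intro j hj
        rw [Finset.mem_filter, Finset.mem_Icc] at hj
        rw [Finset.mem_Icc]
        exact ⟨hj.1.1, (hp.pow_dvd_iff_le_factorization ha).1 hj.2⟩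
    _ = _ := by simp

lemma val_le_cnt {K p a : ℕ} (hp : p.Prime) (ha : a ≠ 0) (h : p ^ a.factorization p ≤ K) :
    a.factorization p ≤ cnt K p a := by
  unfold cnt
  calc a.factorization p = #(Icc 1 (a.factorization p)) := by simp
    _ ≤ _ := by
        apply Finset.card_le_card
        intro j hj
        rw [Finset.mem_Icc] at hj
        rw [Finset.mem_filter, Finset.mem_Icc]
        refine ⟨⟨hj.1, le_trans hj.2 (Nat.le_log_of_pow_le hp.one_lt h)⟩, ?_⟩
        exact (hp.pow_dvd_iff_le_factorization ha).2 hj.2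

lemma le_quad (m : ℕ) {t : ℝ} (ht : 0 < t) : (m : ℝ) ≤ (t + 1) + ((m : ℝ) * m - m) / t := by
  have hm : (0 : ℝ) ≤ m := Nat.cast_nonneg m
  have h0 : (0 : ℝ) ≤ (m : ℝ) * m - m := by
    rcases Nat.eq_zero_or_pos m with rfl | h
    · simp
    · have : (1 : ℝ) ≤ m := by exact_mod_cast h
      nlinarith
  by_cases h : (m : ℝ) ≤ t + 1
  · have := div_nonneg h0 ht.le
    linarith
  · push Not at h
    have : (m : ℝ) ≤ ((m : ℝ) * m - m) / t := by
      rw [le_div_iff₀ ht]; nlinarith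
    linarith

/-- the weight carried by primes `≤ z` (larger sieve) -/
lemma small_bound {K z n : ℕ} (hK : 1 ≤ K) (Y : Finset ℕ) (hY : ∀ x ∈ Y, x < K) {t : ℝ}
    (ht : 0 < t) (P : Finset ℕ) (hP : ∀ p ∈ P, p.Prime ∧ p ≤ z) :
    ∑ p ∈ P, (∑ x ∈ Y, (cnt K p (n + x) : ℝ)) * Real.log p ≤
      (t + 1) * z * Real.log K + (Y.card : ℝ) ^ 2 * Real.log K / t := by
  have hlK : 0 ≤ Real.log K := log_nat_nonneg K
  -- per prime
  have h1 : ∀ p ∈ P, (∑ x ∈ Y, (cnt K p (n + x) : ℝ)) * Real.log p ≤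
      (t + 1) * Real.log K +
        (∑ xy ∈ Y.offDiag, ((Nat.dist xy.1 xy.2).factorization p : ℝ) * Real.log p) / t := by
    intro p hp
    have pp := (hP p hp).1
    have e1 : ∑ x ∈ Y, (cnt K p (n + x) : ℝ) =
        ∑ j ∈ Icc 1 (Nat.log p K), (#{x ∈ Y | p ^ j ∣ n + x} : ℝ) := by
      unfold cnt
      simp only [Finset.card_filter, Nat.cast_sum]
      rw [Finset.sum_comm]
    have e2 : ∀ j ∈ Icc 1 (Nat.log p K), (#{x ∈ Y | p ^ j ∣ n + x} : ℝ) ≤
        (t + 1) + (∑ xy ∈ Y.offDiag, if p ^ j ∣ Nat.dist xy.1 xy.2 then (1 : ℝ) else 0) / t := by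
      intro j _
      refine le_trans (le_quad _ ht) ?_
      gcongr
      set F := {x ∈ Y | p ^ j ∣ n + x} with hF
      have hsub : F.offDiag ⊆ {xy ∈ Y.offDiag | p ^ j ∣ Nat.dist xy.1 xy.2} := by
        intro xy hxy
        rw [Finset.mem_offDiag, hF, Finset.mem_filter, Finset.mem_filter] at hxy
        rw [Finset.mem_filter, Finset.mem_offDiag]
        exact ⟨⟨hxy.1.1, hxy.2.1.1, hxy.2.2⟩, dvd_dist hxy.1.2 hxy.2.1.2⟩
      have hc := Finset.card_le_card hsub
      rw [Finset.offDiag_card] at hc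
      have hle : F.card ≤ F.card * F.card := Nat.le_mul_self _
      have : ((F.card * F.card - F.card : ℕ) : ℝ) ≤
          (#{xy ∈ Y.offDiag | p ^ j ∣ Nat.dist xy.1 xy.2} : ℝ) := by exact_mod_cast hc
      rw [Nat.cast_sub hle, Nat.cast_mul, Finset.card_filter] at this
      simpa using this
    have e3 : (Nat.log p K : ℝ) * Real.log p ≤ Real.log K := by
      have := log_nat_mono (Nat.pow_log_le_self p (x := K) (by omega))
      rwa [Nat.cast_pow, Real.log_pow] at this
    have e4 : ∑ j ∈ Icc 1 (Nat.log p K),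
        (∑ xy ∈ Y.offDiag, if p ^ j ∣ Nat.dist xy.1 xy.2 then (1 : ℝ) else 0) ≤
        ∑ xy ∈ Y.offDiag, ((Nat.dist xy.1 xy.2).factorization p : ℝ) := by
      rw [Finset.sum_comm]
      apply Finset.sum_le_sum
      intro xy hxy
      have hne : Nat.dist xy.1 xy.2 ≠ 0 :=
        (Nat.dist_pos_of_ne (Finset.mem_offDiag.1 hxy).2.2).ne'
      have := cnt_le_val (K := K) pp hne
      unfold cnt at this
      rw [Finset.card_filter] at this
      have h' : ((∑ i ∈ Icc 1 (Nat.log p K), if p ^ i ∣ Nat.dist xy.1 xy.2 then 1 else 0 : ℕ) : ℝ)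
          ≤ ((Nat.dist xy.1 xy.2).factorization p : ℝ) := by exact_mod_cast this
      simpa using h'
    have hlp := log_nat_nonneg p
    rw [e1]
    calc (∑ j ∈ Icc 1 (Nat.log p K), (#{x ∈ Y | p ^ j ∣ n + x} : ℝ)) * Real.log p
        ≤ (∑ j ∈ Icc 1 (Nat.log p K), ((t + 1) + (∑ xy ∈ Y.offDiag,
            if p ^ j ∣ Nat.dist xy.1 xy.2 then (1 : ℝ) else 0) / t)) * Real.log p := by
          gcongr with j hj
          exact e2 j hj
      _ = (t + 1) * ((Nat.log p K : ℝ) * Real.log p) + (∑ j ∈ Icc 1 (Nat.log p K),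
            ∑ xy ∈ Y.offDiag,
            if p ^ j ∣ Nat.dist xy.1 xy.2 then (1 : ℝ) else 0) / t * Real.log p := by
          rw [Finset.sum_add_distrib, ← Finset.sum_div]
          simp only [Finset.sum_const, Nat.card_Icc, nsmul_eq_mul, Nat.add_sub_cancel]
          ring
      _ ≤ (t + 1) * Real.log K + (∑ xy ∈ Y.offDiag,
            ((Nat.dist xy.1 xy.2).factorization p : ℝ)) / t * Real.log p := by
          gcongr
      _ = _ := by rw [← Finset.sum_mul]; ring
  refine le_trans (Finset.sum_le_sum h1) ?_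
  rw [Finset.sum_add_distrib, ← Finset.sum_div, Finset.sum_comm]
  have hc : (P.card : ℝ) ≤ z := by
    have : P ⊆ Icc 1 z := fun p hp => Finset.mem_Icc.2 ⟨(hP p hp).1.one_le, (hP p hp).2⟩
    have := Finset.card_le_card this
    simp at this
    exact_mod_cast this
  have h2 : ∑ xy ∈ Y.offDiag, ∑ p ∈ P, ((Nat.dist xy.1 xy.2).factorization p : ℝ) * Real.log p
      ≤ (Y.card : ℝ) ^ 2 * Real.log K := by
    calc _ ≤ ∑ xy ∈ Y.offDiag, Real.log K := by
          apply Finset.sum_le_sum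
          intro xy hxy
          rw [Finset.mem_offDiag] at hxy
          exact le_trans (sum_val_le _ _) (log_nat_mono (dist_lt (hY _ hxy.1) (hY _ hxy.2.1)).le)
      _ = (Y.offDiag.card : ℝ) * Real.log K := by simp
      _ ≤ _ := by
          gcongr
          rw [Finset.offDiag_card]
          have : Y.card * Y.card - Y.card ≤ Y.card ^ 2 := by rw [sq]; omega
          exact_mod_cast this
  have h3 : ∑ _p ∈ P, (t + 1) * Real.log K ≤ (t + 1) * z * Real.log K := by
    rw [Finset.sum_const, nsmul_eq_mul]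
    have : 0 ≤ (t + 1) * Real.log K := by positivity
    nlinarith
  have h4 := div_le_div_of_nonneg_right h2 ht.le
  linarith

end Pool.Agent.Lib.MP_aa636d_nt
end

-- part Pool.Agent.Lib.MP_aa636d_nt.Struct
section

/- Structure of a coincidence of two products in a short window. -/

namespace Pool.Agent.Lib.MP_aa636d_nt
open Finset Real

/-- large primes dividing both `n + x` and `n + y` -/
def G (z K n x y : ℕ) : Finset ℕ := {p ∈ range K | p.Prime ∧ z < p ∧ p ∣ n + x ∧ p ∣ n + y}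

noncomputable def g (z K n x y : ℕ) : ℝ := ∑ p ∈ G z K n x y, Real.log p

lemma g_nonneg (z K n x y : ℕ) : 0 ≤ g z K n x y :=
  Finset.sum_nonneg fun p _ => log_nat_nonneg p

lemma eq_of_div_eq {p z n x y : ℕ} (hz : 0 < z) (hzp : z ≤ p) (hx : p ∣ n + x) (hy : p ∣ n + y)
    (h : x / z = y / z) : x = y := by
  have h1 := dvd_dist hx hy
  have h2 : Nat.dist x y < p := by
    have a1 := Nat.div_add_mod x z
    have a2 := Nat.div_add_mod y z
    have a3 := Nat.mod_lt x hz
    have a4 := Nat.mod_lt y hz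
    rw [h] at a1
    unfold Nat.dist
    omega
  exact Nat.eq_of_dist_eq_zero (Nat.eq_zero_of_dvd_of_lt h1 h2)

lemma card_mult_le {p K n : ℕ} (hp : 0 < p) (Y : Finset ℕ) (hY : ∀ x ∈ Y, x < K) :
    #{x ∈ Y | p ∣ n + x} ≤ K / p + 1 := by
  calc _ ≤ #(range (K / p + 1)) := by
        apply Finset.card_le_card_of_injOn (fun x => x / p)
        · intro x hx
          have hx' := Finset.mem_filter.1 (Finset.mem_coe.1 hx)
          have := Nat.div_le_div_right (c := p) (hY x hx'.1).le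
          simp only [Finset.coe_range, Set.mem_Iio]
          omega
        · intro x hx y hy h
          exact eq_of_div_eq hp le_rfl (Finset.mem_filter.1 (Finset.mem_coe.1 hx)).2
            (Finset.mem_filter.1 (Finset.mem_coe.1 hy)).2 h
    _ = _ := by simp

lemma side {n K p : ℕ} {S T : Finset ℕ} (hS : ∀ x ∈ S, x < K) (hT : ∀ x ∈ T, x < K)
    (hd : Disjoint S T) :
    (∀ x ∈ S, p ^ (n + x).factorization p ≤ K) ∨ (∀ x ∈ T, p ^ (n + x).factorization p ≤ K) := by
  by_contra h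
  push Not at h
  obtain ⟨⟨x, hx, h1⟩, ⟨y, hy, h2⟩⟩ := h
  have hne : x ≠ y := fun e => Finset.disjoint_left.1 hd hx (e ▸ hy)
  have hpos := Nat.dist_pos_of_ne hne
  have hlt := dist_lt (hS x hx) (hT y hy)
  rcases le_total ((n + x).factorization p) ((n + y).factorization p) with h | h
  · have := Nat.le_of_dvd hpos (dvd_dist (Nat.ordProj_dvd (n + x) p)
      ((pow_dvd_pow p h).trans (Nat.ordProj_dvd (n + y) p)))
    omega
  · have := Nat.le_of_dvd hpos (dvd_dist ((pow_dvd_pow p h).trans (Nat.ordProj_dvd (n + x) p))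
      (Nat.ordProj_dvd (n + y) p))
    omega

lemma val_le_mult {n K p z : ℕ} (pp : p.Prime) (hn : 1 ≤ n) (hz : z < p) (hKz : K ≤ z ^ 2)
    {Y : Finset ℕ} (h : ∀ x ∈ Y, p ^ (n + x).factorization p ≤ K) :
    ∑ x ∈ Y, (n + x).factorization p ≤ #{x ∈ Y | p ∣ n + x} := by
  rw [Finset.card_filter]
  apply Finset.sum_le_sum
  intro x hx
  split_ifs with hd
  · by_contra hc
    have h2 : p ^ 2 ≤ p ^ (n + x).factorization p := Nat.pow_le_pow_right pp.pos (by omega)
    have h3 : z ^ 2 < p ^ 2 := Nat.pow_lt_pow_left hz (by norm_num)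
    have := h x hx
    omega
  · exact (Nat.factorization_eq_zero_of_not_dvd hd).le

lemma one_le_mult {n p : ℕ} {Y : Finset ℕ} (h : 0 < ∑ x ∈ Y, (n + x).factorization p) :
    1 ≤ #{x ∈ Y | p ∣ n + x} := by
  obtain ⟨x, hx, h0⟩ := Finset.exists_ne_zero_of_sum_ne_zero h.ne'
  apply Finset.card_pos.2
  exact ⟨x, Finset.mem_filter.2 ⟨hx, Nat.dvd_of_factorization_pos h0⟩⟩

lemma dvd_prod_gcd (a : ℕ) (T : Finset ℕ) (f : ℕ → ℕ) :
    Nat.gcd a (∏ y ∈ T, f y) ∣ ∏ y ∈ T, Nat.gcd a (f y) := by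
  induction T using Finset.induction_on with
  | empty => simp
  | insert y T hy ih =>
    rw [Finset.prod_insert hy, Finset.prod_insert hy]
    exact (gcd_mul_dvd_mul_gcd a (f y) _).trans (Nat.mul_dvd_mul_left _ ih)

/-- the sets must be large -/
lemma card_large {n K : ℕ} (hn : 1 ≤ n) {S T : Finset ℕ} (hS : ∀ x ∈ S, x < K)
    (hT : ∀ x ∈ T, x < K) (hd : Disjoint S T) (hne : S.Nonempty)
    (he : ∏ x ∈ S, (n + x) = ∏ x ∈ T, (n + x)) : Real.log n ≤ T.card * Real.log K := by
  obtain ⟨x, hx⟩ := hne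
  have h1 : n + x ∣ ∏ y ∈ T, (n + y) := he ▸ Finset.dvd_prod_of_mem _ hx
  have h2 := dvd_prod_gcd (n + x) T (fun y => n + y)
  rw [Nat.gcd_eq_left h1] at h2
  have h3 : ∏ y ∈ T, Nat.gcd (n + x) (n + y) ≤ K ^ T.card := by
    apply Finset.prod_le_pow_card
    intro y hy
    have hne : x ≠ y := fun e => Finset.disjoint_left.1 hd hx (e ▸ hy)
    have := Nat.le_of_dvd (Nat.dist_pos_of_ne hne)
      (dvd_dist (Nat.gcd_dvd_left (n + x) (n + y)) (Nat.gcd_dvd_right (n + x) (n + y)))
    have := dist_lt (hS x hx) (hT y hy)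
    omega
  have h4 : 0 < ∏ y ∈ T, Nat.gcd (n + x) (n + y) :=
    Finset.prod_pos fun y _ => Nat.gcd_pos_of_pos_left _ (by omega)
  have h5 := Nat.le_of_dvd h4 h2
  have h6 : n ≤ K ^ T.card := by omega
  have := log_nat_mono h6
  rwa [Nat.cast_pow, Real.log_pow] at this

lemma card_mul_log_le {n : ℕ} (hn : 1 ≤ n) (S : Finset ℕ) :
    S.card * Real.log n ≤ Real.log ((∏ x ∈ S, (n + x) : ℕ) : ℝ) := by
  have h : n ^ S.card ≤ ∏ x ∈ S, (n + x) := Finset.pow_card_le_prod _ _ _ fun x _ => by omega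
  have := log_nat_mono h
  rwa [Nat.cast_pow, Real.log_pow] at this

lemma harm_le (K : ℕ) : ∑ p ∈ range K, ((K / p : ℕ) : ℝ) ≤ K * (1 + Real.log K) := by
  have h := harmonic_le_one_add_log K
  simp only [harmonic_eq_sum_Icc, Rat.cast_sum, Rat.cast_inv, Rat.cast_natCast] at h
  calc ∑ p ∈ range K, ((K / p : ℕ) : ℝ) ≤ ∑ p ∈ range K, (K : ℝ) * (p : ℝ)⁻¹ := by
        apply Finset.sum_le_sum
        intro p _
        rw [← div_eq_mul_inv]
        exact Nat.cast_div_le
    _ ≤ ∑ p ∈ insert 0 (Icc 1 K), (K : ℝ) * (p : ℝ)⁻¹ := by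
        apply Finset.sum_le_sum_of_subset_of_nonneg
        · intro p hp
          simp only [Finset.mem_range] at hp
          simp only [Finset.mem_insert, Finset.mem_Icc]
          omega
        · intro p _ _
          positivity
    _ = K * ∑ p ∈ Icc 1 K, (p : ℝ)⁻¹ := by
        rw [Finset.sum_insert (by simp), Finset.mul_sum]; simp
    _ ≤ _ := by gcongr

/-- main structure lemma -/
lemma structure_lemma {n K z s : ℕ} {L : ℝ} (hL : 0 < L) (hn : 1 ≤ n) (hLn : L ≤ Real.log n)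
    (hK : 2 ≤ K) (hKz : K ≤ z ^ 2) (hz : 128 * z * Real.log K ^ 2 ≤ L ^ 2) {S T : Finset ℕ}
    (hS : ∀ x ∈ S, x < K) (hT : ∀ x ∈ T, x < K) (hd : Disjoint S T) (hne : S.Nonempty)
    (he : ∏ x ∈ S, (n + x) = ∏ x ∈ T, (n + x)) (hs : s = max S.card T.card) :
    L ≤ s * Real.log K ∧ s * L / 2 ≤ ∑ x ∈ S, ∑ y ∈ T, g z K n x y ∧
      s * L / 2 ≤ K * (2 + Real.log K) * Real.log K := by
  have hlK : 0 < Real.log K := Real.log_pos (by exact_mod_cast hK)
  have hSs : (S.card : ℝ) ≤ s := by exact_mod_cast hs ▸ le_max_left _ _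
  have hTs : (T.card : ℝ) ≤ s := by exact_mod_cast hs ▸ le_max_right _ _
  have hA : L ≤ s * Real.log K :=
    hLn.trans ((card_large hn hS hT hd hne he).trans (by gcongr))
  have hs0 : (0 : ℝ) < s := by
    by_contra h
    have : (s : ℝ) = 0 := le_antisymm (not_lt.1 h) (Nat.cast_nonneg s)
    rw [this] at hA; linarith
  set Q : ℕ := ∏ x ∈ S, (n + x) with hQ
  have htot : s * L ≤ Real.log Q := by
    have h1 := card_mul_log_le hn S
    have h2 := card_mul_log_le hn T
    rw [← he] at h2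
    have h3 : (s : ℝ) * Real.log n ≤ Real.log Q := by
      rcases max_choice S.card T.card with h | h <;> rw [hs, h] <;> assumption
    nlinarith
  have hvS : ∀ p, Q.factorization p = ∑ x ∈ S, (n + x).factorization p := fun p =>
    Nat.factorization_prod_apply fun x _ => by omega
  have hvT : ∀ p, Q.factorization p = ∑ x ∈ T, (n + x).factorization p := fun p => by
    rw [he]; exact Nat.factorization_prod_apply fun x _ => by omega
  set P : Finset ℕ := {p ∈ range K | p.Prime} with hP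
  have hQP : Real.log Q ≤ ∑ p ∈ P, (Q.factorization p : ℝ) * Real.log p := by
    apply log_le_sum_val
    intro p pp hp
    obtain ⟨x, hx, h1⟩ := (pp.prime.dvd_finsetProd_iff _).1 hp
    rw [he] at hp
    obtain ⟨y, hy, h2⟩ := (pp.prime.dvd_finsetProd_iff _).1 hp
    have hne : x ≠ y := fun e => Finset.disjoint_left.1 hd hx (e ▸ hy)
    have := Nat.le_of_dvd (Nat.dist_pos_of_ne hne) (dvd_dist h1 h2)
    have := dist_lt (hS x hx) (hT y hy)
    exact Finset.mem_filter.2 ⟨Finset.mem_range.2 (by omega), pp⟩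
  rw [← Finset.sum_filter_add_sum_filter_not P (fun p => p ≤ z)] at hQP
  -- small primes
  have hsmall : ∑ p ∈ P with p ≤ z, (Q.factorization p : ℝ) * Real.log p ≤ s * L / 2 := by
    set t : ℝ := 8 * s * Real.log K / L with ht
    have ht8 : 8 ≤ t := by rw [ht, le_div_iff₀ hL]; nlinarith
    have ht0 : 0 < t := by linarith
    have hP' : ∀ p ∈ {p ∈ P | p ≤ z}, p.Prime ∧ p ≤ z := fun p hp =>
      ⟨(Finset.mem_filter.1 (Finset.mem_filter.1 hp).1).2, (Finset.mem_filter.1 hp).2⟩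
    have b1 := small_bound (n := n) (by omega : 1 ≤ K) S hS ht0 _ hP'
    have b2 := small_bound (n := n) (by omega : 1 ≤ K) T hT ht0 _ hP'
    have b3 : ∑ p ∈ P with p ≤ z, (Q.factorization p : ℝ) * Real.log p ≤
        ∑ p ∈ P with p ≤ z, (∑ x ∈ S, (cnt K p (n + x) : ℝ)) * Real.log p +
        ∑ p ∈ P with p ≤ z, (∑ x ∈ T, (cnt K p (n + x) : ℝ)) * Real.log p := by
      rw [← Finset.sum_add_distrib]
      apply Finset.sum_le_sum
      intro p hp
      have pp := (hP' p hp).1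
      rw [← add_mul]
      have hlp := log_nat_nonneg p
      gcongr
      have : Q.factorization p ≤ ∑ x ∈ S, cnt K p (n + x) + ∑ x ∈ T, cnt K p (n + x) := by
        rcases side (n := n) (p := p) hS hT hd with h | h
        · rw [hvS]
          exact le_add_right (Finset.sum_le_sum fun x hx => val_le_cnt pp (by omega) (h x hx))
        · rw [hvT]
          exact le_add_left (Finset.sum_le_sum fun x hx => val_le_cnt pp (by omega) (h x hx))
      exact_mod_cast this
    have c1 : (S.card : ℝ) ^ 2 * Real.log K / t ≤ s * L / 8 := by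
      calc _ ≤ (s : ℝ) ^ 2 * Real.log K / t := by gcongr
        _ = _ := by rw [ht]; field_simp
    have c2 : (T.card : ℝ) ^ 2 * Real.log K / t ≤ s * L / 8 := by
      calc _ ≤ (s : ℝ) ^ 2 * Real.log K / t := by gcongr
        _ = _ := by rw [ht]; field_simp
    have c3 : (t + 1) * z * Real.log K ≤ s * L / 8 := by
      calc (t + 1) * z * Real.log K ≤ (2 * t) * z * Real.log K := by gcongr; linarith
        _ = s * (128 * z * Real.log K ^ 2) / (8 * L) := by rw [ht]; field_simp; ring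
        _ ≤ s * L ^ 2 / (8 * L) := by gcongr
        _ = _ := by field_simp
    linarith
  have hlarge : s * L / 2 ≤ ∑ p ∈ P with ¬ p ≤ z, (Q.factorization p : ℝ) * Real.log p := by
    linarith
  have hv : ∀ p ∈ {p ∈ P | ¬ p ≤ z},
      Q.factorization p ≤ #{x ∈ S | p ∣ n + x} * #{x ∈ T | p ∣ n + x} ∧
        Q.factorization p ≤ K / p + 1 := by
    intro p hp
    have pp : p.Prime := (Finset.mem_filter.1 (Finset.mem_filter.1 hp).1).2
    have hzp : z < p := not_le.1 (Finset.mem_filter.1 hp).2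
    rcases Nat.eq_zero_or_pos (Q.factorization p) with h0 | h0
    · rw [h0]; exact ⟨Nat.zero_le _, Nat.zero_le _⟩
    have m1 := one_le_mult (hvS p ▸ h0)
    have m2 := one_le_mult (hvT p ▸ h0)
    rcases side (n := n) (p := p) hS hT hd with h | h
    · have := val_le_mult pp hn hzp hKz h
      rw [← hvS] at this
      exact ⟨this.trans (Nat.le_mul_of_pos_right _ m2), this.trans (card_mult_le pp.pos S hS)⟩
    · have := val_le_mult pp hn hzp hKz h
      rw [← hvT] at this
      exact ⟨this.trans (Nat.le_mul_of_pos_left _ m1), this.trans (card_mult_le pp.pos T hT)⟩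
  refine ⟨hA, hlarge.trans ?_, hlarge.trans ?_⟩
  · have e : ∑ x ∈ S, ∑ y ∈ T, g z K n x y = ∑ p ∈ P with ¬ p ≤ z,
        ((#{x ∈ S | p ∣ n + x} * #{x ∈ T | p ∣ n + x} : ℕ) : ℝ) * Real.log p := by
      have e1 : ∀ x y, g z K n x y = ∑ p ∈ P with ¬ p ≤ z,
          (if p ∣ n + x then (1 : ℝ) else 0) * (if p ∣ n + y then (1 : ℝ) else 0) *
            Real.log p := by
        intro x y
        unfold g G
        rw [hP, Finset.filter_filter, Finset.sum_filter, Finset.sum_filter]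
        apply Finset.sum_congr rfl
        intro p _
        by_cases h1 : p.Prime <;> by_cases h2 : z < p <;> by_cases h3 : p ∣ n + x <;>
          by_cases h4 : p ∣ n + y <;> simp [h1, h2, h3, h4]
      simp only [e1]
      rw [Finset.sum_congr rfl fun x _ => Finset.sum_comm, Finset.sum_comm]
      apply Finset.sum_congr rfl
      intro p _
      simp only [Finset.card_filter, Nat.cast_mul, Nat.cast_sum, Nat.cast_ite, Nat.cast_one,
        Nat.cast_zero]
      rw [Finset.sum_mul_sum, Finset.sum_mul]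
      apply Finset.sum_congr rfl
      intro x _
      rw [Finset.sum_mul]
    rw [e]
    apply Finset.sum_le_sum
    intro p hp
    have hlp := log_nat_nonneg p
    gcongr
    exact (hv p hp).1
  · calc ∑ p ∈ P with ¬ p ≤ z, (Q.factorization p : ℝ) * Real.log p
        ≤ ∑ p ∈ P with ¬ p ≤ z, (((K / p : ℕ) : ℝ) + 1) * Real.log K := by
          apply Finset.sum_le_sum
          intro p hp
          have hlp := log_nat_nonneg p
          have h1 : (Q.factorization p : ℝ) ≤ ((K / p : ℕ) : ℝ) + 1 := by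
            exact_mod_cast (hv p hp).2
          have h2 : Real.log p ≤ Real.log K := log_nat_mono
            (Finset.mem_range.1 (Finset.mem_filter.1 (Finset.mem_filter.1 hp).1).1).le
          gcongr
      _ ≤ ∑ p ∈ range K, (((K / p : ℕ) : ℝ) + 1) * Real.log K := by
          apply Finset.sum_le_sum_of_subset_of_nonneg
          · exact (Finset.filter_subset _ _).trans (Finset.filter_subset _ _)
          · intro p _ _; positivity
      _ ≤ _ := by
          rw [← Finset.sum_mul, Finset.sum_add_distrib]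
          have := harm_le K
          simp only [Finset.sum_const, Finset.card_range, nsmul_eq_mul, mul_one]
          gcongr
          linarith

end Pool.Agent.Lib.MP_aa636d_nt
end

-- part Pool.Agent.Lib.MP_aa636d_nt.John
section

/- Block patterns and the Johnson bound. -/

namespace Pool.Agent.Lib.MP_aa636d_nt
open Finset Real

lemma johnson {ι : Type*} (U : Finset ι) (wt : ι → ℝ) (hwt : ∀ u ∈ U, 0 ≤ wt u) (E : Finset ℕ)
    (R : ℕ → ι → Prop) [∀ n u, Decidable (R n u)] {W L : ℝ} (hW : ∑ u ∈ U, wt u ≤ W)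
    (hL : 0 ≤ L)
    (hpair : ∀ n ∈ E, ∀ m ∈ E, n ≠ m → ∑ u ∈ U with R n u ∧ R m u, wt u ≤ L)
    (h1 : ∀ n ∈ E, 1 ≤ ∑ u ∈ U with R n u, wt u)
    (h2 : ∀ n ∈ E, 2 * W * L ≤ (∑ u ∈ U with R n u, wt u) ^ 2) : (E.card : ℝ) ≤ 2 * W := by
  have hW0 : 0 ≤ W := (Finset.sum_nonneg hwt).trans hW
  set w : ℕ → ℝ := fun n => ∑ u ∈ U with R n u, wt u with hw
  set A : ℝ := ∑ n ∈ E, w n with hA
  set d : ι → ℝ := fun u => ∑ n ∈ E, if R n u then (1 : ℝ) else 0 with hd
  have e1 : A = ∑ u ∈ U, wt u * d u := by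
    simp only [hA, hw, hd, Finset.sum_filter, Finset.mul_sum]
    rw [Finset.sum_comm]
    apply Finset.sum_congr rfl; intro u _
    apply Finset.sum_congr rfl; intro n _
    split_ifs <;> simp
  have e2 : ∑ u ∈ U, wt u * d u ^ 2 = ∑ n ∈ E, ∑ m ∈ E, ∑ u ∈ U with R n u ∧ R m u, wt u := by
    simp only [hd, sq, Finset.sum_mul_sum]
    simp only [Finset.mul_sum, Finset.sum_filter]
    rw [Finset.sum_comm]
    apply Finset.sum_congr rfl; intro n _
    rw [Finset.sum_comm]
    apply Finset.sum_congr rfl; intro m _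
    apply Finset.sum_congr rfl; intro u _
    by_cases a : R n u <;> by_cases b : R m u <;> simp [a, b]
  have e3 : ∑ n ∈ E, ∑ m ∈ E, ∑ u ∈ U with R n u ∧ R m u, wt u ≤ A + (E.card : ℝ) ^ 2 * L := by
    calc _ ≤ ∑ n ∈ E, (w n + E.card * L) := by
          apply Finset.sum_le_sum
          intro n hn
          rw [← Finset.add_sum_erase E _ hn]
          apply add_le_add
          · simp [hw]
          · calc _ ≤ ∑ _m ∈ E.erase n, L := Finset.sum_le_sum fun m hm =>
                  hpair n hn m (Finset.mem_of_mem_erase hm) (Finset.ne_of_mem_erase hm).symm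
              _ = ((E.erase n).card : ℝ) * L := by simp
              _ ≤ _ := by
                  gcongr
                  exact Finset.erase_subset _ _
      _ = _ := by rw [Finset.sum_add_distrib]; simp [hA]; ring
  have cs : A ^ 2 ≤ (∑ u ∈ U, wt u) * ∑ u ∈ U, wt u * d u ^ 2 := by
    rw [e1]
    apply Finset.sum_sq_le_sum_mul_sum_of_sq_le_mul U hwt
    · intro u hu; exact mul_nonneg (hwt u hu) (sq_nonneg _)
    · intro u _; apply le_of_eq; ring
  have hEA : (E.card : ℝ) ≤ A := by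
    calc (E.card : ℝ) = ∑ _n ∈ E, (1 : ℝ) := by simp
      _ ≤ A := Finset.sum_le_sum h1
  have hA0 : 0 ≤ A := (Nat.cast_nonneg _).trans hEA
  have hsq : (E.card : ℝ) * √(2 * W * L) ≤ A := by
    calc (E.card : ℝ) * √(2 * W * L) = ∑ _n ∈ E, √(2 * W * L) := by simp
      _ ≤ A := Finset.sum_le_sum fun n hn =>
          Real.sqrt_le_iff.2 ⟨zero_le_one.trans (h1 n hn), h2 n hn⟩
  have hsq2 : (E.card : ℝ) ^ 2 * (2 * W * L) ≤ A ^ 2 := by
    have := pow_le_pow_left₀ (by positivity) hsq 2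
    rwa [mul_pow, Real.sq_sqrt (by positivity)] at this
  have cs2 : A ^ 2 ≤ W * (A + (E.card : ℝ) ^ 2 * L) := by
    refine cs.trans ?_
    rw [e2]
    apply mul_le_mul hW e3 _ hW0
    rw [← e2]
    exact Finset.sum_nonneg fun u hu => mul_nonneg (hwt u hu) (sq_nonneg _)
  have : A ^ 2 ≤ 2 * W * A := by nlinarith
  rcases hA0.eq_or_lt with h | h
  · linarith
  · have : A ≤ 2 * W := by
      by_contra hc
      push Not at hc
      nlinarith
    linarith

def Narrow (z : ℕ) (A : Finset ℕ) : Prop := ∀ x ∈ A, ∀ y ∈ A, x / z = y / z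

noncomputable def w (z K n : ℕ) (A B : Finset ℕ) : ℝ := ∑ x ∈ A, ∑ y ∈ B, g z K n x y

lemma blocks {K z α : ℕ} (hα : 0 < α) (S : Finset ℕ) (hS : ∀ x ∈ S, x < K) :
    ∃ β : ℕ → ℕ, (∀ x ∈ S, β x ≤ K / z + S.card / α) ∧
      ∀ u, Narrow z {x ∈ S | β x = u} ∧ #{x ∈ S | β x = u} ≤ α := by
  set rk : ℕ → ℕ := fun x => #{y ∈ S | y < x} with hrk
  have mono : ∀ x y, x ≤ y → rk x ≤ rk y := fun x y h =>
    Finset.card_le_card fun a ha => Finset.mem_filter.2
      ⟨(Finset.mem_filter.1 ha).1, lt_of_lt_of_le (Finset.mem_filter.1 ha).2 h⟩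
  have smono : ∀ x ∈ S, ∀ y, x < y → rk x < rk y := by
    intro x hx y h
    apply Finset.card_lt_card
    refine ⟨fun a ha => Finset.mem_filter.2
      ⟨(Finset.mem_filter.1 ha).1, lt_trans (Finset.mem_filter.1 ha).2 h⟩, fun hc => ?_⟩
    have := hc (Finset.mem_filter.2 ⟨hx, h⟩)
    exact lt_irrefl _ (Finset.mem_filter.1 this).2
  have key : ∀ x y, x / z + rk x / α = y / z + rk y / α → x / z = y / z ∧ rk x / α = rk y / α := by
    intro x y h
    rcases le_total x y with hxy | hxy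
    · have a := Nat.div_le_div_right (c := z) hxy
      have b := Nat.div_le_div_right (c := α) (mono x y hxy)
      omega
    · have a := Nat.div_le_div_right (c := z) hxy
      have b := Nat.div_le_div_right (c := α) (mono y x hxy)
      omega
  refine ⟨fun x => x / z + rk x / α, fun x hx => ?_, fun u => ⟨?_, ?_⟩⟩
  · exact Nat.add_le_add (Nat.div_le_div_right (hS x hx).le)
      (Nat.div_le_div_right (Finset.card_filter_le _ _))
  · intro x hx y hy
    exact (key x y ((Finset.mem_filter.1 hx).2.trans (Finset.mem_filter.1 hy).2.symm)).1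
  · calc _ ≤ #(range α) := by
          apply Finset.card_le_card_of_injOn (fun x => rk x % α)
          · intro x _
            simp only [Finset.coe_range, Set.mem_Iio]
            exact Nat.mod_lt _ hα
          · intro x hx y hy h
            have hx' := Finset.mem_filter.1 (Finset.mem_coe.1 hx)
            have hy' := Finset.mem_filter.1 (Finset.mem_coe.1 hy)
            have h1 := (key x y (hx'.2.trans hy'.2.symm)).2
            have h2 : rk x = rk y := by
              rw [← Nat.div_add_mod (rk x) α, ← Nat.div_add_mod (rk y) α, h1]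
              simp only at h
              rw [h]
            rcases lt_trichotomy x y with c | c | c
            · have := smono x hx'.1 y c; omega
            · exact c
            · have := smono y hy'.1 x c; omega
      _ = α := by simp

lemma exists_pattern {K z α J n : ℕ} (hα : 0 < α) {S T : Finset ℕ} (hS : ∀ x ∈ S, x < K)
    (hT : ∀ x ∈ T, x < K) (hJS : K / z + S.card / α < J) (hJT : K / z + T.card / α < J) :
    ∃ A ⊆ S, ∃ B ⊆ T, Narrow z A ∧ Narrow z B ∧ A.card ≤ α ∧ B.card ≤ α ∧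
      w z K n S T ≤ (J : ℝ) ^ 2 * w z K n A B := by
  obtain ⟨β, hβ, hβ'⟩ := blocks (z := z) hα S hS
  obtain ⟨γ, hγ, hγ'⟩ := blocks (z := z) hα T hT
  have e : w z K n S T = ∑ uv ∈ range J ×ˢ range J,
      w z K n {x ∈ S | β x = uv.1} {y ∈ T | γ y = uv.2} := by
    rw [Finset.sum_product' (f := fun u v => w z K n {x ∈ S | β x = u} {y ∈ T | γ y = v})]
    unfold w
    rw [← Finset.sum_fiberwise_of_maps_to (s := S) (t := range J) (g := β)
      (fun x hx => Finset.mem_range.2 (lt_of_le_of_lt (hβ x hx) hJS))]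
    apply Finset.sum_congr rfl
    intro u _
    refine Eq.trans ?_ Finset.sum_comm
    apply Finset.sum_congr rfl
    intro x _
    rw [Finset.sum_fiberwise_of_maps_to (s := T) (t := range J) (g := γ)
      (fun x hx => Finset.mem_range.2 (lt_of_le_of_lt (hγ x hx) hJT))]
  have hne : (range J ×ˢ range J).Nonempty :=
    Finset.Nonempty.product ⟨0, Finset.mem_range.2 (Nat.zero_lt_of_lt hJS)⟩
      ⟨0, Finset.mem_range.2 (Nat.zero_lt_of_lt hJS)⟩
  obtain ⟨uv, _, hmax⟩ := Finset.exists_max_image _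
    (fun uv : ℕ × ℕ => w z K n {x ∈ S | β x = uv.1} {y ∈ T | γ y = uv.2}) hne
  refine ⟨_, Finset.filter_subset _ _, _, Finset.filter_subset _ _, (hβ' uv.1).1, (hγ' uv.2).1,
    (hβ' uv.1).2, (hγ' uv.2).2, ?_⟩
  rw [e]
  refine (Finset.sum_le_card_nsmul _ _ _ hmax).trans (le_of_eq ?_)
  simp [sq]

/-- few integers are captured by one pattern -/
lemma list_bound {K z M : ℕ} (hz : 0 < z) {A B : Finset ℕ} (hA : ∀ x ∈ A, x < K)
    (hB : ∀ x ∈ B, x < K) (hd : Disjoint A B) (nA : Narrow z A) (nB : Narrow z B)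
    (E : Finset ℕ) (hE : ∀ n ∈ E, M ≤ n ∧ n < 2 * M) {W : ℝ}
    (hW : A.card * B.card * Real.log K ≤ W) (h1 : ∀ n ∈ E, 1 ≤ w z K n A B)
    (h2 : ∀ n ∈ E, 2 * W * Real.log M ≤ w z K n A B ^ 2) : (E.card : ℝ) ≤ 2 * W := by
  classical
  set U : Finset ((ℕ × ℕ) × ℕ) :=
    {u ∈ (A ×ˢ B) ×ˢ range K | u.2.Prime ∧ u.2 ∣ Nat.dist u.1.1 u.1.2} with hU
  set R : ℕ → (ℕ × ℕ) × ℕ → Prop := fun n u => z < u.2 ∧ u.2 ∣ n + u.1.1 ∧ u.2 ∣ n + u.1.2
    with hR
  have hw : ∀ n, ∑ u ∈ U with R n u, Real.log (u.2 : ℕ) = w z K n A B := by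
    intro n
    unfold w g G
    rw [hU, Finset.filter_filter, Finset.sum_filter, Finset.sum_product, Finset.sum_product]
    apply Finset.sum_congr rfl; intro x _
    apply Finset.sum_congr rfl; intro y _
    rw [Finset.sum_filter]
    apply Finset.sum_congr rfl; intro p _
    apply if_congr _ rfl rfl
    simp only [hR]
    exact ⟨fun h => ⟨h.1.1, h.2⟩, fun h => ⟨⟨h.1, dvd_dist h.2.2.1 h.2.2.2⟩, h.2⟩⟩
  apply johnson U (fun u => Real.log (u.2 : ℕ)) (fun u _ => log_nat_nonneg _) E R _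
    (log_nat_nonneg M)
  · intro n hn m hm hnm
    have hinj : Set.InjOn (fun u : (ℕ × ℕ) × ℕ => u.2) ({u ∈ U | R n u ∧ R m u} : Finset _) := by
      intro u hu v hv h
      have hu' := Finset.mem_filter.1 (Finset.mem_coe.1 hu)
      have hv' := Finset.mem_filter.1 (Finset.mem_coe.1 hv)
      have a := Finset.mem_product.1 (Finset.mem_product.1 (Finset.mem_filter.1 hu'.1).1).1
      have b := Finset.mem_product.1 (Finset.mem_product.1 (Finset.mem_filter.1 hv'.1).1).1
      simp only at h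
      have r1 := hu'.2.1
      have r2 := hv'.2.1
      simp only [hR] at r1 r2
      rw [← h] at r2
      exact Prod.ext (Prod.ext (eq_of_div_eq hz r1.1.le r1.2.1 r2.2.1 (nA _ a.1 _ b.1))
        (eq_of_div_eq hz r1.1.le r1.2.2 r2.2.2 (nB _ a.2 _ b.2))) h
    rw [← Finset.sum_image (f := fun p : ℕ => Real.log p) hinj]
    have hpos := Nat.dist_pos_of_ne hnm
    refine (sum_prime_le (Nat.dist n m) hpos.ne' _ ?_).trans (log_nat_mono ?_)
    · intro p hp
      obtain ⟨u, hu, rfl⟩ := Finset.mem_image.1 hp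
      have hu' := Finset.mem_filter.1 hu
      refine ⟨(Finset.mem_filter.1 hu'.1).2.1, ?_⟩
      have r1 := hu'.2.1.2.1
      have r2 := hu'.2.2.2.1
      rw [add_comm] at r1 r2
      exact dvd_dist r1 r2
    · have := hE n hn
      have := hE m hm
      unfold Nat.dist
      omega
  · intro n hn; rw [hw]; exact h1 n hn
  · intro n hn; rw [hw]; exact h2 n hn
  · refine le_trans ?_ hW
    rw [hU, Finset.sum_filter, Finset.sum_product]
    calc _ ≤ ∑ _xy ∈ A ×ˢ B, Real.log K := by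
          apply Finset.sum_le_sum
          intro xy hxy
          rw [← Finset.sum_filter]
          have a := Finset.mem_product.1 hxy
          have hne : xy.1 ≠ xy.2 := fun e => Finset.disjoint_left.1 hd a.1 (e ▸ a.2)
          refine (sum_prime_le (Nat.dist xy.1 xy.2) (Nat.dist_pos_of_ne hne).ne' _ ?_).trans
            (log_nat_mono (dist_lt (hA _ a.1) (hB _ a.2)).le)
          intro p hp
          exact (Finset.mem_filter.1 hp).2
      _ = _ := by simp

lemma card_small_subsets (K α : ℕ) (hK : 1 ≤ K) :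
    #{A ∈ (range K).powerset | A.card ≤ α} ≤ (α + 1) * K ^ α := by
  calc _ ≤ #((range (α + 1)).biUnion fun i => (range K).powersetCard i) := by
        apply Finset.card_le_card
        intro A hA
        rw [Finset.mem_filter, Finset.mem_powerset] at hA
        rw [Finset.mem_biUnion]
        exact ⟨A.card, Finset.mem_range.2 (by omega), Finset.mem_powersetCard.2 ⟨hA.1, rfl⟩⟩
    _ ≤ ∑ i ∈ range (α + 1), #((range K).powersetCard i) := Finset.card_biUnion_le
    _ ≤ ∑ _i ∈ range (α + 1), K ^ α := by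
        apply Finset.sum_le_sum
        intro i hi
        rw [Finset.card_powersetCard, Finset.card_range]
        exact (Nat.choose_le_pow K i).trans
          (Nat.pow_le_pow_right hK (Nat.lt_succ_iff.1 (Finset.mem_range.1 hi)))
    _ = _ := by simp

end Pool.Agent.Lib.MP_aa636d_nt
end

-- part Pool.Agent.Lib.MP_aa636d_nt.Core
section

/- Counting exceptional integers in a dyadic range. -/

namespace Pool.Agent.Lib.MP_aa636d_nt
open Finset Real

def Bad (K n : ℕ) : Prop :=
  ∃ S T : Finset ℕ, (∀ x ∈ S, x < K) ∧ (∀ x ∈ T, x < K) ∧ Disjoint S T ∧ S.Nonempty ∧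
    ∏ x ∈ S, (n + x) = ∏ x ∈ T, (n + x)

lemma capture {M K z J a n : ℕ} (hM : 1 < M) (hK : 3 ≤ K) (hJ : 1 ≤ J) (hKz : K ≤ z ^ 2)
    (hKJ : K / z ≤ J) (hz : 128 * z * Real.log K ^ 2 ≤ Real.log M ^ 2)
    (hJL : 512 * J ^ 2 * Real.log K ≤ Real.log M)
    (ha : 2 * K * (2 + Real.log K) * Real.log K / (Real.log M * J) + 1 ≤ a)
    (hn : M ≤ n) (hb : Bad K n) :
    ∃ A B : Finset ℕ, (∀ x ∈ A, x < K) ∧ (∀ x ∈ B, x < K) ∧ Disjoint A B ∧ Narrow z A ∧
      Narrow z B ∧ A.card ≤ a ∧ B.card ≤ a ∧ 1 ≤ w z K n A B ∧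
      2 * (A.card * B.card * Real.log K) * Real.log M ≤ w z K n A B ^ 2 := by
  obtain ⟨S, T, hS, hT, hd, hne, he⟩ := hb
  set L := Real.log M with hLdef
  set l := Real.log K with hl
  have hL : 0 < L := Real.log_pos (by exact_mod_cast hM)
  have hl1 : 1 ≤ l := by
    rw [hl, Real.le_log_iff_exp_le (by positivity)]
    have : (3 : ℝ) ≤ K := by exact_mod_cast hK
    linarith [Real.exp_one_lt_d9]
  have hJ1 : (1 : ℝ) ≤ J := by exact_mod_cast hJ
  obtain ⟨h1, h2, h3⟩ := structure_lemma (s := max S.card T.card) hL (by omega)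
    (log_nat_mono hn) (by omega) hKz hz hS hT hd hne he rfl
  set s := max S.card T.card with hs
  have hsJ : (J : ℝ) ≤ s := by
    have : 512 * (J : ℝ) ^ 2 * l ≤ s * l := hJL.trans h1
    have : 512 * (J : ℝ) ^ 2 ≤ s := le_of_mul_le_mul_right this (by linarith)
    nlinarith
  set α := s / J + 1 with hα
  have hlt : ∀ c, c ≤ s → K / z + c / α < 2 * J := by
    intro c hc
    have h4 : s < J * α := by rw [hα]; exact Nat.lt_mul_div_succ s hJ
    have : c / α < J := Nat.div_lt_of_lt_mul (by rw [mul_comm]; omega)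
    omega
  obtain ⟨A, hA, B, hB, nA, nB, cA, cB, hw⟩ := exists_pattern (z := z) (n := n) (J := 2 * J)
    (Nat.succ_pos (s / J)) hS hT (hlt _ (le_max_left _ _)) (hlt _ (le_max_right _ _))
  have hα1 : (α : ℝ) ≤ s / J + 1 := by
    rw [hα]; push_cast
    have : ((s / J : ℕ) : ℝ) ≤ s / J := Nat.cast_div_le
    linarith
  have hα2 : (α : ℝ) ≤ 2 * s / J := by
    have : (1 : ℝ) ≤ s / J := by rw [le_div_iff₀ (by linarith)]; linarith
    have e : 2 * (s : ℝ) / J = s / J + s / J := by ring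
    linarith
  have hαa : α ≤ a := by
    have h5 : (s : ℝ) / J ≤ 2 * K * (2 + l) * l / (L * J) := by
      rw [div_le_div_iff₀ (by linarith) (by positivity)]
      have : (s : ℝ) * L ≤ 2 * K * (2 + l) * l := by linarith
      calc (s : ℝ) * (L * J) = s * L * J := by ring
        _ ≤ _ := by gcongr
    have : (α : ℝ) ≤ a := by linarith
    exact_mod_cast this
  have hw' : s * L / (8 * J ^ 2) ≤ w z K n A B := by
    rw [div_le_iff₀ (by positivity)]
    have : s * L / 2 ≤ ((2 * J : ℕ) : ℝ) ^ 2 * w z K n A B := h2.trans hw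
    push_cast at this
    linarith
  have hs1 : (1 : ℝ) ≤ s := hJ1.trans hsJ
  refine ⟨A, B, fun x hx => hS x (hA hx), fun x hx => hT x (hB hx),
    Finset.disjoint_of_subset_left hA (Finset.disjoint_of_subset_right hB hd), nA, nB,
    cA.trans hαa, cB.trans hαa, le_trans ?_ hw', ?_⟩
  · rw [le_div_iff₀ (by positivity)]
    have : 512 * (J : ℝ) ^ 2 * 1 ≤ 512 * J ^ 2 * l := by gcongr
    nlinarith
  · have cA' : (A.card : ℝ) ≤ 2 * s / J := le_trans (by exact_mod_cast cA) hα2
    have cB' : (B.card : ℝ) ≤ 2 * s / J := le_trans (by exact_mod_cast cB) hα2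
    calc 2 * (A.card * B.card * l) * L ≤ 2 * ((2 * s / J) * (2 * s / J) * l) * L := by gcongr
      _ = s ^ 2 * L * (512 * J ^ 2 * l) / (64 * J ^ 4) := by field_simp; ring
      _ ≤ s ^ 2 * L * L / (64 * J ^ 4) := by gcongr
      _ = (s * L / (8 * J ^ 2)) ^ 2 := by field_simp; ring
      _ ≤ _ := by gcongr

lemma core {M K z J a : ℕ} (hM : 1 < M) (hK : 3 ≤ K) (hJ : 1 ≤ J) (hKz : K ≤ z ^ 2)
    (hKJ : K / z ≤ J) (hz : 128 * z * Real.log K ^ 2 ≤ Real.log M ^ 2)
    (hJL : 512 * J ^ 2 * Real.log K ≤ Real.log M)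
    (ha : 2 * K * (2 + Real.log K) * Real.log K / (Real.log M * J) + 1 ≤ a)
    (E : Finset ℕ) (hE : ∀ n ∈ E, M ≤ n ∧ n < 2 * M ∧ Bad K n) :
    (E.card : ℝ) ≤ (((a + 1) * K ^ a : ℕ) : ℝ) ^ 2 * (2 * (a ^ 2 * Real.log K)) := by
  classical
  have hz0 : 0 < z := by
    rcases Nat.eq_zero_or_pos z with h | h
    · rw [h] at hKz; omega
    · exact h
  have hl := log_nat_nonneg K
  set Pw := {A ∈ (range K).powerset | A.card ≤ a} with hPw
  set F : Finset ℕ × Finset ℕ → Finset ℕ := fun AB => {n ∈ E | Disjoint AB.1 AB.2 ∧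
    Narrow z AB.1 ∧ Narrow z AB.2 ∧ 1 ≤ w z K n AB.1 AB.2 ∧
    2 * (AB.1.card * AB.2.card * Real.log K) * Real.log M ≤ w z K n AB.1 AB.2 ^ 2} with hF
  have hsub : E ⊆ (Pw ×ˢ Pw).biUnion F := by
    intro n hn
    obtain ⟨A, B, hA, hB, hd, nA, nB, cA, cB, w1, w2⟩ :=
      capture hM hK hJ hKz hKJ hz hJL ha (hE n hn).1 (hE n hn).2.2
    rw [Finset.mem_biUnion]
    refine ⟨(A, B), Finset.mem_product.2 ⟨?_, ?_⟩, Finset.mem_filter.2 ⟨hn, hd, nA, nB, w1, w2⟩⟩
    · exact Finset.mem_filter.2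
        ⟨Finset.mem_powerset.2 fun x hx => Finset.mem_range.2 (hA x hx), cA⟩
    · exact Finset.mem_filter.2
        ⟨Finset.mem_powerset.2 fun x hx => Finset.mem_range.2 (hB x hx), cB⟩
  have hone : ∀ AB ∈ Pw ×ˢ Pw, ((F AB).card : ℝ) ≤ 2 * (a ^ 2 * Real.log K) := by
    intro AB hAB
    rcases (F AB).eq_empty_or_nonempty with h | ⟨n, hn⟩
    · rw [h]; simp only [Finset.card_empty, Nat.cast_zero]; positivity
    have hn' := (Finset.mem_filter.1 hn).2
    have a1 := Finset.mem_filter.1 (Finset.mem_product.1 hAB).1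
    have a2 := Finset.mem_filter.1 (Finset.mem_product.1 hAB).2
    have := list_bound (M := M) hz0
      (fun x hx => Finset.mem_range.1 (Finset.mem_powerset.1 a1.1 hx))
      (fun x hx => Finset.mem_range.1 (Finset.mem_powerset.1 a2.1 hx)) hn'.1 hn'.2.1 hn'.2.2.1
      (F AB) (fun m hm => ⟨(hE m (Finset.mem_filter.1 hm).1).1,
        (hE m (Finset.mem_filter.1 hm).1).2.1⟩) le_rfl
      (fun m hm => (Finset.mem_filter.1 hm).2.2.2.2.1)
      (fun m hm => (Finset.mem_filter.1 hm).2.2.2.2.2)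
    refine this.trans ?_
    have c1 : (AB.1.card : ℝ) ≤ a := by exact_mod_cast a1.2
    have c2 : (AB.2.card : ℝ) ≤ a := by exact_mod_cast a2.2
    rw [sq]
    gcongr
  calc (E.card : ℝ) ≤ (((Pw ×ˢ Pw).biUnion F).card : ℝ) := by
        exact_mod_cast Finset.card_le_card hsub
    _ ≤ ∑ AB ∈ Pw ×ˢ Pw, ((F AB).card : ℝ) := by exact_mod_cast Finset.card_biUnion_le
    _ ≤ ∑ _AB ∈ Pw ×ˢ Pw, 2 * (a ^ 2 * Real.log K) := Finset.sum_le_sum hone
    _ = (Pw.card : ℝ) ^ 2 * (2 * (a ^ 2 * Real.log K)) := by simp [sq]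
    _ ≤ _ := by
        gcongr
        exact card_small_subsets K a (by omega)

lemma core_exp {K a : ℕ} (hK : 3 ≤ K) (ha : 1 ≤ a) :
    (((a + 1) * K ^ a : ℕ) : ℝ) ^ 2 * (2 * (a ^ 2 * Real.log K)) ≤
      Real.exp (8 * a * Real.log K) := by
  set l := Real.log K with hl
  have hl1 : 1 ≤ l := by
    rw [hl, Real.le_log_iff_exp_le (by positivity)]
    have : (3 : ℝ) ≤ K := by exact_mod_cast hK
    linarith [Real.exp_one_lt_d9]
  have ha1 : (1 : ℝ) ≤ a := by exact_mod_cast ha
  have hKe : (K : ℝ) = Real.exp l := by rw [hl, Real.exp_log (by positivity)]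
  have hal : (a : ℝ) ≤ a * l := by nlinarith
  have hal' : l ≤ a * l := by nlinarith
  have b1 : (a : ℝ) + 1 ≤ Real.exp (a * l) := (Real.add_one_le_exp _).trans' (by linarith)
  have b2 : (K : ℝ) ^ a = Real.exp (a * l) := by rw [hKe, ← Real.exp_nat_mul]
  have b3 : (a : ℝ) ≤ Real.exp (a * l) := by linarith
  have b4 : l ≤ Real.exp (a * l) := (Real.add_one_le_exp _).trans' (by linarith)
  have b5 : (2 : ℝ) ≤ Real.exp (a * l) := by linarith
  push_cast
  rw [b2]
  calc ((a + 1) * Real.exp (a * l)) ^ 2 * (2 * (a ^ 2 * l))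
      ≤ (Real.exp (a * l) * Real.exp (a * l)) ^ 2 *
        (Real.exp (a * l) * (Real.exp (a * l) ^ 2 * Real.exp (a * l))) := by gcongr
    _ = Real.exp (a * l) ^ 8 := by ring
    _ = _ := by rw [← Real.exp_nat_mul]; congr 1; push_cast; ring

end Pool.Agent.Lib.MP_aa636d_nt
end

-- part Pool.Agent.Lib.MP_aa636d_nt.Asym
section

/- Choice of the parameters. -/

namespace Pool.Agent.Lib.MP_aa636d_nt
open Finset Real Filter

lemma ev_le {a b : ℝ} (C : ℝ) (hab : a < b) : ∀ᶠ L : ℝ in atTop, C * L ^ a ≤ L ^ b := by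
  have h := (tendsto_rpow_atTop (sub_pos.2 hab)).eventually_ge_atTop C
  filter_upwards [h, eventually_gt_atTop 0] with L h1 h2
  have : L ^ b = L ^ (b - a) * L ^ a := by rw [← Real.rpow_add h2]; ring_nf
  rw [this]
  gcongr

lemma ev_log {δ : ℝ} (hδ : 0 < δ) : ∀ᶠ L : ℝ in atTop, Real.log (16 * L ^ (3 : ℝ)) ≤ L ^ δ := by
  filter_upwards [ev_le (8 / δ) (half_lt_self hδ), eventually_ge_atTop 16] with L h1 h2
  have hL : 0 < L := by linarith
  have h3 : Real.log (16 * L ^ (3 : ℝ)) ≤ 4 * Real.log L := by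
    rw [Real.log_mul (by norm_num) (by positivity), Real.log_rpow hL]
    have := Real.log_le_log (by norm_num) h2
    linarith
  have h4 := Real.log_le_rpow_div hL.le (half_pos hδ)
  have e : 4 * (L ^ (δ / 2) / (δ / 2)) = 8 / δ * L ^ (δ / 2) := by field_simp; ring
  linarith

lemma dyadic_real {c θ : ℝ} (hc : 2 ≤ c) (hc' : c < 5 / 2) (hθ : c - 3 / 2 < θ) :
    ∀ᶠ L : ℝ in atTop, ∀ M : ℕ, Real.log M = L → ∀ E : Finset ℕ,
      (∀ n ∈ E, M ≤ n ∧ n < 2 * M ∧ Bad ⌈(2 * L) ^ c⌉₊ n) → (E.card : ℝ) ≤ Real.exp (L ^ θ) := by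
  obtain ⟨δ, hδ, d1, d2, d3⟩ : ∃ δ : ℝ, 0 < δ ∧ δ < 1 ∧ c - (1 - δ) / 2 + 2 * δ < 2 ∧
      c - 1 - (1 - δ) / 2 + 3 * δ < θ := by
    refine ⟨min (5 / 2 - c) (θ - (c - 3 / 2)) / 4, ?_, ?_, ?_, ?_⟩
    · have : 0 < min (5 / 2 - c) (θ - (c - 3 / 2)) := lt_min (by linarith) (by linarith)
      linarith
    · have := min_le_left (5 / 2 - c) (θ - (c - 3 / 2)); linarith
    · have := min_le_left (5 / 2 - c) (θ - (c - 3 / 2)); linarith
    · have := min_le_right (5 / 2 - c) (θ - (c - 3 / 2)); linarith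
  filter_upwards [ev_log hδ, eventually_ge_atTop 2, ev_le 512 d1, ev_le (256 * 16 * 46) d2,
    ev_le (8 * (6 * 16 * 46 + 2)) d3] with L e1 e2 e3 e4 e5
  intro M hM E hE
  have hL : 0 < L := by linarith
  have hL1 : 1 ≤ L := by linarith
  have hM1 : 1 < M := by
    by_contra h
    have : M = 0 ∨ M = 1 := by omega
    rcases this with h | h <;> simp [h] at hM <;> linarith
  set K := ⌈(2 * L) ^ c⌉₊ with hKdef
  have k1 : 2 * L ≤ (2 * L) ^ c := by
    calc 2 * L = (2 * L) ^ (1 : ℝ) := by simp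
      _ ≤ _ := Real.rpow_le_rpow_of_exponent_le (by linarith) (by linarith)
  have k2 : 2 * L ≤ K := k1.trans (Nat.le_ceil _)
  have k3 : (K : ℝ) ≤ 16 * L ^ c := by
    have h1 : (K : ℝ) ≤ (2 * L) ^ c + 1 := (Nat.ceil_lt_add_one (by positivity)).le
    have h2 : (2 * L) ^ c ≤ 8 * L ^ c := by
      rw [Real.mul_rpow (by norm_num) hL.le]
      have : (2 : ℝ) ^ c ≤ 2 ^ (3 : ℝ) := Real.rpow_le_rpow_of_exponent_le (by norm_num) (by linarith)
      have e : (2 : ℝ) ^ (3 : ℝ) = 8 := by norm_num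
      rw [e] at this
      gcongr
    have h3 : 1 ≤ L ^ c := Real.one_le_rpow hL1 (by linarith)
    linarith
  have hK3 : 3 ≤ K := by
    have : (3 : ℝ) ≤ K := by linarith
    exact_mod_cast this
  set l := Real.log K with hl
  have hl1 : 1 ≤ l := by
    rw [hl, Real.le_log_iff_exp_le (by positivity)]
    have : (3 : ℝ) ≤ K := by exact_mod_cast hK3
    linarith [Real.exp_one_lt_d9]
  have hl2 : l ≤ L ^ δ := by
    refine le_trans (Real.log_le_log (by linarith) (k3.trans ?_)) e1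
    gcongr
    linarith
  rw [Real.rpow_one] at e3
  have q1 : 1 ≤ L / (512 * l) := by rw [le_div_iff₀ (by positivity)]; linarith
  set J := ⌊√(L / (512 * l))⌋₊ with hJdef
  have s1 : 1 ≤ √(L / (512 * l)) := Real.one_le_sqrt.2 q1
  have hJ : 1 ≤ J := Nat.le_floor (by simpa using s1)
  have hJ1 : (1 : ℝ) ≤ J := by exact_mod_cast hJ
  have j1 : (J : ℝ) ^ 2 ≤ L / (512 * l) := by
    have : (J : ℝ) ≤ √(L / (512 * l)) := Nat.floor_le (by positivity)
    calc (J : ℝ) ^ 2 ≤ √(L / (512 * l)) ^ 2 := by gcongr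
      _ = _ := Real.sq_sqrt (by positivity)
  have j2 : 512 * (J : ℝ) ^ 2 * l ≤ L := by
    rw [le_div_iff₀ (by positivity)] at j1; linarith
  set h := L ^ ((1 - δ) / 2) with hh
  have hpos : 0 < h := by positivity
  have hh2 : h ^ 2 * L ^ δ = L := by
    rw [hh, ← Real.rpow_natCast, ← Real.rpow_mul hL.le, ← Real.rpow_add hL]
    norm_num
  have j3 : h ≤ 46 * J := by
    have h1 : √(L / (512 * l)) < J + 1 := Nat.lt_floor_add_one _
    have h2 : h / 23 ≤ √(L / (512 * l)) := by
      apply Real.le_sqrt_of_sq_le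
      rw [le_div_iff₀ (by positivity)]
      have : h ^ 2 * l ≤ h ^ 2 * L ^ δ := by gcongr
      have : 0 ≤ h ^ 2 * l := by positivity
      nlinarith
    linarith
  have j4 : J ^ 2 ≤ K := by
    have : (J : ℝ) ^ 2 ≤ K := by nlinarith [sq_nonneg (J : ℝ)]
    exact_mod_cast this
  set z := K / J + 1 with hz
  have z1 : K < J * z := by rw [hz]; exact Nat.lt_mul_div_succ K hJ
  have z2 : K / z ≤ J := (Nat.div_lt_of_lt_mul (by rw [mul_comm]; exact z1)).le
  have z3 : K ≤ z ^ 2 := by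
    have h1 : K * K ≤ (J * z) * (J * z) := Nat.mul_le_mul z1.le z1.le
    have h2 : (J * z) * (J * z) ≤ K * z ^ 2 := by
      calc (J * z) * (J * z) = J ^ 2 * z ^ 2 := by ring
        _ ≤ _ := Nat.mul_le_mul_right _ j4
    exact Nat.le_of_mul_le_mul_left (h1.trans h2) (by omega)
  have kj : (K : ℝ) / J ≤ 16 * 46 * (L ^ c / h) := by
    rw [div_le_iff₀ (by linarith)]
    calc (K : ℝ) ≤ 16 * L ^ c := k3
      _ = 16 * (L ^ c / h) * h := by field_simp
      _ ≤ 16 * (L ^ c / h) * (46 * J) := by gcongr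
      _ = _ := by ring
  have z4 : (z : ℝ) ≤ 2 * (K / J) := by
    have h1 : ((K / J : ℕ) : ℝ) ≤ K / J := Nat.cast_div_le
    have h2 : (1 : ℝ) ≤ K / J := by
      rw [le_div_iff₀ (by linarith)]
      have : (J : ℝ) ^ 2 ≤ K := by exact_mod_cast j4
      nlinarith
    rw [hz]; push_cast; linarith
  have r1 : L ^ (c - (1 - δ) / 2 + 2 * δ) = L ^ c / h * (L ^ δ) ^ 2 := by
    rw [Real.rpow_add hL, Real.rpow_sub hL, mul_comm 2 δ, Real.rpow_mul hL.le]
    norm_num [hh]
  have r2 : L ^ (c - 1 - (1 - δ) / 2 + 3 * δ) = L ^ c / h / L * (L ^ δ) ^ 3 := by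
    rw [Real.rpow_add hL, Real.rpow_sub hL, Real.rpow_sub hL, mul_comm 3 δ, Real.rpow_mul hL.le]
    norm_num [hh]
    left; field_simp
  have z5 : 128 * z * l ^ 2 ≤ L ^ 2 := by
    rw [r1, Real.rpow_two] at e4
    calc 128 * (z : ℝ) * l ^ 2 ≤ 128 * (2 * (16 * 46 * (L ^ c / h))) * (L ^ δ) ^ 2 := by
          gcongr; linarith
      _ = _ := by ring
      _ ≤ _ := e4
  set X := 2 * K * (2 + l) * l / (L * J) with hX
  have hX0 : 0 ≤ X := by positivity
  set a := ⌈X + 1⌉₊ with ha
  have a1 : X + 1 ≤ a := Nat.le_ceil _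
  have a2 : (a : ℝ) ≤ X + 2 := by
    have := Nat.ceil_lt_add_one (by linarith : 0 ≤ X + 1)
    linarith
  have a3 : 1 ≤ a := by
    have : (1 : ℝ) ≤ a := by linarith
    exact_mod_cast this
  have hcore := core (M := M) (K := K) (z := z) (J := J) (a := a) hM1 hK3 hJ z3 z2
    (by rw [hM]; exact z5) (by rw [hM]; exact j2) (by rw [hM]; exact a1) E hE
  refine hcore.trans ((core_exp hK3 a3).trans (Real.exp_le_exp.2 (le_trans ?_ e5)))
  have hLd : 1 ≤ L ^ δ := hl1.trans hl2
  have x1 : X ≤ 6 * 16 * 46 * (L ^ c / h / L * (L ^ δ) ^ 2) := by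
    calc X = 2 * (K / J) * ((2 + l) * l) / L := by rw [hX]; field_simp
      _ ≤ 2 * (16 * 46 * (L ^ c / h)) * ((3 * L ^ δ) * L ^ δ) / L := by
          gcongr; linarith
      _ = _ := by ring
  have x2 : 1 ≤ L ^ c / h / L * (L ^ δ) ^ 2 := by
    have h1 : 1 ≤ L ^ c / h / L := by
      rw [div_div, le_div_iff₀ (by positivity), one_mul, hh, ← Real.rpow_add_one hL.ne']
      exact Real.rpow_le_rpow_of_exponent_le hL1 (by linarith)
    nlinarith
  rw [r2]
  calc 8 * (a : ℝ) * l ≤ 8 * ((6 * 16 * 46 + 2) * (L ^ c / h / L * (L ^ δ) ^ 2)) * L ^ δ := by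
        gcongr; linarith
    _ = _ := by ring

/-- reduction of a coincidence of products to `Bad` -/
lemma bad_of {n K : ℕ} (hn : 1 ≤ n) {S T : Finset ℕ} (hS : ∀ a ∈ S, n < a ∧ a < n + K)
    (hT : ∀ a ∈ T, n < a ∧ a < n + K) (he : ∏ a ∈ S, a = ∏ a ∈ T, a) (hne : S ≠ T) :
    Bad K n := by
  have hI : 0 < ∏ a ∈ S ∩ T, a :=
    Finset.prod_pos fun a ha => by have := hS a (Finset.mem_inter.1 ha).1; omega
  have e1 : (∏ a ∈ S \ T, a) * ∏ a ∈ S ∩ T, a = ∏ a ∈ S, a := by
    rw [← Finset.sdiff_inter_self_left]; exact Finset.prod_sdiff Finset.inter_subset_left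
  have e2 : (∏ a ∈ T \ S, a) * ∏ a ∈ S ∩ T, a = ∏ a ∈ T, a := by
    rw [Finset.inter_comm, ← Finset.sdiff_inter_self_left]
    exact Finset.prod_sdiff Finset.inter_subset_left
  have e3 : ∏ a ∈ S \ T, a = ∏ a ∈ T \ S, a :=
    Nat.eq_of_mul_eq_mul_right hI (by rw [e1, e2, he])
  have hne' : (S \ T).Nonempty := by
    by_contra h
    rw [Finset.not_nonempty_iff_eq_empty] at h
    rw [h, Finset.prod_empty] at e3
    have h2 : (T \ S).Nonempty := by
      by_contra h'
      rw [Finset.not_nonempty_iff_eq_empty] at h'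
      exact hne (Finset.Subset.antisymm (Finset.sdiff_eq_empty_iff_subset.1 h)
        (Finset.sdiff_eq_empty_iff_subset.1 h'))
    obtain ⟨b, hb⟩ := h2
    have h3 : b ∣ 1 := e3 ▸ Finset.dvd_prod_of_mem (fun a => a) hb
    have := Nat.le_of_dvd one_pos h3
    have := hT b (Finset.mem_sdiff.1 hb).1
    omega
  have key : ∀ Y : Finset ℕ, (∀ a ∈ Y, n < a) →
      ∏ x ∈ Y.image (fun a => a - n), (n + x) = ∏ a ∈ Y, a := by
    intro Y hY
    rw [Finset.prod_image]
    · exact Finset.prod_congr rfl fun a ha => by have := hY a ha; omega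
    · intro a ha b hb h
      have := hY a ha
      have := hY b hb
      simp only at h
      omega
  refine ⟨(S \ T).image (fun a => a - n), (T \ S).image (fun a => a - n), ?_, ?_, ?_,
    hne'.image _, ?_⟩
  · intro x hx
    obtain ⟨a, ha, rfl⟩ := Finset.mem_image.1 hx
    have := hS a (Finset.mem_sdiff.1 ha).1
    omega
  · intro x hx
    obtain ⟨a, ha, rfl⟩ := Finset.mem_image.1 hx
    have := hT a (Finset.mem_sdiff.1 ha).1
    omega
  · rw [Finset.disjoint_left]
    intro x hx hx'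
    obtain ⟨a, ha, rfl⟩ := Finset.mem_image.1 hx
    obtain ⟨b, hb, hab⟩ := Finset.mem_image.1 hx'
    have h1 := hS a (Finset.mem_sdiff.1 ha).1
    have h2 := hT b (Finset.mem_sdiff.1 hb).1
    have : b = a := by omega
    exact (Finset.mem_sdiff.1 hb).2 (this ▸ (Finset.mem_sdiff.1 ha).1)
  · rw [key _ fun a ha => (hS a (Finset.mem_sdiff.1 ha).1).1,
      key _ fun a ha => (hT a (Finset.mem_sdiff.1 ha).1).1, e3]

end Pool.Agent.Lib.MP_aa636d_nt
end
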