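import Pool.Agent.Lib.MP_aa636d_nt.Asym

/- Counting by the Chinese remainder theorem, and random selection of points. -/

namespace Pool.Agent.Lib.MP_aa636d_nt
open Finset Real

lemma crt_count {ι : Type*} [DecidableEq ι] (C : Finset ι) (q r : ι → ℕ) (E : Finset ℕ)
    {M m j y : ℕ} (hE : ∀ n ∈ E, M ≤ n ∧ n < 2 * M) (hj : M ≤ y ^ j)
    (hG : ∀ n ∈ E, ∃ G ⊆ C, m ≤ G.card ∧ (∀ u ∈ G, y ≤ q u ∧ q u ∣ n + r u) ∧
      ∀ u ∈ G, ∀ v ∈ G, u ≠ v → Nat.Coprime (q u) (q v)) :
    E.card * m.choose j ≤ C.card.choose j := by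
  classical
  choose! G hG using hG
  have hdis : ∀ n ∈ E, ∀ n' ∈ E, n ≠ n' →
      Disjoint ((G n).powersetCard j) ((G n').powersetCard j) := by
    intro n hn n' hn' hne
    rw [Finset.disjoint_left]
    intro J h1 h2
    rw [Finset.mem_powersetCard] at h1 h2
    have hd : ∏ u ∈ J, q u ∣ Nat.dist n n' := by
      apply Finset.prod_dvd_of_isRelPrime
      · intro u hu v hv huv
        exact Nat.coprime_iff_isRelPrime.1
          ((hG n hn).2.2.2 u (h1.1 hu) v (h1.1 hv) huv)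
      · intro u hu
        have a1 := ((hG n hn).2.2.1 u (h1.1 hu)).2
        have a2 := ((hG n' hn').2.2.1 u (h2.1 hu)).2
        rw [add_comm] at a1 a2
        exact dvd_dist a1 a2
    have hle := Nat.le_of_dvd (Nat.dist_pos_of_ne hne) hd
    have hp : y ^ J.card ≤ ∏ u ∈ J, q u :=
      Finset.pow_card_le_prod _ _ _ fun u hu => ((hG n hn).2.2.1 u (h1.1 hu)).1
    rw [h1.2] at hp
    have := hE n hn
    have := hE n' hn'
    unfold Nat.dist at hle
    omega
  calc E.card * m.choose j = ∑ _n ∈ E, m.choose j := by simp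
    _ ≤ ∑ n ∈ E, ((G n).powersetCard j).card := by
        apply Finset.sum_le_sum
        intro n hn
        rw [Finset.card_powersetCard]
        exact Nat.choose_le_choose j (hG n hn).2.1
    _ = (E.biUnion fun n => (G n).powersetCard j).card := (Finset.card_biUnion hdis).symm
    _ ≤ (C.powersetCard j).card := by
        apply Finset.card_le_card
        intro J hJ
        obtain ⟨n, hn, h⟩ := Finset.mem_biUnion.1 hJ
        rw [Finset.mem_powersetCard] at h ⊢
        exact ⟨h.1.trans (hG n hn).1, h.2⟩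
    _ = _ := Finset.card_powersetCard _ _

lemma ratio_le {e m j c : ℕ} {μ : ℝ} (hμ : 0 < μ) (hm : μ ≤ m) (hj : 2 * (j : ℝ) ≤ μ)
    (h : e * m.choose j ≤ c.choose j) : (e : ℝ) ≤ (2 * c / μ) ^ j := by
  have h1 : ((m + 1 - j : ℕ) ^ j : ℝ) / j.factorial ≤ m.choose j := Nat.pow_le_choose j m
  have h2 : (c.choose j : ℝ) ≤ (c ^ j : ℝ) / j.factorial := Nat.choose_le_pow_div j c
  have h3 : (e : ℝ) * m.choose j ≤ c.choose j := by exact_mod_cast h
  have hjm : j ≤ m + 1 := by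
    have : (j : ℝ) ≤ m := by
      have : (0 : ℝ) ≤ j := Nat.cast_nonneg j
      linarith
    have : j ≤ m := by exact_mod_cast this
    omega
  have h4 : μ / 2 ≤ ((m + 1 - j : ℕ) : ℝ) := by
    rw [Nat.cast_sub hjm]; push_cast; linarith
  have hf : (0 : ℝ) < j.factorial := by exact_mod_cast j.factorial_pos
  have h5 : (μ / 2) ^ j / j.factorial ≤ m.choose j := le_trans (by gcongr) h1
  have h6 : (e : ℝ) * ((μ / 2) ^ j / j.factorial) ≤ (c ^ j : ℝ) / j.factorial :=
    le_trans (by gcongr) (h3.trans h2)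
  have h7 : (e : ℝ) * (μ / 2) ^ j ≤ (c : ℝ) ^ j := by
    rw [← mul_div_assoc, div_le_div_iff_of_pos_right hf] at h6; exact h6
  have e1 : (2 * c / μ) ^ j = (c : ℝ) ^ j / (μ / 2) ^ j := by
    rw [← div_pow]; congr 1; field_simp
  rw [e1, le_div_iff₀ (by positivity)]
  exact h7

lemma one_sub_pow_le {x : ℝ} {t : ℕ} (h0 : 0 ≤ x) (h1 : x ≤ 1) (h : t * x ≤ 1) :
    (1 - x) ^ t ≤ 1 - t * x / 2 := by
  have a1 : 1 + (t : ℝ) * x ≤ (1 + x) ^ t := one_add_mul_le_pow (by linarith) t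
  have a2 : (1 - x) ^ t * (1 + x) ^ t ≤ 1 := by
    rw [← mul_pow]
    exact pow_le_one₀ (by nlinarith) (by nlinarith)
  have a3 : 0 ≤ (1 - x) ^ t := pow_nonneg (by linarith) t
  have a4 : (1 - x) ^ t * (1 + t * x) ≤ 1 := le_trans (by gcongr) a2
  have a5 : 0 ≤ (t : ℝ) * x := by positivity
  by_contra hc
  push Not at hc
  have : (1 - t * x / 2) * (1 + t * x) < (1 - x) ^ t * (1 + t * x) := by gcongr
  nlinarith

lemma hit_card (S : Finset ℕ) (R : ℕ → Prop) [DecidablePred R] (t : ℕ) {x : ℝ} (h0 : 0 ≤ x)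
    (h1 : x ≤ 1) (h : t * x ≤ 1) (hx : x * S.card ≤ (S.filter R).card) :
    (S.card : ℝ) ^ t * (t * x / 2) ≤
      (((Fintype.piFinset fun _ : Fin t => S).filter fun f => ∃ i, R (f i)).card : ℝ) := by
  classical
  have e1 := Finset.card_filter_add_card_filter_not (s := Fintype.piFinset fun _ : Fin t => S)
    (fun f => ∃ i, R (f i))
  have e2 : (Fintype.piFinset fun _ : Fin t => S).filter (fun f => ¬ ∃ i, R (f i)) =
      Fintype.piFinset fun _ : Fin t => S.filter fun a => ¬ R a := by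
    ext f
    simp only [Finset.mem_filter, Fintype.mem_piFinset, not_exists]
    exact ⟨fun h i => ⟨h.1 i, h.2 i⟩, fun h => ⟨fun i => (h i).1, fun i => (h i).2⟩⟩
  rw [e2, Fintype.card_piFinset_const, Fintype.card_piFinset_const] at e1
  have e3 := Finset.card_filter_add_card_filter_not (s := S) R
  have e1' : (((Fintype.piFinset fun _ : Fin t => S).filter fun f => ∃ i, R (f i)).card : ℝ) +
      ((S.filter fun a => ¬ R a).card : ℝ) ^ t = (S.card : ℝ) ^ t := by exact_mod_cast e1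
  have e3' : ((S.filter R).card : ℝ) + ((S.filter fun a => ¬ R a).card : ℝ) = S.card := by
    exact_mod_cast e3
  have b1 : ((S.filter fun a => ¬ R a).card : ℝ) ≤ S.card * (1 - x) := by linarith
  have b2 : ((S.filter fun a => ¬ R a).card : ℝ) ^ t ≤ (S.card : ℝ) ^ t * (1 - t * x / 2) := by
    calc _ ≤ ((S.card : ℝ) * (1 - x)) ^ t := by gcongr
      _ = (S.card : ℝ) ^ t * (1 - x) ^ t := mul_pow _ _ _
      _ ≤ _ := by gcongr; exact one_sub_pow_le h0 h1 h
  nlinarith

lemma exists_select (S T P : Finset ℕ) (hS : S.Nonempty) (hT : T.Nonempty)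
    (R : ℕ → ℕ → Prop) [∀ p, DecidablePred (R p)] (t : ℕ) (x : ℕ → ℝ)
    (h0 : ∀ p ∈ P, 0 ≤ x p) (h1 : ∀ p ∈ P, x p ≤ 1) (h : ∀ p ∈ P, t * x p ≤ 1)
    (hxS : ∀ p ∈ P, x p * S.card ≤ (S.filter (R p)).card)
    (hxT : ∀ p ∈ P, x p * T.card ≤ (T.filter (R p)).card) :
    ∃ A ⊆ S, ∃ B ⊆ T, A.card ≤ t ∧ B.card ≤ t ∧
      ∑ p ∈ P, (t * x p / 2) ^ 2 ≤
        ((P.filter fun p => (∃ a ∈ A, R p a) ∧ ∃ b ∈ B, R p b).card : ℝ) := by
  classical
  set F := Fintype.piFinset fun _ : Fin t => S with hF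
  set H := Fintype.piFinset fun _ : Fin t => T with hH
  have hne : (F ×ˢ H).Nonempty :=
    (Fintype.piFinset_nonempty.2 fun _ => hS).product (Fintype.piFinset_nonempty.2 fun _ => hT)
  have key : ∑ _fg ∈ F ×ˢ H, ∑ p ∈ P, (t * x p / 2) ^ 2 ≤
      ∑ fg ∈ F ×ˢ H, ((P.filter fun p => (∃ i, R p (fg.1 i)) ∧ ∃ i, R p (fg.2 i)).card : ℝ) := by
    have e : ∑ fg ∈ F ×ˢ H,
        ((P.filter fun p => (∃ i, R p (fg.1 i)) ∧ ∃ i, R p (fg.2 i)).card : ℝ) =
        ∑ p ∈ P, ((F.filter fun f => ∃ i, R p (f i)).card : ℝ) *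
          ((H.filter fun f => ∃ i, R p (f i)).card : ℝ) := by
      simp only [Finset.card_filter, Nat.cast_sum, Nat.cast_ite, Nat.cast_one, Nat.cast_zero]
      rw [Finset.sum_comm]
      apply Finset.sum_congr rfl
      intro p _
      rw [Finset.sum_mul_sum, Finset.sum_product]
      apply Finset.sum_congr rfl
      intro f _
      apply Finset.sum_congr rfl
      intro g _
      by_cases a : ∃ i, R p (f i) <;> by_cases b : ∃ i, R p (g i) <;> simp [a, b]
    rw [e, Finset.sum_const, Finset.card_product, nsmul_eq_mul, Finset.mul_sum]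
    apply Finset.sum_le_sum
    intro p hp
    have a := hit_card S (R p) t (h0 p hp) (h1 p hp) (h p hp) (hxS p hp)
    have b := hit_card T (R p) t (h0 p hp) (h1 p hp) (h p hp) (hxT p hp)
    have c : 0 ≤ (t : ℝ) * x p / 2 := by have := h0 p hp; positivity
    rw [hF, hH, Fintype.card_piFinset_const, Fintype.card_piFinset_const]
    push_cast
    calc _ = ((S.card : ℝ) ^ t * (t * x p / 2)) * ((T.card : ℝ) ^ t * (t * x p / 2)) := by ring
      _ ≤ _ := by gcongr
  obtain ⟨fg, hfg, hle⟩ := Finset.exists_le_of_sum_le hne key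
  obtain ⟨hf, hg⟩ := Finset.mem_product.1 hfg
  refine ⟨Finset.univ.image fg.1, ?_, Finset.univ.image fg.2, ?_, ?_, ?_, hle.trans (le_of_eq ?_)⟩
  · intro a ha
    obtain ⟨i, -, rfl⟩ := Finset.mem_image.1 ha
    exact Fintype.mem_piFinset.1 hf i
  · intro a ha
    obtain ⟨i, -, rfl⟩ := Finset.mem_image.1 ha
    exact Fintype.mem_piFinset.1 hg i
  · exact Finset.card_image_le.trans (by simp)
  · exact Finset.card_image_le.trans (by simp)
  · congr 2
    ext p
    simp

end Pool.Agent.Lib.MP_aa636d_nt
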