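import Pool.Agent.Lib.MP_aa636d_nt.PowA

/- Large primes carry the weight; selection of two small sets hit by many primes of one scale. -/

namespace Pool.Agent.Lib.MP_aa636d_nt
open Finset Real

lemma large_weight {n K z s : ℕ} {L : ℝ} (hL : 0 < L) (hn : 1 ≤ n) (hLn : L ≤ Real.log n)
    (hK : 2 ≤ K) (hz : 128 * z * Real.log K ^ 2 ≤ L ^ 2) {S T : Finset ℕ}
    (hS : ∀ x ∈ S, x < K) (hT : ∀ x ∈ T, x < K) (hd : Disjoint S T) (hne : S.Nonempty)
    (he : ∏ x ∈ S, (n + x) = ∏ x ∈ T, (n + x)) (hs : s = max S.card T.card) :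
    L ≤ s * Real.log K ∧ s * L / 2 ≤ ∑ p ∈ (range K).filter (fun p => p.Prime ∧ z < p),
      ((∏ x ∈ S, (n + x)).factorization p : ℝ) * Real.log p := by
  have hlK : 0 < Real.log K := Real.log_pos (by exact_mod_cast hK)
  have hSs : (S.card : ℝ) ≤ s := by exact_mod_cast hs ▸ le_max_left _ _
  have hTs : (T.card : ℝ) ≤ s := by exact_mod_cast hs ▸ le_max_right _ _
  have hA : L ≤ s * Real.log K :=
    hLn.trans ((card_large hn hS hT hd hne he).trans (by gcongr))
  have hs0 : (0 : ℝ) < s := by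
    by_contra h
    have : (s : ℝ) = 0 := le_antisymm (not_lt.1 h) (Nat.cast_nonneg s)
    rw [this] at hA; linarith
  set Q : ℕ := ∏ x ∈ S, (n + x) with hQ
  have htot : s * L ≤ Real.log Q := by
    have h1 := card_mul_log_le hn S
    have h2 := card_mul_log_le hn T
    rw [← he] at h2
    have h3 : (s : ℝ) * Real.log n ≤ Real.log Q := by
      rcases max_choice S.card T.card with h | h <;> rw [hs, h] <;> assumption
    nlinarith
  have hvS : ∀ p, Q.factorization p = ∑ x ∈ S, (n + x).factorization p := fun p =>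
    Nat.factorization_prod_apply fun x _ => by omega
  have hvT : ∀ p, Q.factorization p = ∑ x ∈ T, (n + x).factorization p := fun p => by
    rw [he]; exact Nat.factorization_prod_apply fun x _ => by omega
  set P : Finset ℕ := (range K).filter (fun p => p.Prime) with hP
  have hQP : Real.log Q ≤ ∑ p ∈ P, (Q.factorization p : ℝ) * Real.log p := by
    apply log_le_sum_val
    intro p pp hp
    obtain ⟨x, hx, h1⟩ := (pp.prime.dvd_finsetProd_iff _).1 hp
    rw [he] at hp
    obtain ⟨y, hy, h2⟩ := (pp.prime.dvd_finsetProd_iff _).1 hp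
    have hne : x ≠ y := fun e => Finset.disjoint_left.1 hd hx (e ▸ hy)
    have := Nat.le_of_dvd (Nat.dist_pos_of_ne hne) (dvd_dist h1 h2)
    have := dist_lt (hS x hx) (hT y hy)
    exact Finset.mem_filter.2 ⟨Finset.mem_range.2 (by omega), pp⟩
  rw [← Finset.sum_filter_add_sum_filter_not P (fun p => p ≤ z)] at hQP
  have hsmall : ∑ p ∈ P with p ≤ z, (Q.factorization p : ℝ) * Real.log p ≤ s * L / 2 := by
    set t : ℝ := 8 * s * Real.log K / L with ht
    have ht8 : 8 ≤ t := by rw [ht, le_div_iff₀ hL]; nlinarith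
    have ht0 : 0 < t := by linarith
    have hP' : ∀ p ∈ P.filter (fun p => p ≤ z), p.Prime ∧ p ≤ z := fun p hp =>
      ⟨(Finset.mem_filter.1 (Finset.mem_filter.1 hp).1).2, (Finset.mem_filter.1 hp).2⟩
    have b1 := small_bound (n := n) (by omega : 1 ≤ K) S hS ht0 _ hP'
    have b2 := small_bound (n := n) (by omega : 1 ≤ K) T hT ht0 _ hP'
    have b3 : ∑ p ∈ P with p ≤ z, (Q.factorization p : ℝ) * Real.log p ≤
        ∑ p ∈ P with p ≤ z, (∑ x ∈ S, (cnt K p (n + x) : ℝ)) * Real.log p +
        ∑ p ∈ P with p ≤ z, (∑ x ∈ T, (cnt K p (n + x) : ℝ)) * Real.log p := by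
      rw [← Finset.sum_add_distrib]
      apply Finset.sum_le_sum
      intro p hp
      have pp := (hP' p hp).1
      rw [← add_mul]
      have hlp := log_nat_nonneg p
      gcongr
      have : Q.factorization p ≤ ∑ x ∈ S, cnt K p (n + x) + ∑ x ∈ T, cnt K p (n + x) := by
        rcases side (n := n) (p := p) hS hT hd with h | h
        · rw [hvS]
          exact le_add_right (Finset.sum_le_sum fun x hx => val_le_cnt pp (by omega) (h x hx))
        · rw [hvT]
          exact le_add_left (Finset.sum_le_sum fun x hx => val_le_cnt pp (by omega) (h x hx))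
      exact_mod_cast this
    have c1 : (S.card : ℝ) ^ 2 * Real.log K / t ≤ s * L / 8 := by
      calc _ ≤ (s : ℝ) ^ 2 * Real.log K / t := by gcongr
        _ = _ := by rw [ht]; field_simp
    have c2 : (T.card : ℝ) ^ 2 * Real.log K / t ≤ s * L / 8 := by
      calc _ ≤ (s : ℝ) ^ 2 * Real.log K / t := by gcongr
        _ = _ := by rw [ht]; field_simp
    have c3 : (t + 1) * z * Real.log K ≤ s * L / 8 := by
      calc (t + 1) * z * Real.log K ≤ (2 * t) * z * Real.log K := by gcongr; linarith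
        _ = s * (128 * z * Real.log K ^ 2) / (8 * L) := by rw [ht]; field_simp; ring
        _ ≤ s * L ^ 2 / (8 * L) := by gcongr
        _ = _ := by field_simp
    linarith
  refine ⟨hA, ?_⟩
  have e : P.filter (fun p => ¬ p ≤ z) = (range K).filter (fun p => p.Prime ∧ z < p) := by
    rw [hP, Finset.filter_filter]
    simp only [not_le]
  rw [e] at hQP
  linarith

lemma one_prime {K z x y : ℕ} (hKz : K ≤ z ^ 2) (hx : x < K) (hy : y < K) (hne : x ≠ y)
    {p q : ℕ} (pp : p.Prime) (pq : q.Prime) (hp : z < p) (hq : z < q)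
    (h1 : p ∣ Nat.dist x y) (h2 : q ∣ Nat.dist x y) : p = q := by
  by_contra h
  have hc : Nat.Coprime p q := (Nat.coprime_primes pp pq).2 h
  have := Nat.le_of_dvd (Nat.dist_pos_of_ne hne) (hc.mul_dvd_of_dvd_of_dvd h1 h2)
  have := dist_lt hx hy
  nlinarith

lemma pair_count {n K z : ℕ} (hKz : K ≤ z ^ 2) {S T : Finset ℕ} (hS : ∀ x ∈ S, x < K)
    (hT : ∀ x ∈ T, x < K) (hd : Disjoint S T) (P : Finset ℕ) (hP : ∀ p ∈ P, p.Prime ∧ z < p) :
    ∑ p ∈ P, (S.filter fun x => p ∣ n + x).card * (T.filter fun x => p ∣ n + x).card ≤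
      S.card * T.card := by
  have e : ∑ p ∈ P, (S.filter fun x => p ∣ n + x).card * (T.filter fun x => p ∣ n + x).card =
      ∑ x ∈ S, ∑ y ∈ T, (P.filter fun p => p ∣ n + x ∧ p ∣ n + y).card := by
    simp only [Finset.card_filter]
    rw [Finset.sum_congr rfl fun x _ => Finset.sum_comm, Finset.sum_comm]
    apply Finset.sum_congr rfl
    intro p _
    rw [Finset.sum_mul_sum]
    apply Finset.sum_congr rfl
    intro x _
    apply Finset.sum_congr rfl
    intro y _
    by_cases a : p ∣ n + x <;> by_cases b : p ∣ n + y <;> simp [a, b]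
  rw [e]
  calc _ ≤ ∑ _x ∈ S, ∑ _y ∈ T, 1 := by
        apply Finset.sum_le_sum
        intro x hx
        apply Finset.sum_le_sum
        intro y hy
        rw [Finset.card_le_one]
        intro p hp q hq
        rw [Finset.mem_filter] at hp hq
        have hne : x ≠ y := fun e => Finset.disjoint_left.1 hd hx (e ▸ hy)
        exact one_prime hKz (hS x hx) (hT y hy) hne (hP p hp.1).1 (hP q hq.1).1 (hP p hp.1).2
          (hP q hq.1).2 (dvd_dist hp.2.1 hp.2.2) (dvd_dist hq.2.1 hq.2.2)
    _ = _ := by simp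

def PowBad (V z K n : ℕ) : Finset ℕ :=
  (range K).filter fun p => p.Prime ∧ z < p ∧ ∃ x ∈ range K, p ^ V ∣ n + x

lemma val_le_mul {V K n p : ℕ} (pp : p.Prime) (hn : 1 ≤ n) (h : ∀ x < K, ¬ p ^ V ∣ n + x)
    {Y : Finset ℕ} (hY : ∀ x ∈ Y, x < K) :
    ∑ x ∈ Y, (n + x).factorization p ≤ V * (Y.filter fun x => p ∣ n + x).card := by
  rw [Finset.card_filter, Finset.mul_sum]
  apply Finset.sum_le_sum
  intro x hx
  split_ifs with hd
  · have := h x (hY x hx)
    rw [pp.pow_dvd_iff_le_factorization (by omega)] at this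
    omega
  · rw [Nat.factorization_eq_zero_of_not_dvd hd]; simp

/-- the weight left on primes above `z` without a `V`-th power in the window -/
lemma good_weight {n K z s V J : ℕ} {L : ℝ} (hL : 0 < L) (hn : 1 ≤ n) (hLn : L ≤ Real.log n)
    (hK : 2 ≤ K) (hKz : K ≤ z ^ 2) (hz : 128 * z * Real.log K ^ 2 ≤ L ^ 2) {S T : Finset ℕ}
    (hS : ∀ x ∈ S, x < K) (hT : ∀ x ∈ T, x < K) (hd : Disjoint S T) (hne : S.Nonempty)
    (he : ∏ x ∈ S, (n + x) = ∏ x ∈ T, (n + x)) (hs : s = max S.card T.card)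
    (hJ : (PowBad V z K n).card ≤ J)
    (hJz : 8 * (J * ((K / z + 1 : ℕ) : ℝ)) * Real.log K ^ 2 ≤ L ^ 2) :
    3 * (s * L) / (8 * Real.log K) ≤
      ∑ p ∈ ((range K).filter (fun p => p.Prime ∧ z < p)) \ PowBad V z K n,
        ((∏ x ∈ S, (n + x)).factorization p : ℝ) := by
  obtain ⟨h1, h2⟩ := large_weight hL hn hLn hK hz hS hT hd hne he hs
  have hl : 0 < Real.log K := Real.log_pos (by exact_mod_cast hK)
  set l := Real.log K with hl'
  set Q : ℕ := ∏ x ∈ S, (n + x) with hQ
  set P := (range K).filter (fun p => p.Prime ∧ z < p) with hP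
  have hz0 : 0 < z := by
    rcases Nat.eq_zero_or_pos z with h | h
    · rw [h] at hKz; omega
    · exact h
  have hvS : ∀ p, Q.factorization p = ∑ x ∈ S, (n + x).factorization p := fun p =>
    Nat.factorization_prod_apply fun x _ => by omega
  have hvT : ∀ p, Q.factorization p = ∑ x ∈ T, (n + x).factorization p := fun p => by
    rw [he]; exact Nat.factorization_prod_apply fun x _ => by omega
  have a1 : s * L / 2 ≤ (∑ p ∈ P, (Q.factorization p : ℝ)) * l := by
    refine h2.trans ?_
    rw [Finset.sum_mul]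
    apply Finset.sum_le_sum
    intro p hp
    have := log_nat_mono (Finset.mem_range.1 (Finset.mem_filter.1 hp).1).le
    gcongr
  have hsub : PowBad V z K n ⊆ P := by
    intro p hp
    have := Finset.mem_filter.1 hp
    exact Finset.mem_filter.2 ⟨this.1, this.2.1, this.2.2.1⟩
  have a2 : ∑ p ∈ PowBad V z K n, (Q.factorization p : ℝ) ≤ J * ((K / z + 1 : ℕ) : ℝ) := by
    calc _ ≤ ∑ _p ∈ PowBad V z K n, ((K / z + 1 : ℕ) : ℝ) := by
          apply Finset.sum_le_sum
          intro p hp
          obtain ⟨-, pp, hzp⟩ := Finset.mem_filter.1 (hsub hp)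
          have b : K / p ≤ K / z := Nat.div_le_div_left hzp.le hz0
          have : Q.factorization p ≤ K / z + 1 := by
            rcases side (n := n) (p := p) hS hT hd with h | h
            · have := (val_le_mult pp hn hzp hKz h).trans (card_mult_le pp.pos S hS)
              rw [← hvS] at this; omega
            · have := (val_le_mult pp hn hzp hKz h).trans (card_mult_le pp.pos T hT)
              rw [← hvT] at this; omega
          exact_mod_cast this
      _ ≤ _ := by
          rw [Finset.sum_const, nsmul_eq_mul]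
          gcongr
  have a3 := Finset.sum_sdiff (f := fun p => (Q.factorization p : ℝ)) hsub
  have a4 : J * ((K / z + 1 : ℕ) : ℝ) ≤ s * L / (8 * l) := by
    rw [le_div_iff₀ (by positivity)]
    have : 8 * (J * ((K / z + 1 : ℕ) : ℝ)) * l ^ 2 ≤ (s * l) * L := by nlinarith
    have h0 : (J * ((K / z + 1 : ℕ) : ℝ) * (8 * l)) * l ≤ (s * L) * l := by nlinarith
    exact le_of_mul_le_mul_right h0 hl
  have a5 : s * L / (2 * l) ≤ ∑ p ∈ P, (Q.factorization p : ℝ) := by
    rw [div_le_iff₀ (by positivity)]; linarith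
  have e : 3 * (s * L) / (8 * l) = s * L / (2 * l) - s * L / (8 * l) := by field_simp; ring
  rw [e]
  linarith

def Hit (z i n : ℕ) (A B : Finset ℕ) : Finset ℕ :=
  (Ico (2 ^ i) (2 ^ (i + 1))).filter fun p =>
    p.Prime ∧ z < p ∧ (∃ a ∈ A, p ∣ n + a) ∧ ∃ b ∈ B, p ∣ n + b

lemma capture2 {M K z V J t n : ℕ} (hM : 1 < M) (hK : 2 ≤ K) (hKz : K ≤ z ^ 2)
    (hz : 128 * z * Real.log K ^ 2 ≤ Real.log M ^ 2) (hV : 1 ≤ V) (ht : 1 ≤ t)
    (hJz : 8 * (J * ((K / z + 1 : ℕ) : ℝ)) * Real.log K ^ 2 ≤ Real.log M ^ 2)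
    (htV : 8 * (V * t) * Real.log K ≤ Real.log M)
    (hn : M ≤ n) (hb : Bad K n) (hJ : (PowBad V z K n).card ≤ J) :
    ∃ i ≤ Nat.log 2 K, ∃ A B : Finset ℕ, (∀ x ∈ A, x < K) ∧ (∀ x ∈ B, x < K) ∧ Disjoint A B ∧
      A.card ≤ t ∧ B.card ≤ t ∧
      (t * Real.log M / (8 * V * Real.log K * (Nat.log 2 K + 1))) ^ 2 / 2 ^ i ≤
        (Hit z i n A B).card := by
  classical
  obtain ⟨S, T, hS, hT, hd, hne, he⟩ := hb
  have hL : 0 < Real.log M := Real.log_pos (by exact_mod_cast hM)
  have hl : 0 < Real.log K := Real.log_pos (by exact_mod_cast hK)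
  have hn1 : 1 ≤ n := by omega
  set s := max S.card T.card with hs
  have hg := good_weight hL hn1 (log_nat_mono hn) hK hKz hz hS hT hd hne he hs hJ hJz
  set L := Real.log M with hL'
  set l := Real.log K with hl'
  set Q : ℕ := ∏ x ∈ S, (n + x) with hQ
  set P := ((range K).filter (fun p => p.Prime ∧ z < p)) \ PowBad V z K n with hP
  have hSs : (S.card : ℝ) ≤ s := by exact_mod_cast le_max_left _ _
  have hTs : (T.card : ℝ) ≤ s := by exact_mod_cast le_max_right _ _
  have hs0 : (0 : ℝ) < s := lt_of_lt_of_le (by exact_mod_cast hne.card_pos) hSs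
  have hV0 : (0 : ℝ) < V := by exact_mod_cast hV
  have ht0 : (1 : ℝ) ≤ t := by exact_mod_cast ht
  have hTne : T.Nonempty := by
    rcases T.eq_empty_or_nonempty with h | h
    · exfalso
      obtain ⟨x, hx⟩ := hne
      have h1 : n + x ∣ Q := Finset.dvd_prod_of_mem _ hx
      rw [he, h, Finset.prod_empty] at h1
      have := Nat.le_of_dvd one_pos h1
      omega
    · exact h
  have hvS : ∀ p, Q.factorization p = ∑ x ∈ S, (n + x).factorization p := fun p =>
    Nat.factorization_prod_apply fun x _ => by omega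
  have hvT : ∀ p, Q.factorization p = ∑ x ∈ T, (n + x).factorization p := fun p => by
    rw [he]; exact Nat.factorization_prod_apply fun x _ => by omega
  have hPp : ∀ p ∈ P, p < K ∧ p.Prime ∧ z < p ∧ ∀ x < K, ¬ p ^ V ∣ n + x := by
    intro p hp
    obtain ⟨a, b⟩ := Finset.mem_sdiff.1 hp
    obtain ⟨a1, a2, a3⟩ := Finset.mem_filter.1 a
    refine ⟨Finset.mem_range.1 a1, a2, a3, fun x hx hdv => b ?_⟩
    exact Finset.mem_filter.2 ⟨a1, a2, a3, x, Finset.mem_range.2 hx, hdv⟩
  have nS : ∀ p ∈ P, (Q.factorization p : ℝ) ≤ V * (S.filter fun x => p ∣ n + x).card := by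
    intro p hp
    have := val_le_mul (hPp p hp).2.1 hn1 (hPp p hp).2.2.2 hS
    rw [← hvS] at this
    exact_mod_cast this
  have nT : ∀ p ∈ P, (Q.factorization p : ℝ) ≤ V * (T.filter fun x => p ∣ n + x).card := by
    intro p hp
    have := val_le_mul (hPp p hp).2.1 hn1 (hPp p hp).2.2.2 hT
    rw [← hvT] at this
    exact_mod_cast this
  -- heavy primes
  have hheavy : ∑ p ∈ P.filter (fun p => ¬ (t * (Q.factorization p : ℝ) ≤ V * s)),
      (Q.factorization p : ℝ) ≤ s * L / (8 * l) := by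
    set H := P.filter (fun p => ¬ (t * (Q.factorization p : ℝ) ≤ V * s)) with hH
    have b1 := pair_count (n := n) hKz hS hT hd H fun p hp =>
      ⟨(hPp p (Finset.mem_filter.1 hp).1).2.1, (hPp p (Finset.mem_filter.1 hp).1).2.2.1⟩
    have b2 : ∑ p ∈ H, (((S.filter fun x => p ∣ n + x).card : ℝ) *
        (T.filter fun x => p ∣ n + x).card) ≤ s * s := by
      have : ((∑ p ∈ H, (S.filter fun x => p ∣ n + x).card *
          (T.filter fun x => p ∣ n + x).card : ℕ) : ℝ) ≤ ((S.card * T.card : ℕ) : ℝ) := by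
        exact_mod_cast b1
      push_cast at this
      exact this.trans (by gcongr)
    have b3 : (∑ p ∈ H, (Q.factorization p : ℝ)) * s ≤ V * t * (s * s) := by
      refine le_trans ?_ (mul_le_mul_of_nonneg_left b2 (by positivity))
      rw [Finset.sum_mul, Finset.mul_sum]
      apply Finset.sum_le_sum
      intro p hp
      obtain ⟨hp1, hp2⟩ := Finset.mem_filter.1 hp
      have c1 := nS p hp1
      have c2 := nT p hp1
      push Not at hp2
      have c3 : (s : ℝ) ≤ t * (S.filter fun x => p ∣ n + x).card := by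
        have : V * (s : ℝ) ≤ V * (t * (S.filter fun x => p ∣ n + x).card) := by nlinarith
        exact le_of_mul_le_mul_left this hV0
      calc (Q.factorization p : ℝ) * s ≤ (V * (T.filter fun x => p ∣ n + x).card) *
            (t * (S.filter fun x => p ∣ n + x).card) := by gcongr
        _ = _ := by ring
    have b4 : ∑ p ∈ H, (Q.factorization p : ℝ) ≤ V * t * s := by
      have : (∑ p ∈ H, (Q.factorization p : ℝ)) * s ≤ (V * t * s) * s := by linarith
      exact le_of_mul_le_mul_right this hs0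
    refine b4.trans ?_
    rw [le_div_iff₀ (by positivity)]
    nlinarith
  set Pl := P.filter (fun p => t * (Q.factorization p : ℝ) ≤ V * s) with hPl
  have hlight : s * L / (4 * l) ≤ ∑ p ∈ Pl, (Q.factorization p : ℝ) := by
    have := Finset.sum_filter_add_sum_filter_not P (fun p => t * (Q.factorization p : ℝ) ≤ V * s)
      (fun p => (Q.factorization p : ℝ))
    have e : s * L / (4 * l) = 3 * (s * L) / (8 * l) - s * L / (8 * l) := by field_simp; ring
    rw [e]
    linarith
  -- choice of the scale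
  set Λ := Nat.log 2 K + 1 with hΛ
  have hΛ0 : (0 : ℝ) < Λ := by exact_mod_cast Nat.succ_pos _
  obtain ⟨i, hi, hscale⟩ : ∃ i ∈ range Λ, s * L / (4 * l) / Λ ≤
      ∑ p ∈ Pl.filter (fun p => Nat.log 2 p = i), (Q.factorization p : ℝ) := by
    apply Finset.exists_le_of_sum_le ⟨0, Finset.mem_range.2 (Nat.succ_pos _)⟩
    rw [Finset.sum_fiberwise_of_maps_to (g := fun p => Nat.log 2 p)]
    · rw [Finset.sum_const, Finset.card_range, nsmul_eq_mul, mul_div_cancel₀ _ hΛ0.ne']
      exact hlight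
    · intro p hp
      have := (hPp p (Finset.mem_filter.1 hp).1).1
      exact Finset.mem_range.2 (Nat.lt_succ_iff.2 (Nat.log_mono_right this.le))
  set R := Pl.filter (fun p => Nat.log 2 p = i) with hR
  have hRP : ∀ p ∈ R, p ∈ P ∧ t * (Q.factorization p : ℝ) ≤ V * s ∧
      p ∈ Ico (2 ^ i) (2 ^ (i + 1)) := by
    intro p hp
    obtain ⟨a, b⟩ := Finset.mem_filter.1 hp
    obtain ⟨a1, a2⟩ := Finset.mem_filter.1 a
    refine ⟨a1, a2, Finset.mem_Ico.2 ⟨?_, ?_⟩⟩
    · rw [← b]; exact Nat.pow_log_le_self 2 (hPp p a1).2.1.ne_zero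
    · rw [← b]; exact Nat.lt_pow_succ_log_self (by norm_num) p
  have hRc : (R.card : ℝ) ≤ 2 ^ i := by
    have : R.card ≤ (Ico (2 ^ i) (2 ^ (i + 1))).card :=
      Finset.card_le_card fun p hp => (hRP p hp).2.2
    rw [Nat.card_Ico, pow_succ] at this
    have : R.card ≤ 2 ^ i := by omega
    exact_mod_cast this
  have hx1 : ∀ p ∈ R, t * ((Q.factorization p : ℝ) / (V * s)) ≤ 1 := by
    intro p hp
    rw [← mul_div_assoc, div_le_one (by positivity)]
    exact (hRP p hp).2.1
  obtain ⟨A, hA, B, hB, cA, cB, hsel⟩ := exists_select S T R hne hTne (fun p x => p ∣ n + x) t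
    (fun p => (Q.factorization p : ℝ) / (V * s)) (fun p _ => by positivity)
    (fun p hp => by
      have := hx1 p hp
      have h0 : 0 ≤ (Q.factorization p : ℝ) / (V * s) := by positivity
      nlinarith) hx1
    (fun p hp => by
      have := nS p (hRP p hp).1
      rw [div_mul_eq_mul_div, div_le_iff₀ (by positivity)]
      calc (Q.factorization p : ℝ) * S.card ≤
            (V * (S.filter fun x => p ∣ n + x).card) * s := by gcongr
        _ = _ := by ring)
    (fun p hp => by
      have := nT p (hRP p hp).1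
      rw [div_mul_eq_mul_div, div_le_iff₀ (by positivity)]
      calc (Q.factorization p : ℝ) * T.card ≤
            (V * (T.filter fun x => p ∣ n + x).card) * s := by gcongr
        _ = _ := by ring)
  refine ⟨i, Nat.lt_succ_iff.1 (Finset.mem_range.1 hi), A, B, fun x hx => hS x (hA hx),
    fun x hx => hT x (hB hx), hd.mono hA hB, cA, cB, ?_⟩
  have c1 := sq_sum_le_card_mul_sum_sq (s := R)
    (f := fun p => t * ((Q.factorization p : ℝ) / (V * s)) / 2)
  have c2 : t * L / (8 * V * l * (Nat.log 2 K + 1)) ≤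
      ∑ p ∈ R, t * ((Q.factorization p : ℝ) / (V * s)) / 2 := by
    have e : ∑ p ∈ R, t * ((Q.factorization p : ℝ) / (V * s)) / 2 =
        t / (2 * V * s) * ∑ p ∈ R, (Q.factorization p : ℝ) := by
      rw [Finset.mul_sum]
      apply Finset.sum_congr rfl
      intro p _
      field_simp
    rw [e]
    refine le_trans (le_of_eq ?_) (mul_le_mul_of_nonneg_left hscale (by positivity))
    rw [hΛ]; push_cast; field_simp; ring
  have c3 : ((R.filter fun p => (∃ a ∈ A, p ∣ n + a) ∧ ∃ b ∈ B, p ∣ n + b).card : ℝ) ≤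
      (Hit z i n A B).card := by
    have : (R.filter fun p => (∃ a ∈ A, p ∣ n + a) ∧ ∃ b ∈ B, p ∣ n + b) ⊆ Hit z i n A B := by
      intro p hp
      obtain ⟨a, b⟩ := Finset.mem_filter.1 hp
      exact Finset.mem_filter.2 ⟨(hRP p a).2.2, (hPp p (hRP p a).1).2.1,
        (hPp p (hRP p a).1).2.2.1, b⟩
    exact_mod_cast Finset.card_le_card this
  rw [div_le_iff₀ (by positivity)]
  calc _ ≤ (∑ p ∈ R, t * ((Q.factorization p : ℝ) / (V * s)) / 2) ^ 2 := by gcongr
    _ ≤ R.card * ∑ p ∈ R, (t * ((Q.factorization p : ℝ) / (V * s)) / 2) ^ 2 := c1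
    _ ≤ 2 ^ i * (Hit z i n A B).card := by gcongr; exact hsel.trans c3
    _ = _ := mul_comm _ _

end Pool.Agent.Lib.MP_aa636d_nt
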