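import Pool.Agent.Lib.MP_aa636d_nt.PowB

/- Counting exceptional integers in a dyadic range by the remainder theorem. -/

namespace Pool.Agent.Lib.MP_aa636d_nt
open Finset Real

lemma hit_bound {M K z i j t : ℕ} {μ : ℝ} (hKz : K ≤ z ^ 2) {A B : Finset ℕ}
    (hA : ∀ x ∈ A, x < K) (hB : ∀ x ∈ B, x < K) (hd : Disjoint A B) (cA : A.card ≤ t)
    (cB : B.card ≤ t) (E : Finset ℕ) (hE : ∀ n ∈ E, M ≤ n ∧ n < 2 * M)
    (hμ : 0 < μ) (hH : ∀ n ∈ E, μ ≤ (Hit z i n A B).card) (hj : M ≤ (2 ^ i) ^ j)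
    (hjμ : 2 * (j : ℝ) ≤ μ) : (E.card : ℝ) ≤ (2 * ((t * t : ℕ) : ℝ) / μ) ^ j := by
  classical
  set C : Finset (ℕ × ℕ) := (A ×ˢ B).biUnion fun ab =>
    ((Ico (2 ^ i) (2 ^ (i + 1))).filter fun p => p.Prime ∧ z < p ∧ p ∣ Nat.dist ab.1 ab.2).image
      fun p => (p, ab.1) with hC
  have hCc : C.card ≤ t * t := by
    calc C.card ≤ ∑ ab ∈ A ×ˢ B, _ := Finset.card_biUnion_le
      _ ≤ ∑ _ab ∈ A ×ˢ B, 1 := by
          apply Finset.sum_le_sum
          intro ab hab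
          refine Finset.card_image_le.trans ?_
          rw [Finset.card_le_one]
          intro p hp q hq
          rw [Finset.mem_filter] at hp hq
          obtain ⟨h1, h2⟩ := Finset.mem_product.1 hab
          have hne : ab.1 ≠ ab.2 := fun e => Finset.disjoint_left.1 hd h1 (e ▸ h2)
          exact one_prime hKz (hA _ h1) (hB _ h2) hne hp.2.1 hq.2.1 hp.2.2.1 hq.2.2.1
            hp.2.2.2 hq.2.2.2
      _ ≤ _ := by simpa using Nat.mul_le_mul cA cB
  apply ratio_le (m := ⌈μ⌉₊) hμ (Nat.le_ceil μ) hjμ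
  refine (crt_count C Prod.fst Prod.snd E hE hj ?_).trans (Nat.choose_le_choose j hCc)
  intro n hn
  have hch : ∀ p ∈ Hit z i n A B, ∃ a ∈ A, p ∣ n + a := fun p hp =>
    (Finset.mem_filter.1 hp).2.2.2.1
  choose! a ha using hch
  refine ⟨(Hit z i n A B).image fun p => (p, a p), ?_, ?_, ?_, ?_⟩
  · intro u hu
    obtain ⟨p, hp, rfl⟩ := Finset.mem_image.1 hu
    obtain ⟨h1, h2, h3, -, b, hb, h4⟩ := Finset.mem_filter.1 hp
    exact Finset.mem_biUnion.2 ⟨(a p, b), Finset.mem_product.2 ⟨(ha p hp).1, hb⟩,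
      Finset.mem_image.2 ⟨p, Finset.mem_filter.2 ⟨h1, h2, h3, dvd_dist (ha p hp).2 h4⟩, rfl⟩⟩
  · rw [Finset.card_image_of_injective _ fun p q h => (Prod.ext_iff.1 h).1]
    exact Nat.ceil_le.2 (hH n hn)
  · intro u hu
    obtain ⟨p, hp, rfl⟩ := Finset.mem_image.1 hu
    exact ⟨(Finset.mem_Ico.1 (Finset.mem_filter.1 hp).1).1, (ha p hp).2⟩
  · intro u hu v hv huv
    obtain ⟨p, hp, rfl⟩ := Finset.mem_image.1 hu
    obtain ⟨q, hq, rfl⟩ := Finset.mem_image.1 hv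
    exact (Nat.coprime_primes (Finset.mem_filter.1 hp).2.1 (Finset.mem_filter.1 hq).2.1).2
      fun e => huv (by rw [e])

lemma pow_bound {M K z V j : ℕ} (E : Finset ℕ) (hE : ∀ n ∈ E, M ≤ n ∧ n < 2 * M)
    (hH : ∀ n ∈ E, j ≤ (PowBad V z K n).card) (hj : M ≤ (z ^ V) ^ j) :
    E.card ≤ (K * K) ^ j := by
  classical
  have := crt_count (range K ×ˢ range K) (fun u => u.1 ^ V) Prod.snd E (m := j) hE hj ?_
  · rw [Nat.choose_self, mul_one, Finset.card_product, Finset.card_range] at this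
    exact this.trans (Nat.choose_le_pow _ _)
  intro n hn
  have hch : ∀ p ∈ PowBad V z K n, ∃ a ∈ range K, p ^ V ∣ n + a := fun p hp =>
    (Finset.mem_filter.1 hp).2.2.2
  choose! a ha using hch
  refine ⟨(PowBad V z K n).image fun p => (p, a p), ?_, ?_, ?_, ?_⟩
  · intro u hu
    obtain ⟨p, hp, rfl⟩ := Finset.mem_image.1 hu
    exact Finset.mem_product.2 ⟨(Finset.mem_filter.1 hp).1, (ha p hp).1⟩
  · rw [Finset.card_image_of_injective _ fun p q h => (Prod.ext_iff.1 h).1]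
    exact hH n hn
  · intro u hu
    obtain ⟨p, hp, rfl⟩ := Finset.mem_image.1 hu
    exact ⟨Nat.pow_le_pow_left (Finset.mem_filter.1 hp).2.2.1.le V, (ha p hp).2⟩
  · intro u hu v hv huv
    obtain ⟨p, hp, rfl⟩ := Finset.mem_image.1 hu
    obtain ⟨q, hq, rfl⟩ := Finset.mem_image.1 hv
    exact Nat.Coprime.pow V V
      ((Nat.coprime_primes (Finset.mem_filter.1 hp).2.1 (Finset.mem_filter.1 hq).2.1).2
        fun e => huv (by rw [e]))

lemma core2 {M K z V J t : ℕ} {Bd : ℝ} (hM : 1 < M) (hK : 2 ≤ K) (hKz : K ≤ z ^ 2)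
    (hz : 128 * z * Real.log K ^ 2 ≤ Real.log M ^ 2) (hV : 1 ≤ V) (ht : 1 ≤ t)
    (hJz : 8 * (J * ((K / z + 1 : ℕ) : ℝ)) * Real.log K ^ 2 ≤ Real.log M ^ 2)
    (htV : 8 * (V * t) * Real.log K ≤ Real.log M) (hJ : M ≤ (z ^ V) ^ (J + 1)) (hBd : 0 ≤ Bd)
    (hsc : ∀ i ≤ Nat.log 2 K, z < 2 ^ (i + 1) → ∃ j : ℕ, M ≤ (2 ^ i) ^ j ∧
      2 * (j : ℝ) ≤ (t * Real.log M / (8 * V * Real.log K * (Nat.log 2 K + 1))) ^ 2 / 2 ^ i ∧
      (2 * ((t * t : ℕ) : ℝ) /
        ((t * Real.log M / (8 * V * Real.log K * (Nat.log 2 K + 1))) ^ 2 / 2 ^ i)) ^ j ≤ Bd)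
    (E : Finset ℕ) (hE : ∀ n ∈ E, M ≤ n ∧ n < 2 * M ∧ Bad K n) :
    (E.card : ℝ) ≤ ((K * K) ^ (J + 1) : ℕ) +
      (Nat.log 2 K + 1) * ((((t + 1) * K ^ t : ℕ) : ℝ) ^ 2 * Bd) := by
  classical
  have hL : 0 < Real.log M := Real.log_pos (by exact_mod_cast hM)
  have hl : 0 < Real.log K := Real.log_pos (by exact_mod_cast hK)
  have hV0 : (0 : ℝ) < V := by exact_mod_cast hV
  have ht0 : (0 : ℝ) < t := by exact_mod_cast ht
  set μ : ℕ → ℝ := fun i =>
    (t * Real.log M / (8 * V * Real.log K * (Nat.log 2 K + 1))) ^ 2 / 2 ^ i with hμ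
  have hμ0 : ∀ i, 0 < μ i := fun i => by simp only [hμ]; positivity
  set Pw := (range K).powerset.filter fun A => A.card ≤ t with hPw
  set E₀ := E.filter fun n => J + 1 ≤ (PowBad V z K n).card with hE₀
  set F : ℕ × Finset ℕ × Finset ℕ → Finset ℕ := fun w => E.filter fun n =>
    Disjoint w.2.1 w.2.2 ∧ μ w.1 ≤ (Hit z w.1 n w.2.1 w.2.2).card with hF
  set I := range (Nat.log 2 K + 1) ×ˢ Pw ×ˢ Pw with hI
  have hsub : E ⊆ E₀ ∪ I.biUnion F := by
    intro n hn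
    rw [Finset.mem_union]
    by_cases h : J + 1 ≤ (PowBad V z K n).card
    · exact Or.inl (Finset.mem_filter.2 ⟨hn, h⟩)
    right
    obtain ⟨i, hi, A, B, hA, hB, hd, cA, cB, hH⟩ :=
      capture2 hM hK hKz hz hV ht hJz htV (hE n hn).1 (hE n hn).2.2 (by omega)
    rw [Finset.mem_biUnion]
    refine ⟨(i, A, B), Finset.mem_product.2 ⟨Finset.mem_range.2 (Nat.lt_succ_iff.2 hi),
      Finset.mem_product.2 ⟨?_, ?_⟩⟩, Finset.mem_filter.2 ⟨hn, hd, hH⟩⟩
    · exact Finset.mem_filter.2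
        ⟨Finset.mem_powerset.2 fun x hx => Finset.mem_range.2 (hA x hx), cA⟩
    · exact Finset.mem_filter.2
        ⟨Finset.mem_powerset.2 fun x hx => Finset.mem_range.2 (hB x hx), cB⟩
  have h0 : E₀.card ≤ (K * K) ^ (J + 1) :=
    pow_bound E₀ (fun n hn => ⟨(hE n (Finset.mem_filter.1 hn).1).1,
      (hE n (Finset.mem_filter.1 hn).1).2.1⟩) (fun n hn => (Finset.mem_filter.1 hn).2) hJ
  have hone : ∀ w ∈ I, ((F w).card : ℝ) ≤ Bd := by
    intro w hw
    rcases (F w).eq_empty_or_nonempty with h | ⟨n, hn⟩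
    · rw [h]; simpa using hBd
    have hn' := (Finset.mem_filter.1 hn).2
    obtain ⟨w1, w2⟩ := Finset.mem_product.1 hw
    have a1 := Finset.mem_filter.1 (Finset.mem_product.1 w2).1
    have a2 := Finset.mem_filter.1 (Finset.mem_product.1 w2).2
    have hzi : z < 2 ^ (w.1 + 1) := by
      have : 0 < (Hit z w.1 n w.2.1 w.2.2).card := by
        have := (hμ0 w.1).trans_le hn'.2
        exact_mod_cast this
      obtain ⟨p, hp⟩ := Finset.card_pos.1 this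
      obtain ⟨b1, -, b2, -⟩ := Finset.mem_filter.1 hp
      exact b2.trans (Finset.mem_Ico.1 b1).2
    obtain ⟨j, j1, j2, j3⟩ := hsc w.1 (Nat.lt_succ_iff.1 (Finset.mem_range.1 w1)) hzi
    exact (hit_bound hKz (fun x hx => Finset.mem_range.1 (Finset.mem_powerset.1 a1.1 hx))
      (fun x hx => Finset.mem_range.1 (Finset.mem_powerset.1 a2.1 hx)) hn'.1 a1.2 a2.2 (F w)
      (fun m hm => ⟨(hE m (Finset.mem_filter.1 hm).1).1, (hE m (Finset.mem_filter.1 hm).1).2.1⟩)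
      (hμ0 w.1) (fun m hm => (Finset.mem_filter.1 hm).2.2) j1 j2).trans j3
  have hPc : (Pw.card : ℝ) ≤ ((t + 1) * K ^ t : ℕ) := by
    exact_mod_cast card_small_subsets K t (by omega)
  calc (E.card : ℝ) ≤ ((E₀ ∪ I.biUnion F).card : ℝ) := by
        exact_mod_cast Finset.card_le_card hsub
    _ ≤ (E₀.card : ℝ) + ∑ w ∈ I, ((F w).card : ℝ) := by
        exact_mod_cast (Finset.card_union_le _ _).trans
          (Nat.add_le_add_left Finset.card_biUnion_le _)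
    _ ≤ ((K * K) ^ (J + 1) : ℕ) + ∑ _w ∈ I, Bd := by
        gcongr with w hw
        exact hone w hw
    _ = ((K * K) ^ (J + 1) : ℕ) + (Nat.log 2 K + 1) * ((Pw.card : ℝ) ^ 2 * Bd) := by
        rw [Finset.sum_const, hI, Finset.card_product, Finset.card_product, Finset.card_range,
          nsmul_eq_mul]
        push_cast; ring
    _ ≤ _ := by gcongr

end Pool.Agent.Lib.MP_aa636d_nt
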