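import Pool.Agent.Lib.MP_aa636d_nt.PowC

/- Choice of the parameters for the power bound. -/

namespace Pool.Agent.Lib.MP_aa636d_nt
open Finset Real Filter

lemma scale_exp {L l a b κ Y β : ℝ} {j : ℕ} (hL : 1 ≤ L) (hY : 0 < Y) (h1 : 1 ≤ Real.log Y)
    (h2 : Real.log Y ≤ b * Real.log L) (h3 : Real.log Y ≤ l) (ha : 0 ≤ a) (hb : 0 < b)
    (hκ : 1 - a / b ≤ κ) (hκ0 : 0 ≤ κ) (hj : (j : ℝ) ≤ L / Real.log Y + 1) (hβ0 : 0 ≤ β)
    (hβ : β ≤ Y * L ^ (-a)) : β ^ j ≤ Real.exp (κ * L + l) := by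
  set y := Real.log Y with hy
  have hlL : 0 ≤ Real.log L := Real.log_nonneg hL
  have e : Y * L ^ (-a) = Real.exp (y - a * Real.log L) := by
    rw [Real.rpow_def_of_pos (by linarith), Real.exp_sub, hy, Real.exp_log hY, mul_neg,
      Real.exp_neg, mul_comm (Real.log L) a, div_eq_mul_inv]
  rw [e] at hβ
  calc β ^ j ≤ Real.exp (y - a * Real.log L) ^ j := by gcongr
    _ = Real.exp (j * (y - a * Real.log L)) := by rw [← Real.exp_nat_mul]
    _ ≤ _ := Real.exp_le_exp.2 ?_
  have hj0 : (0 : ℝ) ≤ j := Nat.cast_nonneg j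
  rcases le_total (y - a * Real.log L) 0 with h | h
  · have : (j : ℝ) * (y - a * Real.log L) ≤ 0 := mul_nonpos_of_nonneg_of_nonpos hj0 h
    have : 0 ≤ κ * L := by positivity
    linarith
  · have b1 : (j : ℝ) * (y - a * Real.log L) ≤ (L / y + 1) * (y - a * Real.log L) := by gcongr
    have b2 : (y - a * Real.log L) / y ≤ κ := by
      rw [div_le_iff₀ (by linarith)]
      have c1 : a / b * y ≤ a * Real.log L := by
        rw [div_mul_eq_mul_div, div_le_iff₀ hb]
        nlinarith
      nlinarith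
    have b3 : (L / y + 1) * (y - a * Real.log L) =
        (y - a * Real.log L) / y * L + (y - a * Real.log L) := by ring
    have b4 : (y - a * Real.log L) / y * L ≤ κ * L := by gcongr
    have b5 : 0 ≤ a * Real.log L := by positivity
    linarith

lemma le_pow_ceil {M y : ℕ} (hM : 0 < M) (hy : 1 < y) :
    M ≤ y ^ ⌈Real.log M / Real.log y⌉₊ := by
  have hl : 0 < Real.log y := Real.log_pos (by exact_mod_cast hy)
  have h1 := Nat.le_ceil (Real.log M / Real.log y)
  rw [div_le_iff₀ hl, ← Real.log_pow] at h1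
  have h2 : (M : ℝ) ≤ (y : ℝ) ^ ⌈Real.log M / Real.log y⌉₊ :=
    (Real.log_le_log_iff (by exact_mod_cast hM) (by positivity)).1 h1
  exact_mod_cast h2

lemma dyadic2 {c θ : ℝ} (hc : 2 ≤ c) (hc' : c < 3) (hθ : 1 - 2 / c < θ) :
    ∀ᶠ L : ℝ in atTop, ∀ M : ℕ, Real.log M = L → ∀ E : Finset ℕ,
      (∀ n ∈ E, M ≤ n ∧ n < 2 * M ∧ Bad ⌈(2 * L) ^ c⌉₊ n) → (E.card : ℝ) ≤ Real.exp (θ * L) := by
  set ε := (θ - (1 - 2 / c)) / 4 with hε
  have ε0 : 0 < ε := by rw [hε]; linarith
  have c0 : 0 ≤ 1 - 2 / c := by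
    rw [sub_nonneg, div_le_one (by linarith)]; exact hc
  obtain ⟨δ, hδ, d1, d2⟩ : ∃ δ : ℝ, 0 < δ ∧ 5 * δ ≤ ε ∧ c + 7 * δ < 3 := by
    refine ⟨min ε (3 - c) / 8, ?_, ?_, ?_⟩
    · have : 0 < min ε (3 - c) := lt_min ε0 (by linarith)
      linarith
    · have := min_le_left ε (3 - c); linarith
    · have := min_le_right ε (3 - c); linarith
  obtain ⟨V, hV⟩ := exists_nat_ge (max (4 / ε) 1)
  have V1 : (1 : ℝ) ≤ V := (le_max_right _ _).trans hV
  have V2 : 4 / V ≤ ε := by
    have := (le_max_left _ _).trans hV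
    rw [div_le_iff₀ ε0] at this
    rw [div_le_iff₀ (by linarith)]
    linarith
  have hV1 : 1 ≤ V := by exact_mod_cast V1
  filter_upwards [ev_log hδ, eventually_ge_atTop 16,
    ev_le (16 * 256 ^ 2) (by linarith : c + 4 * δ < 4),
    ev_le (16 * V) (by linarith : δ < 1),
    ev_le (16 * 4097) (by linarith : c - 1 + 4 * δ < 2),
    ev_le (64 * 384 ^ 2 * V ^ 4) (by linarith : c + 1 + 6 * δ < 4),
    ev_le (1152 * V ^ 2) (by linarith : 4 * δ < 5 * δ),
    ev_le (5 / ε) (by linarith : δ < 1),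
    ev_le 16 hδ, ev_le 256 (by linarith : 2 * δ < 2)] with L e1 e2 e3 e4 e5 e6 e7 e8 e9 e10
  intro M hM E hE
  have hL : 0 < L := by linarith
  have hL1 : 1 ≤ L := by linarith
  have hM1 : 1 < M := by
    by_contra h
    have : M = 0 ∨ M = 1 := by omega
    rcases this with h | h <;> simp [h] at hM <;> linarith
  set K := ⌈(2 * L) ^ c⌉₊ with hKdef
  have k1 : 2 * L ≤ (2 * L) ^ c := by
    calc 2 * L = (2 * L) ^ (1 : ℝ) := by simp
      _ ≤ _ := Real.rpow_le_rpow_of_exponent_le (by linarith) (by linarith)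
  have k2 : 2 * L ≤ K := k1.trans (Nat.le_ceil _)
  have k3 : (K : ℝ) ≤ 16 * L ^ c := by
    have h1 : (K : ℝ) ≤ (2 * L) ^ c + 1 := (Nat.ceil_lt_add_one (by positivity)).le
    have h2 : (2 * L) ^ c ≤ 8 * L ^ c := by
      rw [Real.mul_rpow (by norm_num) hL.le]
      have : (2 : ℝ) ^ c ≤ 2 ^ (3 : ℝ) := Real.rpow_le_rpow_of_exponent_le (by norm_num) (by linarith)
      have e : (2 : ℝ) ^ (3 : ℝ) = 8 := by norm_num
      rw [e] at this
      gcongr
    have h3 : 1 ≤ L ^ c := Real.one_le_rpow hL1 (by linarith)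
    linarith
  have hK32 : (32 : ℝ) ≤ K := by linarith
  have hK2 : 2 ≤ K := by
    have : (2 : ℝ) ≤ K := by linarith
    exact_mod_cast this
  set l := Real.log K with hl
  have l2 : (1 : ℝ) / 2 < Real.log 2 := by linarith [Real.log_two_gt_d9]
  have l2' : Real.log 2 < 0.7 := by linarith [Real.log_two_lt_d9]
  have hl3 : 5 * Real.log 2 ≤ l := by
    have := Real.log_le_log (by norm_num) hK32
    rw [show (32 : ℝ) = 2 ^ 5 by norm_num, Real.log_pow] at this
    exact_mod_cast this
  have hl1 : 1 ≤ l := by linarith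
  set d := L ^ δ with hd
  have hl2 : l ≤ d := by
    refine le_trans (Real.log_le_log (by linarith) (k3.trans ?_)) e1
    exact mul_le_mul_of_nonneg_left
      (Real.rpow_le_rpow_of_exponent_le hL1 (by linarith)) (by norm_num)
  have d0 : 1 ≤ d := hl1.trans hl2
  have pw : ∀ (a : ℝ) (k : ℕ), L ^ (a + k * δ) = L ^ a * d ^ k := fun a k => by
    rw [Real.rpow_add hL, mul_comm (k : ℝ) δ, Real.rpow_mul hL.le, Real.rpow_natCast]
  have pw0 : ∀ k : ℕ, L ^ (k * δ) = d ^ k := fun k => by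
    rw [mul_comm (k : ℝ) δ, Real.rpow_mul hL.le, Real.rpow_natCast]
  have f3 : 16 * 256 ^ 2 * (L ^ c * d ^ 4) ≤ L ^ 4 := by
    have := pw c 4
    rw [show ((4 : ℕ) : ℝ) = 4 by norm_num] at this
    rw [this] at e3
    exact e3.trans (le_of_eq (by rw [← Real.rpow_natCast]; norm_num))
  have f4 : 16 * V * d ≤ L := by simpa using e4
  have f5 : 16 * 4097 * (L ^ c * d ^ 4) ≤ L ^ 3 := by
    have := pw (c - 1) 4
    rw [show ((4 : ℕ) : ℝ) = 4 by norm_num, Real.rpow_sub_one hL.ne'] at this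
    rw [this, Real.rpow_two] at e5
    have h : 16 * 4097 * (L ^ c / L * d ^ 4) * L ≤ L ^ 2 * L := by gcongr
    calc _ = 16 * 4097 * (L ^ c / L * d ^ 4) * L := by field_simp
      _ ≤ _ := h
      _ = _ := by ring
  have f6 : 64 * 384 ^ 2 * V ^ 4 * (L ^ c * L * d ^ 6) ≤ L ^ 4 := by
    have := pw (c + 1) 6
    rw [show ((6 : ℕ) : ℝ) = 6 by norm_num, Real.rpow_add_one hL.ne'] at this
    rw [this] at e6
    exact e6.trans (le_of_eq (by rw [← Real.rpow_natCast]; norm_num))
  have f7 : 1152 * V ^ 2 * d ^ 4 ≤ L ^ (5 * δ) := by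
    have := pw0 4
    rw [show ((4 : ℕ) : ℝ) = 4 by norm_num] at this
    rwa [this] at e7
  have f8 : 5 * d ≤ ε * L := by
    rw [Real.rpow_one, div_mul_eq_mul_div, div_le_iff₀ ε0] at e8
    linarith
  have f9 : 16 ≤ d := by simpa using e9
  have f10 : 256 * d ^ 2 ≤ L ^ 2 := by
    have := pw0 2
    rw [show ((2 : ℕ) : ℝ) = 2 by norm_num] at this
    rwa [this, Real.rpow_two] at e10
  have Lc : 0 < L ^ c := by positivity
  -- the cut `z`
  set z := ⌊L ^ 2 / (128 * l ^ 2)⌋₊ with hz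
  have z1 : (z : ℝ) ≤ L ^ 2 / (128 * l ^ 2) := Nat.floor_le (by positivity)
  have z2 : L ^ 2 / (256 * d ^ 2) ≤ z := by
    have h1 : L ^ 2 / (128 * l ^ 2) < z + 1 := Nat.lt_floor_add_one _
    have h2 : L ^ 2 / (128 * d ^ 2) ≤ L ^ 2 / (128 * l ^ 2) := by gcongr
    have h3 : 1 ≤ L ^ 2 / (256 * d ^ 2) := by rw [le_div_iff₀ (by positivity)]; linarith
    have h4 : L ^ 2 / (128 * d ^ 2) = 2 * (L ^ 2 / (256 * d ^ 2)) := by field_simp; ring
    linarith
  have z3 : 128 * z * l ^ 2 ≤ L ^ 2 := by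
    rw [le_div_iff₀ (by positivity)] at z1; linarith
  have z4' : (K : ℝ) ≤ (z : ℝ) ^ 2 := by
    calc (K : ℝ) ≤ 16 * L ^ c := k3
      _ ≤ (L ^ 2 / (256 * d ^ 2)) ^ 2 := by
          rw [div_pow, le_div_iff₀ (by positivity)]
          calc _ = 16 * 256 ^ 2 * (L ^ c * d ^ 4) := by ring
            _ ≤ _ := f3
            _ = _ := by ring
      _ ≤ _ := by gcongr
  have z4 : K ≤ z ^ 2 := by exact_mod_cast z4'
  have z5 : 1 < z := by
    by_contra h
    have : z = 0 ∨ z = 1 := by omega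
    rcases this with h | h <;> rw [h] at z4 <;> omega
  have z0 : (0 : ℝ) < z := by exact_mod_cast (by omega : 0 < z)
  have z6 : l ≤ 2 * Real.log z := by
    have := log_nat_mono z4
    rw [Nat.cast_pow, Real.log_pow] at this
    exact_mod_cast this
  -- the number `t` of selected points
  set t := ⌊L / (8 * V * l)⌋₊ with ht
  have t1 : (t : ℝ) ≤ L / (8 * V * l) := Nat.floor_le (by positivity)
  have t2 : L / (16 * V * d) ≤ t := by
    have h1 : L / (8 * V * l) < t + 1 := Nat.lt_floor_add_one _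
    have h2 : L / (8 * V * d) ≤ L / (8 * V * l) := by gcongr
    have h3 : 1 ≤ L / (16 * V * d) := by rw [le_div_iff₀ (by positivity), one_mul]; exact f4
    have h4 : L / (8 * V * d) = 2 * (L / (16 * V * d)) := by field_simp; ring
    linarith
  have t3 : 8 * (V * t) * l ≤ L := by
    rw [le_div_iff₀ (by positivity)] at t1; linarith
  have t4' : (1 : ℝ) ≤ t := le_trans (by rw [le_div_iff₀ (by positivity), one_mul]; exact f4) t2
  have t4 : 1 ≤ t := by exact_mod_cast t4'
  -- the number of primes with a high power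
  have zV : 1 < z ^ V := Nat.one_lt_pow (by omega) z5
  set J := ⌈Real.log M / Real.log (z ^ V : ℕ)⌉₊ with hJ
  have J1 : M ≤ (z ^ V) ^ (J + 1) :=
    (le_pow_ceil (by omega) zV).trans (Nat.pow_le_pow_right (by omega) (Nat.le_succ _))
  have J2 : (J : ℝ) ≤ 2 * L / (V * l) + 1 := by
    have h1 := (Nat.ceil_lt_add_one (by
      have := log_nat_nonneg M
      have := log_nat_nonneg (z ^ V)
      positivity : 0 ≤ Real.log M / Real.log (z ^ V : ℕ))).le
    refine h1.trans ?_
    rw [hM, Nat.cast_pow, Real.log_pow]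
    have : L / (V * Real.log z) ≤ L / (V * (l / 2)) :=
      div_le_div_of_nonneg_left hL.le (by positivity)
        (mul_le_mul_of_nonneg_left (by linarith) (by positivity))
    have e : L / (V * (l / 2)) = 2 * L / (V * l) := by field_simp
    linarith
  have J3 : (J : ℝ) ≤ 2 * L := by
    have : 2 * L / (V * l) ≤ 2 * L / (1 * 2) :=
      div_le_div_of_nonneg_left (by positivity) (by norm_num)
        (mul_le_mul V1 (by linarith) (by norm_num) (by positivity))
    linarith
  have J4 : 8 * (J * ((K / z + 1 : ℕ) : ℝ)) * l ^ 2 ≤ L ^ 2 := by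
    have h1 : ((K / z : ℕ) : ℝ) ≤ K / z := Nat.cast_div_le
    have h2 : (K : ℝ) / z ≤ 4096 * (L ^ c * d ^ 2 / L ^ 2) := by
      calc (K : ℝ) / z ≤ 16 * L ^ c / (L ^ 2 / (256 * d ^ 2)) := by gcongr
        _ = _ := by field_simp; ring
    have h3 : 1 ≤ L ^ c * d ^ 2 / L ^ 2 := by
      rw [le_div_iff₀ (by positivity)]
      have : L ^ 2 ≤ L ^ c := by
        rw [← Real.rpow_two]; exact Real.rpow_le_rpow_of_exponent_le hL1 hc
      calc 1 * L ^ 2 ≤ d ^ 2 * L ^ c := mul_le_mul (one_le_pow₀ d0) this (by positivity) (by positivity)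
        _ = _ := mul_comm _ _
    have h4 : ((K / z + 1 : ℕ) : ℝ) ≤ 4097 * (L ^ c * d ^ 2 / L ^ 2) := by push_cast; linarith
    calc _ ≤ 8 * (2 * L * (4097 * (L ^ c * d ^ 2 / L ^ 2))) * d ^ 2 := by gcongr
      _ = 16 * 4097 * (L ^ c * d ^ 4) / L := by field_simp; ring
      _ ≤ L ^ 3 / L := by gcongr
      _ = _ := by field_simp
  have Λ1 : (Nat.log 2 K : ℝ) + 1 ≤ 3 * d := by
    have := log_nat_mono (Nat.pow_log_le_self 2 (by omega : K ≠ 0))
    push_cast at this
    rw [Real.log_pow] at this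
    have h0 : (0 : ℝ) ≤ Nat.log 2 K := Nat.cast_nonneg _
    have h1 : (Nat.log 2 K : ℝ) * (1 / 2) ≤ Nat.log 2 K * Real.log 2 :=
      mul_le_mul_of_nonneg_left l2.le h0
    rw [← hl] at this
    linarith only [this, h1, hl2, d0]
  have Λ0 : (0 : ℝ) < (Nat.log 2 K : ℝ) + 1 := by positivity
  have hcore := core2 (M := M) (K := K) (z := z) (V := V) (J := J) (t := t)
    (Bd := Real.exp ((1 - 2 / c + ε) * L + l)) hM1 hK2 z4 (by rw [hM]; exact z3) hV1 t4
    (by rw [hM]; exact J4) (by rw [hM]; exact t3) J1 (by positivity) ?_ E hE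
  · refine hcore.trans ?_
    have eK : (K : ℝ) = Real.exp l := (Real.exp_log (by linarith)).symm
    have g1 : (((K * K) ^ (J + 1) : ℕ) : ℝ) ≤ Real.exp (ε * L + 4 * d) := by
      push_cast
      rw [eK, ← Real.exp_add, ← Real.exp_nat_mul]
      apply Real.exp_le_exp.2
      push_cast
      have h1 : (J + 1) * (l + l) ≤ (2 * L / (V * l) + 2) * (l + l) :=
        mul_le_mul_of_nonneg_right (by linarith) (by linarith)
      have h2 : (2 * L / (V * l) + 2) * (l + l) = 4 / V * L + 4 * l := by field_simp; ring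
      have h3 : 4 / V * L ≤ ε * L := by gcongr
      linarith
    have g2 : ((K : ℝ) ^ t) ^ 2 ≤ Real.exp (ε * L) := by
      rw [eK, ← Real.exp_nat_mul, ← Real.exp_nat_mul]
      apply Real.exp_le_exp.2
      have h1 : 4 / V * L ≤ ε * L := by gcongr
      have h2 : (2 : ℝ) * (t * l) ≤ 4 / V * L := by
        rw [div_mul_eq_mul_div, le_div_iff₀ (by linarith)]
        have : 0 ≤ (V : ℝ) * t * l := by positivity
        linarith
      push_cast
      linarith
    have g3 : ((Nat.log 2 K : ℝ) + 1) * (t + 1) ^ 2 ≤ Real.exp d := by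
      have h1 : (t : ℝ) + 1 ≤ 2 * L := by
        have : (t : ℝ) ≤ L := by
          have h5 : 1 * 1 ≤ (V : ℝ) * l := mul_le_mul V1 hl1 (by norm_num) (by positivity)
          have h6 : 1 * 1 * (t : ℝ) ≤ V * l * t := mul_le_mul_of_nonneg_right h5 (by positivity)
          linarith
        linarith
      have h2 : d ≤ L := by
        have : 1 * d ≤ V * d := mul_le_mul_of_nonneg_right V1 (by positivity)
        linarith only [this, f4, d0]
      calc _ ≤ 3 * L * (2 * L) ^ 2 :=
            mul_le_mul (by linarith) (pow_le_pow_left₀ (by positivity) h1 2) (by positivity)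
              (by positivity)
        _ ≤ 16 * L ^ (3 : ℝ) := by
            rw [show L ^ (3 : ℝ) = L ^ 3 by rw [← Real.rpow_natCast]; norm_num]
            have : 0 < L ^ 3 := by positivity
            linarith [show 3 * L * (2 * L) ^ 2 = 12 * L ^ 3 by ring]
        _ ≤ _ := by
            rw [← Real.exp_log (by positivity : 0 < 16 * L ^ (3 : ℝ))]
            exact Real.exp_le_exp.2 e1
    have g4 : (Nat.log 2 K + 1) * ((((t + 1) * K ^ t : ℕ) : ℝ) ^ 2 *
        Real.exp ((1 - 2 / c + ε) * L + l)) ≤ Real.exp ((1 - 2 / c + 2 * ε) * L + 4 * d) := by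
      calc _ = (((Nat.log 2 K : ℝ) + 1) * (t + 1) ^ 2) * ((K : ℝ) ^ t) ^ 2 *
            Real.exp ((1 - 2 / c + ε) * L + l) := by push_cast; ring
        _ ≤ Real.exp d * Real.exp (ε * L) * Real.exp ((1 - 2 / c + ε) * L + l) := by gcongr
        _ ≤ _ := by
            rw [← Real.exp_add, ← Real.exp_add]
            apply Real.exp_le_exp.2
            linarith only [hl2, d0]
    have g5 : Real.exp (ε * L + 4 * d) ≤ Real.exp ((1 - 2 / c + 2 * ε) * L + 4 * d) := by
      apply Real.exp_le_exp.2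
      have h1 : 0 ≤ (1 - 2 / c) * L := by positivity
      have h2 : 0 ≤ ε * L := by positivity
      linarith only [h1, h2]
    have g6 : 2 ≤ Real.exp d := by linarith only [Real.add_one_le_exp d, d0]
    calc _ ≤ 2 * Real.exp ((1 - 2 / c + 2 * ε) * L + 4 * d) := by linarith
      _ ≤ Real.exp d * Real.exp ((1 - 2 / c + 2 * ε) * L + 4 * d) := by gcongr
      _ ≤ _ := by
          rw [← Real.exp_add]
          apply Real.exp_le_exp.2
          have : θ = 1 - 2 / c + 4 * ε := by rw [hε]; ring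
          rw [this]
          have h2 : 0 ≤ ε * L := by positivity
          linarith only [h2, f8]
  · intro i hi hzi
    rw [hM, ← hl]
    have y1 : 2 ^ i ≤ K :=
      (Nat.pow_le_pow_right (by norm_num) hi).trans (Nat.pow_log_le_self 2 (by omega))
    have y1' : (2 : ℝ) ^ i ≤ K := by exact_mod_cast y1
    have y2 : Real.log ((2 ^ i : ℕ) : ℝ) ≤ l := log_nat_mono y1
    have y3 : 1 ≤ Real.log ((2 ^ i : ℕ) : ℝ) := by
      have h1 := log_nat_mono hzi.le
      rw [pow_succ, Nat.cast_mul, Real.log_mul (by positivity) (by norm_num)] at h1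
      have h2 : Real.log ((2 : ℕ) : ℝ) = Real.log 2 := by norm_num
      rw [h2] at h1
      have h3 : Real.log 2 > 0.69 := by linarith [Real.log_two_gt_d9]
      linarith
    have y4 : 1 < 2 ^ i := by
      by_contra h
      have : 2 ^ i = 1 := by have := Nat.two_pow_pos i; omega
      rw [this] at y3
      norm_num at y3
    have y5 : l ≤ (c + δ) * Real.log L := by
      have h1 : (K : ℝ) ≤ L ^ (c + δ) := by
        rw [Real.rpow_add hL]
        refine k3.trans ?_
        rw [mul_comm]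
        gcongr
      have := Real.log_le_log (by linarith) h1
      rwa [Real.log_rpow hL] at this
    set j := ⌈Real.log M / Real.log (2 ^ i : ℕ)⌉₊ with hj
    have j1 : (j : ℝ) ≤ L / Real.log (2 ^ i : ℕ) + 1 := by
      rw [hj, hM]
      exact (Nat.ceil_lt_add_one (by positivity)).le
    refine ⟨j, le_pow_ceil (by omega) y4, ?_, ?_⟩
    · have h1 : (j : ℝ) ≤ 2 * L := by
        have : L / Real.log (2 ^ i : ℕ) ≤ L / 1 := by gcongr
        linarith
      calc 2 * (j : ℝ) ≤ 4 * L := by linarith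
        _ ≤ (L / (16 * V * d) * L / (8 * V * d * (3 * d))) ^ 2 / (16 * L ^ c) := by
            have e : (L / (16 * V * d) * L / (8 * V * d * (3 * d))) ^ 2 / (16 * L ^ c) =
                L ^ 4 / (16 * 384 ^ 2 * V ^ 4 * (L ^ c * d ^ 6)) := by field_simp; ring
            rw [e, le_div_iff₀ (by positivity)]
            refine le_trans (le_of_eq ?_) f6
            ring
        _ ≤ _ := by gcongr; exact y1'.trans k3
    · apply scale_exp (a := 2 - 5 * δ) (b := c + δ) (Y := ((2 ^ i : ℕ) : ℝ)) hL1 (by positivity)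
        y3 (y2.trans y5) y2 (by linarith) (by linarith) _ (by linarith) j1 (by positivity)
      · have e : 2 * ((t * t : ℕ) : ℝ) /
            ((t * L / (8 * V * l * (Nat.log 2 K + 1))) ^ 2 / 2 ^ i) =
            2 ^ i * (2 * (8 * V * l * (Nat.log 2 K + 1)) ^ 2 / L ^ 2) := by
          push_cast; field_simp
        rw [e]
        push_cast
        gcongr
        rw [neg_sub, Real.rpow_sub hL, Real.rpow_two]
        gcongr
        calc _ ≤ 2 * (8 * V * d * (3 * d)) ^ 2 := by gcongr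
          _ = 1152 * V ^ 2 * d ^ 4 := by ring
          _ ≤ _ := f7
      · have h1 : 2 / c - ε ≤ (2 - 5 * δ) / (c + δ) := by
          rw [le_div_iff₀ (by linarith)]
          have h2 : 2 / c * c = 2 := by field_simp
          have h3 : 2 / c * δ ≤ 1 * δ := mul_le_mul_of_nonneg_right (by linarith) hδ.le
          have h4 : ε * 2 ≤ ε * c := mul_le_mul_of_nonneg_left hc ε0.le
          have h5 : 0 ≤ ε * δ := by positivity
          linarith
        linarith

end Pool.Agent.Lib.MP_aa636d_nt
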