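import Mathlib

/-! Norms of integer polynomials at primitive roots of unity. -/

namespace Pool.Agent.Lib.MP_aa636d_nt.Win
open Finset Polynomial

/-- The logarithm of the norm of the value at a primitive root of unity of order `d`. -/
noncomputable def lN (d : ℕ) (f : ℤ[X]) : ℝ := ∑ ζ ∈ primitiveRoots d ℂ, Real.log ‖aeval ζ f‖

/-- No primitive root of unity of order `d` is a zero. -/
def NV (d : ℕ) (f : ℤ[X]) : Prop := ∀ ζ ∈ primitiveRoots d ℂ, aeval ζ f ≠ 0

variable {d e p : ℕ} {f g : ℤ[X]}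

lemma aeval_cyc (ζ : ℂ) (d : ℕ) : aeval ζ (cyclotomic d ℤ) = eval ζ (cyclotomic d ℂ) := by
  rw [← map_cyclotomic_int d ℂ, eval_map, aeval_def, algebraMap_int_eq]

lemma aeval_cyc_zero (hd : 0 < d) {ζ : ℂ} (h : ζ ∈ primitiveRoots d ℂ) :
    aeval ζ (cyclotomic d ℤ) = 0 := by
  rw [aeval_cyc]
  exact ((mem_primitiveRoots hd).1 h).isRoot_cyclotomic hd

lemma nv_of_not_dvd (hd : 0 < d) (h : ¬ cyclotomic d ℤ ∣ f) : NV d f := fun ζ hζ e => by
  have h1 := (mem_primitiveRoots hd).1 hζ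
  exact h (cyclotomic_eq_minpoly h1 hd ▸ minpoly.isIntegrallyClosed_dvd (h1.isIntegral hd) e)

lemma nv_cyc (hd : 0 < d) (he : 0 < e) (h : e ≠ d) : NV d (cyclotomic e ℤ) := fun ζ hζ h0 => by
  rw [aeval_cyc] at h0
  exact h (((isRoot_cyclotomic_iff_charZero he).1 h0).unique ((mem_primitiveRoots hd).1 hζ))

lemma NV.left (h : NV d (f * g)) : NV d f := fun ζ hζ e => h ζ hζ (by rw [map_mul, e, zero_mul])

lemma NV.right (h : NV d (f * g)) : NV d g := fun ζ hζ e => h ζ hζ (by rw [map_mul, e, mul_zero])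

lemma lN_mul (h : NV d (f * g)) : lN d (f * g) = lN d f + lN d g := by
  rw [lN, lN, lN, ← sum_add_distrib]
  refine sum_congr rfl fun ζ hζ => ?_
  rw [map_mul, norm_mul, Real.log_mul (norm_ne_zero_iff.2 (h.left ζ hζ))
    (norm_ne_zero_iff.2 (h.right ζ hζ))]

lemma lN_pow (m : ℕ) : lN d (f ^ m) = m * lN d f := by
  simp only [lN, map_pow, norm_pow, Real.log_pow, mul_sum]

lemma lN_prod {E : Finset ℕ} {F : ℕ → ℤ[X]} (h : NV d (∏ e ∈ E, F e)) :
    lN d (∏ e ∈ E, F e) = ∑ e ∈ E, lN d (F e) := by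
  induction E using Finset.induction_on with
  | empty => simp [lN]
  | insert a E ha ih =>
    rw [prod_insert ha] at h ⊢
    rw [sum_insert ha, lN_mul h, ih h.right]

lemma lN_const (c : ℕ) : lN d (C (c : ℤ)) = d.totient * Real.log c := by
  simp [lN, Complex.card_primitiveRoots]

lemma lN_nonneg (hd : 0 < d) (h : NV d f) : 0 ≤ lN d f := by
  have : NeZero (d : ℂ) := ⟨by exact_mod_cast hd.ne'⟩
  have h1 := resultant_eq_prod_eval (cyclotomic d ℂ) (f.map (Int.castRingHom ℂ)) f.natDegree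
    natDegree_map_le (IsAlgClosed.splits _)
  rw [(cyclotomic.monic d ℂ).leadingCoeff, one_pow, one_mul,
    cyclotomic.roots_eq_primitiveRoots_val, ← map_cyclotomic_int d ℂ, resultant_map_map] at h1
  have h2 : ∏ ζ ∈ primitiveRoots d ℂ, aeval ζ f =
      (Multiset.map (f.map (Int.castRingHom ℂ)).eval (primitiveRoots d ℂ).val).prod := by
    rw [Finset.prod_eq_multiset_prod]
    congr 2
    funext ζ
    rw [eval_map, aeval_def, algebraMap_int_eq]
  rw [← h2] at h1
  have h3 : ∏ ζ ∈ primitiveRoots d ℂ, aeval ζ f ≠ 0 := prod_ne_zero_iff.2 h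
  rw [lN, ← Real.log_prod fun ζ hζ => norm_ne_zero_iff.2 (h ζ hζ), ← norm_prod, ← h1]
  rw [← h1] at h3
  simp only [eq_intCast, ne_eq, Int.cast_eq_zero] at h3 ⊢
  rw [Complex.norm_intCast]
  exact Real.log_nonneg (by exact_mod_cast Int.one_le_abs h3)

lemma lN_symm (hd : 0 < d) (he : 0 < e) (h : e ≠ d) :
    lN d (cyclotomic e ℤ) = lN e (cyclotomic d ℤ) := by
  have key : ∀ {d e : ℕ}, 0 < d → 0 < e → e ≠ d → lN d (cyclotomic e ℤ) =
      ∑ ζ ∈ primitiveRoots d ℂ, ∑ ξ ∈ primitiveRoots e ℂ, Real.log ‖ζ - ξ‖ := by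
    intro d e hd he h
    refine sum_congr rfl fun ζ hζ => ?_
    have h0 := nv_cyc hd he h ζ hζ
    rw [aeval_cyc, cyclotomic_eq_prod_X_sub_primitiveRoots (Complex.isPrimitiveRoot_exp e he.ne'),
      eval_prod] at h0 ⊢
    simp only [eval_sub, eval_X, eval_C] at h0 ⊢
    rw [norm_prod, Real.log_prod fun ξ hξ => norm_ne_zero_iff.2 (prod_ne_zero_iff.1 h0 ξ hξ)]
  rw [key hd he h, key he hd h.symm, sum_comm]
  simp only [norm_sub_rev]

lemma lN_up (hd : 0 < d) (hp : p.Prime) (h : ¬ p ∣ d) :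
    d.totient * Real.log p ≤ lN d (cyclotomic (d * p) ℤ) := by
  have := Fact.mk hp
  obtain ⟨R, hR⟩ : C (p : ℤ) ∣ cyclotomic (d * p) ℤ - cyclotomic d ℤ ^ (p - 1) := by
    rw [C_dvd_iff_dvd_coeff]
    intro i
    rw [← ZMod.intCast_zmod_eq_zero_iff_dvd, ← eq_intCast (Int.castRingHom (ZMod p)), ← coeff_map,
      Polynomial.map_sub, Polynomial.map_pow, map_cyclotomic_int, map_cyclotomic_int,
      cyclotomic_mul_prime_eq_pow_of_not_dvd _ h, sub_self, coeff_zero]
  have h1 : ∀ ζ ∈ primitiveRoots d ℂ, aeval ζ (cyclotomic (d * p) ℤ) = aeval ζ (C (p : ℤ) * R) :=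
    fun ζ hζ => by
      rw [← hR, map_sub, map_pow, aeval_cyc_zero hd hζ,
        zero_pow (by have := hp.two_le; omega), sub_zero]
  have h2 : NV d (C (p : ℤ) * R) := fun ζ hζ => h1 ζ hζ ▸
    nv_cyc hd (Nat.mul_pos hd hp.pos) (by have := hp.two_le; nlinarith) ζ hζ
  have h3 : lN d (cyclotomic (d * p) ℤ) = lN d (C (p : ℤ) * R) :=
    sum_congr rfl fun ζ hζ => by rw [h1 ζ hζ]
  rw [h3, lN_mul h2, lN_const]
  linarith [lN_nonneg hd h2.right]

lemma norm_prim (hd : 0 < d) {ζ : ℂ} (h : ζ ∈ primitiveRoots d ℂ) : ‖ζ‖ = 1 :=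
  ((mem_primitiveRoots hd).1 h).norm'_eq_one hd.ne'

lemma lN_der (hd : 0 < d) : NV d (derivative (cyclotomic d ℤ)) ∧
    d.totient * (Real.log d - d.primeFactors.card) ≤ lN d (derivative (cyclotomic d ℤ)) := by
  have : NeZero (d : ℂ) := ⟨by exact_mod_cast hd.ne'⟩
  set P : ℤ[X] := ∏ p ∈ d.primeFactors, (X ^ (d / p) - 1) with hP
  have lt : ∀ p ∈ d.primeFactors, 0 < d / p ∧ d / p < d := fun p hp =>
    ⟨Nat.div_pos (Nat.le_of_mem_primeFactors hp) (Nat.pos_of_mem_primeFactors hp),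
      Nat.div_lt_self hd (Nat.prime_of_mem_primeFactors hp).one_lt⟩
  have hev : ∀ ζ : ℂ, aeval ζ P = ∏ p ∈ d.primeFactors, (ζ ^ (d / p) - 1) := fun ζ => by
    simp [hP, map_prod]
  have nP : NV d P := fun ζ hζ => by
    rw [hev]
    exact prod_ne_zero_iff.2 fun p hp => sub_ne_zero.2
      (((mem_primitiveRoots hd).1 hζ).pow_ne_one_of_pos_of_lt (lt p hp).1.ne' (lt p hp).2)
  have nD : NV d (derivative (cyclotomic d ℤ)) := fun ζ hζ => by
    have := (separable_cyclotomic d ℂ).eval₂_derivative_ne_zero (RingHom.id ℂ)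
      (x := ζ) (by rw [eval₂_id, ← aeval_cyc]; exact aeval_cyc_zero hd hζ)
    rwa [eval₂_id, ← map_cyclotomic_int d ℂ, derivative_map, eval_map, ← algebraMap_int_eq,
      ← aeval_def] at this
  have mo : (X ^ d - 1 : ℤ[X]).Monic := monic_X_pow_sub_C 1 hd.ne'
  obtain ⟨Q, hQ⟩ : (X ^ d - 1 : ℤ[X]) ∣ cyclotomic d ℤ * P := by
    rw [← map_dvd_map (Int.castRingHom ℂ) (Int.castRingHom ℂ).injective_int mo]
    refine (IsAlgClosed.splits _).dvd_of_roots_le_roots (mo.map _).ne_zero ?_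
    have e : (X ^ d - 1 : ℤ[X]).map (Int.castRingHom ℂ) = X ^ d - C 1 := by simp
    have P0 : (cyclotomic d ℤ * P).map (Int.castRingHom ℂ) ≠ 0 :=
      (((cyclotomic.monic d ℤ).mul (monic_prod_of_monic _ _ fun p hp =>
        monic_X_pow_sub_C 1 (lt p hp).1.ne')).map _).ne_zero
    rw [e, Multiset.le_iff_subset (nodup_roots (separable_X_pow_sub_C 1 NeZero.out one_ne_zero))]
    intro ξ hξ
    have h1 : ξ ^ d = 1 := by simpa [sub_eq_zero] using (mem_roots'.1 hξ).2
    rw [mem_roots P0, IsRoot.def, eval_map, ← algebraMap_int_eq, ← aeval_def, map_mul, hev]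
    obtain ⟨c, hc⟩ := orderOf_dvd_of_pow_eq_one h1
    by_cases c1 : c = 1
    · rw [aeval_cyc_zero hd, zero_mul]
      rw [mem_primitiveRoots hd, hc, c1, mul_one]
      exact IsPrimitiveRoot.orderOf ξ
    · obtain ⟨q, hq, c', rfl⟩ := Nat.exists_prime_and_dvd c1
      have : d / q = orderOf ξ * c' := by
        rw [hc, mul_left_comm, Nat.mul_div_cancel_left _ hq.pos]
      rw [prod_eq_zero (i := q) (Nat.mem_primeFactors.2 ⟨hq, ⟨_, by rw [hc, mul_left_comm]⟩, hd.ne'⟩)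
        (by rw [this, pow_mul, pow_orderOf_eq_one, one_pow, sub_self]), mul_zero]
  have h1 : ∀ ζ ∈ primitiveRoots d ℂ, aeval ζ (derivative (cyclotomic d ℤ) * P) =
      aeval ζ (C (d : ℤ) * (X ^ (d - 1) * Q)) := fun ζ hζ => by
    have := congrArg (fun f => aeval ζ (derivative f)) hQ
    simp only [derivative_mul, map_add, map_mul, aeval_cyc_zero hd hζ, zero_mul, add_zero,
      derivative_one, derivative_X_pow, map_sub, map_pow, aeval_X, map_one,
      ((mem_primitiveRoots hd).1 hζ).pow_eq_one, sub_self, sub_zero] at this ⊢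
    rw [this, mul_assoc]
  have h2 : NV d (derivative (cyclotomic d ℤ) * P) := fun ζ hζ => by
    rw [map_mul]
    exact mul_ne_zero (nD ζ hζ) (nP ζ hζ)
  have h3 : NV d (C (d : ℤ) * (X ^ (d - 1) * Q)) := fun ζ hζ => h1 ζ hζ ▸ h2 ζ hζ
  have h4 : lN d (derivative (cyclotomic d ℤ) * P) = lN d (C (d : ℤ) * (X ^ (d - 1) * Q)) :=
    sum_congr rfl fun ζ hζ => by rw [h1 ζ hζ]
  rw [lN_mul h2, lN_mul h3, lN_const] at h4
  have h5 := lN_nonneg hd h3.right
  have h6 : lN d P ≤ d.totient * d.primeFactors.card := by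
    rw [← Complex.card_primitiveRoots, ← nsmul_eq_mul]
    refine sum_le_card_nsmul _ _ _ fun ζ hζ => ?_
    have h0 := nP ζ hζ
    rw [hev] at h0 ⊢
    rw [norm_prod, Real.log_prod fun q hq => norm_ne_zero_iff.2 (prod_ne_zero_iff.1 h0 q hq),
      ← mul_one (d.primeFactors.card : ℝ), ← nsmul_eq_mul]
    refine sum_le_card_nsmul _ _ _ fun q hq => ?_
    have := Real.log_le_sub_one_of_pos (norm_pos_iff.2 (prod_ne_zero_iff.1 h0 q hq))
    have h7 := norm_sub_le (ζ ^ (d / q)) 1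
    rw [norm_pow, norm_prim hd hζ, one_pow, norm_one] at h7
    linarith
  exact ⟨nD, by linarith⟩

lemma theta {R : Type*} [CommRing R] (F : R[X]) (ζ : R) (h : eval ζ F = 0) (U : Finset ℕ)
    (j : ℕ) : ∀ (μ : ℕ) (c : ℕ → R) (W : R[X]), j ≤ μ → ∑ a ∈ U, C (c a) * X ^ a = F ^ μ * W →
      ∑ a ∈ U, c a * a ^ j * ζ ^ a =
        if j = μ then μ.factorial * (ζ * eval ζ (derivative F)) ^ μ * eval ζ W else 0 := by
  induction j with
  | zero =>
    intro μ c W _ e
    have := congrArg (eval ζ) e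
    simp only [eval_finsetSum, eval_mul, eval_C, eval_pow, eval_X, h] at this
    rcases μ with _ | μ <;> simpa using this
  | succ j ih =>
    intro μ c W hj e
    obtain ⟨r, rfl⟩ : ∃ r, μ = r + 1 := ⟨μ - 1, by omega⟩
    have e' : ∑ a ∈ U, C (c a * a) * X ^ a =
        F ^ r * (X * (C ((r : R) + 1) * derivative F * W + F * derivative W)) := by
      have := congrArg (fun f => X * derivative f) e
      simp only [derivative_sum, derivative_C_mul_X_pow, mul_sum] at this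
      rw [derivative_mul, derivative_pow_succ] at this
      refine Eq.trans (sum_congr rfl fun a _ => ?_) (this.trans (by ring))
      rcases a with _ | a
      · simp
      · rw [Nat.add_sub_cancel]
        ring
    have := ih r _ _ (by omega) e'
    simp only [Nat.add_right_cancel_iff]
    refine Eq.trans (sum_congr rfl fun a _ => by ring) (this.trans ?_)
    split_ifs
    · simp only [eval_mul, eval_add, eval_X, eval_C, h, Nat.factorial_succ]
      push_cast
      ring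
    · rfl

/-- The multiplicity of a cyclotomic factor. -/
noncomputable def mu (G : ℤ[X]) (e : ℕ) : ℕ := multiplicity (cyclotomic e ℤ) G

lemma exists_cof {G : ℤ[X]} (hG : G ≠ 0) (hd : 0 < d) :
    ∃ W, G = cyclotomic d ℤ ^ mu G d * W ∧ NV d W ∧ ∀ E : Finset ℕ, (∀ e ∈ E, 0 < e ∧ e ≠ d) →
      ∑ e ∈ E, mu G e * lN d (cyclotomic e ℤ) ≤ lN d W := by
  obtain ⟨W, h1, h2⟩ := (finiteMultiplicity_of_degree_pos_of_monic (degree_cyclotomic_pos d ℤ hd)
    (cyclotomic.monic d ℤ) hG).exists_eq_pow_mul_and_not_dvd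
  have h3 := nv_of_not_dvd hd h2
  refine ⟨W, h1, h3, fun E hE => ?_⟩
  obtain ⟨Q, hQ⟩ : ∏ e ∈ E, cyclotomic e ℤ ^ mu G e ∣ W := by
    rw [← map_dvd_map (Int.castRingHom ℚ) (Int.castRingHom ℚ).injective_int
      (monic_prod_of_monic _ _ fun e _ => (cyclotomic.monic e ℤ).pow _)]
    simp only [Polynomial.map_prod, Polynomial.map_pow, map_cyclotomic_int]
    refine IsCoprime.dvd_of_dvd_mul_left (y := cyclotomic d ℚ ^ mu G d)
      (IsCoprime.prod_left fun e he => (cyclotomic.isCoprime_rat (hE e he).2).pow) ?_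
    rw [← map_cyclotomic_int d ℚ, ← Polynomial.map_pow, ← Polynomial.map_mul, mu, ← h1]
    refine Finset.prod_dvd_of_coprime (fun a _ b _ h => (cyclotomic.isCoprime_rat h).pow)
      fun e _ => ?_
    rw [← map_cyclotomic_int e ℚ, ← Polynomial.map_pow]
    exact Polynomial.map_dvd _ (pow_multiplicity_dvd _ _)
  rw [hQ] at h3 ⊢
  rw [lN_mul h3, lN_prod h3.left]
  simp only [lN_pow]
  linarith [lN_nonneg hd h3.right]

/-- The norm inequality between the multiplicities. -/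
lemma star {U : Finset ℕ} {K : ℕ} (hU : ∀ a ∈ U, a < K) {ε : ℕ → ℤ} (hε : ∀ a ∈ U, |ε a| = 1)
    {G : ℤ[X]} (hG : ∑ a ∈ U, C (ε a) * X ^ a = G) (h0 : G ≠ 0) (hd : 0 < d) (E : Finset ℕ)
    (hE : ∀ e ∈ E, 0 < e ∧ e ≠ d) (w : ℕ → ℝ)
    (hw : ∀ e ∈ E, d.totient * w e ≤ lN d (cyclotomic e ℤ)) :
    ∑ e ∈ E, mu G e * w e ≤ Real.log U.card +
      mu G d * (Real.log K - Real.log d + d.primeFactors.card) - Real.log (mu G d).factorial := by
  obtain ⟨W, h1, h2, h3⟩ := exists_cof h0 hd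
  obtain ⟨n1, n2⟩ := lN_der hd
  set μ := mu G d
  have K0 : (0 : ℝ) < K := by
    obtain ⟨a, ha⟩ : U.Nonempty := by
      rw [nonempty_iff_ne_empty]
      rintro rfl
      exact h0 (by simpa using hG.symm)
    exact_mod_cast (Nat.zero_le a).trans_lt (hU a ha)
  have h4 : ∀ ζ ∈ primitiveRoots d ℂ, Real.log μ.factorial +
      μ * Real.log ‖aeval ζ (derivative (cyclotomic d ℤ))‖ + Real.log ‖aeval ζ W‖ ≤
      Real.log U.card + μ * Real.log K := fun ζ hζ => by
    have e := theta (cyclotomic d ℂ) ζ (aeval_cyc ζ d ▸ aeval_cyc_zero hd hζ) U μ μ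
      (fun a => (ε a : ℂ)) (W.map (Int.castRingHom ℂ)) le_rfl (by
        have := congrArg (Polynomial.map (Int.castRingHom ℂ)) (hG.trans h1)
        simp only [Polynomial.map_sum, Polynomial.map_mul, Polynomial.map_pow, map_C, map_X,
          map_cyclotomic_int] at this
        exact this)
    rw [if_pos rfl, ← map_cyclotomic_int d ℂ, derivative_map, eval_map, eval_map,
      ← algebraMap_int_eq, ← aeval_def, ← aeval_def] at e
    have a1 := norm_pos_iff.2 (n1 ζ hζ)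
    have a2 := norm_pos_iff.2 (h2 ζ hζ)
    have e2 : (μ.factorial : ℝ) * ‖aeval ζ (derivative (cyclotomic d ℤ))‖ ^ μ * ‖aeval ζ W‖ ≤
        U.card * (K : ℝ) ^ μ := by
      have := congrArg norm e
      rw [norm_mul, norm_mul, norm_pow, norm_mul, norm_prim hd hζ, one_mul,
        Complex.norm_natCast] at this
      rw [← this, ← nsmul_eq_mul]
      refine (norm_sum_le _ _).trans (sum_le_card_nsmul _ _ _ fun a ha => ?_)
      rw [norm_mul, norm_mul, norm_pow, norm_pow, norm_prim hd hζ, one_pow, mul_one,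
        Complex.norm_intCast, Complex.norm_natCast, ← Int.cast_abs, hε a ha, Int.cast_one, one_mul]
      exact pow_le_pow_left₀ (Nat.cast_nonneg a) (by exact_mod_cast (hU a ha).le) _
    have p0 : 0 < (μ.factorial : ℝ) * ‖aeval ζ (derivative (cyclotomic d ℤ))‖ ^ μ *
        ‖aeval ζ W‖ := by positivity
    have := Real.log_le_log p0 e2
    rwa [Real.log_mul (by positivity) a2.ne', Real.log_mul (by positivity) (by positivity),
      Real.log_pow, Real.log_mul (fun h => by rw [h, zero_mul] at e2; linarith) (by positivity),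
      Real.log_pow] at this
  have h5 := sum_le_card_nsmul _ _ _ h4
  rw [sum_add_distrib, sum_add_distrib, sum_const, ← mul_sum, Complex.card_primitiveRoots,
    nsmul_eq_mul, nsmul_eq_mul] at h5
  have h6 : d.totient * ∑ e ∈ E, mu G e * w e ≤ lN d W := by
    rw [mul_sum]
    refine le_trans (sum_le_sum fun e he => ?_) (h3 E hE)
    rw [mul_left_comm]
    exact mul_le_mul_of_nonneg_left (hw e he) (Nat.cast_nonneg _)
  have h7 := mul_le_mul_of_nonneg_left n2 (Nat.cast_nonneg (α := ℝ) μ)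
  have t0 : (0 : ℝ) < d.totient := by exact_mod_cast Nat.totient_pos.2 hd
  refine le_of_mul_le_mul_left ?_ t0
  simp only [lN] at h6 h7
  nlinarith

/-- The power sums and the multiplicity of the root one. -/
lemma at_one {U : Finset ℕ} {ε : ℕ → ℤ} {G : ℤ[X]} (hG : ∑ a ∈ U, C (ε a) * X ^ a = G)
    (h0 : G ≠ 0) : ∃ H : ℤ, H ≠ 0 ∧ (∀ j < mu G 1, ∑ a ∈ U, ε a * a ^ j = 0) ∧
      ∑ a ∈ U, ε a * a ^ mu G 1 = (mu G 1).factorial * H ∧
      ∀ (E : Finset ℕ) (w : ℕ → ℝ), (∀ e ∈ E, 0 < e ∧ e ≠ 1) →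
        (∀ e ∈ E, w e ≤ lN 1 (cyclotomic e ℤ)) → ∑ e ∈ E, mu G e * w e ≤ Real.log |(H : ℝ)| := by
  obtain ⟨W, h1, h2, h3⟩ := exists_cof h0 one_pos
  have e := fun j hj => theta (cyclotomic 1 ℤ) 1 (by simp) U j (mu G 1) ε W hj (hG.trans h1)
  have e1 : aeval (1 : ℂ) W = ((eval 1 W : ℤ) : ℂ) := by
    rw [← Int.cast_one, ← eq_intCast (algebraMap ℤ ℂ), aeval_algebraMap_apply]
    simp
  refine ⟨eval 1 W, fun h => h2 1 (by simp) (by rw [e1, h, Int.cast_zero]), fun j hj => ?_, ?_,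
    fun E w hE hw => ?_⟩
  · simpa [hj.ne] using e j hj.le
  · simpa using e _ le_rfl
  · have h4 : lN 1 W = Real.log |((eval 1 W : ℤ) : ℝ)| := by
      rw [lN, IsPrimitiveRoot.primitiveRoots_one, sum_singleton, e1, Complex.norm_intCast]
    rw [← h4]
    exact le_trans (sum_le_sum fun e he =>
      mul_le_mul_of_nonneg_left (hw e he) (Nat.cast_nonneg _)) (h3 E hE)

end Pool.Agent.Lib.MP_aa636d_nt.Win
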