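import Pool.Agent.Lib.MP_aa636d_nt.WinA
import Pool.Agent.Lib.MP_aa636d_nt.WinB

/-! The divisibility graph of rough squarefree numbers. -/

namespace Pool.Agent.Lib.MP_aa636d_nt.Win
open Finset Polynomial

/-- An inequality of Caccioppoli type on a finite weighted graph. -/
lemma cacc {V : Finset ℕ} {o : ℕ} (ho : o ∈ V) (u : ℕ → ℕ → ℝ) (hu : ∀ x y, 0 ≤ u x y)
    (w h k : ℕ → ℝ) (hw : ∀ x, 0 ≤ w x ∧ w x ≤ 1) (w0 : w o = 0) (h1 : h o = 1)
    (hk0 : ∀ x, 0 ≤ k x)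
    (hk : ∀ x ∈ V, x ≠ o → ∑ y ∈ V, (u x y + u y x) * (w x - w y) ≤ k x) :
    ∑ y ∈ V, (u o y + u y o) * w y ≤
      2 * ∑ x ∈ V, h x ^ 2 * k x + 4 * ∑ x ∈ V, ∑ y ∈ V, u x y * (h x - h y) ^ 2 := by
  have a1 : ∑ x ∈ V, h x ^ 2 * (1 + w x) * ∑ y ∈ V, (u x y + u y x) * (w x - w y) =
      ∑ x ∈ V, ∑ y ∈ V, u x y * ((w x - w y) * (h x ^ 2 * (1 + w x) - h y ^ 2 * (1 + w y))) := by
    have e : ∑ x ∈ V, ∑ y ∈ V, h x ^ 2 * (1 + w x) * (u y x * (w x - w y)) =
        ∑ x ∈ V, ∑ y ∈ V, h y ^ 2 * (1 + w y) * (u x y * (w y - w x)) := sum_comm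
    simp only [mul_sum, add_mul (u _ _), mul_add (_ * (1 + w _)), sum_add_distrib]
    rw [e, ← sum_add_distrib]
    refine sum_congr rfl fun x _ => ?_
    rw [← sum_add_distrib]
    exact sum_congr rfl fun y _ => by ring
  have a2 : -(4 * ∑ x ∈ V, ∑ y ∈ V, u x y * (h x - h y) ^ 2) ≤
      ∑ x ∈ V, ∑ y ∈ V, u x y * ((w x - w y) * (h x ^ 2 * (1 + w x) - h y ^ 2 * (1 + w y))) := by
    simp only [mul_sum, ← sum_neg_distrib]
    refine sum_le_sum fun x _ => sum_le_sum fun y _ => ?_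
    have b1 : (1 + w x) * (1 + w y) ≤ 4 := by nlinarith [hw x, hw y]
    have b2 : -(4 * (h x - h y) ^ 2) ≤
        (w x - w y) * (h x ^ 2 * (1 + w x) - h y ^ 2 * (1 + w y)) := by
      nlinarith [sq_nonneg (h x * (1 + w x) - h y * (1 + w y)),
        mul_le_mul_of_nonneg_right b1 (sq_nonneg (h x - h y))]
    nlinarith [mul_le_mul_of_nonneg_left b2 (hu x y)]
  rw [← add_sum_erase _ _ ho, h1, w0] at a1
  rw [← a1] at a2
  have a3 : ∑ x ∈ V.erase o, h x ^ 2 * (1 + w x) * ∑ y ∈ V, (u x y + u y x) * (w x - w y) ≤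
      2 * ∑ x ∈ V, h x ^ 2 * k x := by
    rw [mul_sum]
    refine (sum_le_sum fun x hx => ?_).trans (sum_le_sum_of_subset_of_nonneg (erase_subset o V)
      fun x _ _ => by have := hk0 x; positivity)
    have := hw x
    have b := mul_le_mul_of_nonneg_left (hk x (mem_of_mem_erase hx) (ne_of_mem_erase hx))
      (show 0 ≤ h x ^ 2 * (1 + w x) from mul_nonneg (sq_nonneg _) (by linarith))
    nlinarith [mul_nonneg (mul_nonneg (sq_nonneg (h x)) (hk0 x)) (sub_nonneg.2 this.2)]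
  simp only [zero_sub, mul_neg, sum_neg_distrib] at a2
  linarith

lemma sq_sum_le (a b : ℕ → ℝ) (ha : ∀ i, 0 ≤ a i ∧ a i ≤ 1) (hb : ∀ i, 0 ≤ b i ∧ b i ≤ 1) (J : ℕ) :
    (∑ i ∈ range J, a i * b i) ^ 2 ≤ 2 * ∑ i ∈ range J, a i * ∑ j ∈ range (i + 1), b j := by
  induction J with
  | zero => simp
  | succ J ih =>
    have h1 : ∑ i ∈ range J, a i * b i ≤ ∑ i ∈ range J, b i :=
      sum_le_sum fun i _ => mul_le_of_le_one_left (hb i).1 (ha i).2
    have h0 : 0 ≤ ∑ i ∈ range J, a i * b i := sum_nonneg fun i _ => mul_nonneg (ha i).1 (hb i).1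
    rw [sum_range_succ, sum_range_succ _ J, sum_range_succ b J]
    have h2 : a J * b J ≤ a J := mul_le_of_le_one_right (ha J).1 (hb J).2
    have h3 := mul_nonneg (ha J).1 (hb J).1
    have h4 := mul_le_mul h2 h1 h0 (ha J).1
    nlinarith [mul_le_mul_of_nonneg_left (h2.trans (ha J).2) h3]

/-- The vertices. -/
def Vs (z D : ℕ) : Finset ℕ := {d ∈ Icc 1 D | Squarefree d ∧ ∀ p ∈ d.primeFactors, z < p}

/-- The conductance of the edge from `d` up to `e`. -/
noncomputable def up (z D d e : ℕ) : ℝ :=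
  ∑ p ∈ Ioc z D with p.Prime, if e = d * p then Real.log p / e else 0

variable {z D d e : ℕ}

lemma mem_Vs : d ∈ Vs z D ↔ (1 ≤ d ∧ d ≤ D) ∧ Squarefree d ∧ ∀ p ∈ d.primeFactors, z < p := by
  rw [Vs, mem_filter, mem_Icc]

lemma up_nonneg (z D d e : ℕ) : 0 ≤ up z D d e :=
  sum_nonneg fun p _ => by have := log_nat_nonneg p; positivity

lemma up_zero (h : ∀ p, p.Prime → e ≠ d * p) : up z D d e = 0 :=
  sum_eq_zero fun p hp => if_neg (h p (mem_filter.1 hp).2)

lemma up_le {p : ℕ} (hd : 0 < d) : up z D d (d * p) ≤ Real.log p / (d * p : ℕ) := by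
  have h0 : 0 ≤ Real.log p / (d * p : ℕ) := div_nonneg (log_nat_nonneg p) (Nat.cast_nonneg _)
  simp only [up, Nat.mul_right_inj hd.ne', sum_ite_eq]
  split_ifs
  exacts [le_rfl, h0]

lemma not_dvd_of_mem {p : ℕ} (hp : p.Prime) (h : d * p ∈ Vs z D) : ¬ p ∣ d :=
  hp.coprime_iff_not_dvd.1 (Nat.coprime_of_squarefree_mul (mem_Vs.1 h).2.1).symm

lemma lN_edge (hd : d ∈ Vs z D) (he : e ∈ Vs z D) (h : e ≠ d) :
    d.totient * (e * (up z D d e + up z D e d)) ≤ lN d (cyclotomic e ℤ) := by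
  have d0 : 0 < d := (mem_Vs.1 hd).1.1
  have e0 : 0 < e := (mem_Vs.1 he).1.1
  have t0 : ∀ x : ℕ, (0 : ℝ) ≤ x := Nat.cast_nonneg
  by_cases c1 : ∃ p, p.Prime ∧ e = d * p
  · obtain ⟨p, pp, rfl⟩ := c1
    rw [up_zero (e := d) fun q qq h => by nlinarith [Nat.mul_le_mul pp.two_le qq.two_le],
      add_zero]
    refine le_trans (mul_le_mul_of_nonneg_left ?_ (t0 _)) (lN_up d0 pp (not_dvd_of_mem pp he))
    refine (mul_le_mul_of_nonneg_left (up_le d0) (t0 _)).trans (le_of_eq ?_)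
    exact mul_div_cancel₀ _ (by exact_mod_cast e0.ne')
  rw [up_zero fun p pp h => c1 ⟨p, pp, h⟩, zero_add]
  by_cases c2 : ∃ p, p.Prime ∧ d = e * p
  · obtain ⟨p, pp, rfl⟩ := c2
    have np := not_dvd_of_mem pp hd
    rw [lN_symm d0 e0 h]
    refine le_trans ?_ (lN_up e0 pp np)
    have h1 : ((e * p).totient : ℝ) ≤ p * e.totient := by
      rw [mul_comm e, Nat.totient_mul_of_prime_of_not_dvd pp np]
      exact_mod_cast Nat.mul_le_mul_right _ (Nat.sub_le p 1)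
    have p0 : (p : ℝ) ≠ 0 := by exact_mod_cast pp.ne_zero
    have e1 : (e : ℝ) ≠ 0 := by exact_mod_cast e0.ne'
    calc _ ≤ (p * e.totient) * (e * (Real.log p / (e * p : ℕ))) :=
          mul_le_mul h1 (mul_le_mul_of_nonneg_left (up_le e0) (t0 _))
            (mul_nonneg (t0 _) (up_nonneg ..)) (by positivity)
      _ = _ := by
          push_cast
          field_simp
  rw [up_zero fun p pp h => c2 ⟨p, pp, h⟩, mul_zero, mul_zero]
  exact lN_nonneg d0 (nv_cyc d0 e0 h)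

lemma sum_up (F : ℕ → ℝ) : ∑ e ∈ Vs z D, up z D d e * F e =
    ∑ p ∈ Ioc z D with p.Prime, if d * p ∈ Vs z D then Real.log p / (d * p : ℕ) * F (d * p)
      else 0 := by
  simp only [up, sum_mul, ite_mul, zero_mul]
  rw [sum_comm]
  simp only [sum_ite_eq']

lemma omega_le {N : ℕ} (hz : 2 ≤ z) (hd : d ∈ Vs z (z ^ N)) : d.primeFactors.card ≤ N := by
  obtain ⟨h1, h2, h3⟩ := mem_Vs.1 hd
  have := pow_card_le_prod d.primeFactors (fun p => p) z fun p hp => (h3 p hp).le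
  rw [Nat.prod_primeFactors_of_squarefree h2] at this
  exact (Nat.pow_le_pow_iff_right hz).1 (this.trans h1.2)

lemma rate_down (hd : d ∈ Vs z D) : Real.log d / d ≤ ∑ e ∈ Vs z D, up z D e d := by
  obtain ⟨h1, h2, h3⟩ := mem_Vs.1 hd
  simp only [up]
  rw [sum_comm]
  conv_lhs => rw [← Nat.prod_primeFactors_of_squarefree h2]
  rw [Nat.cast_prod, Real.log_prod (fun p hp => by
    exact_mod_cast (Nat.pos_of_mem_primeFactors hp).ne'), ← Nat.cast_prod,
    Nat.prod_primeFactors_of_squarefree h2, sum_div]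
  have n0 : ∀ p e : ℕ, 0 ≤ if d = e * p then Real.log p / d else 0 := fun p e => by
    have := log_nat_nonneg p
    positivity
  refine le_trans (sum_le_sum fun p hp => ?_) (sum_le_sum_of_subset_of_nonneg
    (s := d.primeFactors) (fun p hp => mem_filter.2 ⟨mem_Ioc.2 ⟨h3 p hp,
      (Nat.le_of_mem_primeFactors hp).trans h1.2⟩, Nat.prime_of_mem_primeFactors hp⟩)
    fun p _ _ => sum_nonneg fun e _ => n0 p e)
  obtain ⟨c, rfl⟩ := exists_eq_mul_left_of_dvd (Nat.dvd_of_mem_primeFactors hp)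
  have c0 : 0 < c := Nat.pos_of_mul_pos_right h1.1
  have hc : c ∈ Vs z D := mem_Vs.2 ⟨⟨c0, (Nat.le_mul_of_pos_right _
    (Nat.pos_of_mem_primeFactors hp)).trans h1.2⟩, h2.of_mul_left, fun q hq =>
      h3 q (Nat.primeFactors_mono (dvd_mul_right c p) (by omega) hq)⟩
  exact le_trans (by rw [if_pos rfl]) (single_le_sum (fun e _ => n0 p e) hc)

lemma rate : ∃ C : ℝ, 0 ≤ C ∧ ∀ z D d : ℕ, 1 ≤ z → d ∈ Vs z D →
    (Real.log D - Real.log z - C - d.primeFactors.card) / d ≤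
      ∑ e ∈ Vs z D, (up z D d e + up z D e d) := by
  obtain ⟨C, hC⟩ := mertens_lower
  refine ⟨max C 0 + 1, by positivity, fun z D d hz hd => ?_⟩
  obtain ⟨h1, h2, h3⟩ := mem_Vs.1 hd
  have d0 : (0 : ℝ) < d := by exact_mod_cast h1.1
  have v0 : 0 < D / d := Nat.div_pos h1.2 h1.1
  have a1 : Real.log (D / d : ℕ) - Real.log z - max C 0 ≤
      ∑ p ∈ Ioc z (D / d) with p.Prime, Real.log p / p := by
    rcases le_total z (D / d) with h | h
    · linarith [hC z _ hz h, le_max_left C 0]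
    · rw [Ioc_eq_empty_of_le h, filter_empty, sum_empty]
      linarith [log_nat_mono h, le_max_right C 0]
  have a2 : Real.log D ≤ Real.log d + Real.log (D / d : ℕ) + 1 := by
    have := log_nat_mono (show D ≤ d * (D / d) * 2 by nlinarith [Nat.lt_mul_div_succ D h1.1])
    rw [Nat.cast_mul, Nat.cast_mul, Real.log_mul (by positivity) (by positivity),
      Real.log_mul (by positivity) (by positivity)] at this
    rw [Nat.cast_ofNat] at this
    linarith [Real.log_two_lt_d9]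
  have a3 : ∑ p ∈ Ioc z (D / d) with p.Prime, Real.log p / p ≤
      d * ∑ e ∈ Vs z D, up z D d e + d.primeFactors.card := by
    have e := sum_up (z := z) (D := D) (d := d) fun _ => 1
    simp only [mul_one] at e
    have b : (∑ p ∈ Ioc z (D / d) with p.Prime, if p ∈ d.primeFactors then (1 : ℝ) else 0) ≤
        d.primeFactors.card := by
      rw [sum_ite_mem, sum_const, nsmul_eq_mul, mul_one, Nat.cast_le]
      exact card_le_card inter_subset_right
    rw [e, mul_sum]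
    refine le_trans ?_ (add_le_add (sum_le_sum_of_subset_of_nonneg
      (filter_subset_filter _ (Ioc_subset_Ioc_right (Nat.div_le_self D d))) fun p _ _ => by
        have := log_nat_nonneg p
        positivity) b)
    rw [← sum_add_distrib]
    refine sum_le_sum fun p hp => ?_
    obtain ⟨hp, pp⟩ := mem_filter.1 hp
    rw [mem_Ioc] at hp
    have p0 : (0 : ℝ) < p := by exact_mod_cast pp.pos
    have := log_nat_nonneg p
    by_cases c : p ∈ d.primeFactors
    · rw [if_pos c]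
      have b1 : Real.log p / p ≤ 1 :=
        (div_le_one p0).2 (by linarith [Real.log_le_sub_one_of_pos p0])
      exact b1.trans (le_add_of_nonneg_left (by positivity))
    · have np : ¬ p ∣ d := fun h => c (Nat.mem_primeFactors.2 ⟨pp, h, by omega⟩)
      rw [if_neg c, add_zero, if_pos (mem_Vs.2 ⟨⟨Nat.mul_pos h1.1 pp.pos, by
        rw [mul_comm]; exact (Nat.le_div_iff_mul_le h1.1).1 hp.2⟩,
        (Nat.squarefree_mul (pp.coprime_iff_not_dvd.2 np).symm).2 ⟨h2, pp.squarefree⟩,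
        fun q hq => by
          rw [Nat.primeFactors_mul (by omega) pp.ne_zero, pp.primeFactors, mem_union,
            mem_singleton] at hq
          exact hq.elim (h3 q) fun e => e ▸ hp.1⟩)]
      push_cast
      exact le_of_eq (by field_simp)
  have a4 := rate_down hd
  rw [div_le_iff₀ d0] at a4 ⊢
  rw [sum_add_distrib]
  linarith

/-- The indicator of the numbers without prime factors up to `Y`. -/
noncomputable def ro (Y d : ℕ) : ℝ := if ∀ p ∈ d.primeFactors, Y < p then 1 else 0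

/-- The test function. -/
noncomputable def tf (z J d : ℕ) : ℝ := (∑ i ∈ range J, ro (z ^ 2 ^ (i + 1)) d) / J

lemma ro_mem (Y d : ℕ) : 0 ≤ ro Y d ∧ ro Y d ≤ 1 := by
  unfold ro
  split_ifs <;> norm_num

lemma ro_sub {Y p : ℕ} (hd : 0 < d) (pp : p.Prime) :
    ro Y d - ro Y (d * p) = ro Y d * if p ≤ Y then 1 else 0 := by
  simp only [ro, Nat.primeFactors_mul hd.ne' pp.ne_zero, pp.primeFactors, mem_union,
    mem_singleton, or_imp, forall_and, forall_eq]
  by_cases a : ∀ q ∈ d.primeFactors, Y < q <;> by_cases b : p ≤ Y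
  · simp [b]
  · rw [if_pos a, if_pos ⟨a, not_le.1 b⟩, if_neg b]
    norm_num
  · rw [if_neg a, if_neg fun h => a h.1]
    norm_num
  · rw [if_neg a, if_neg fun h => a h.1]
    norm_num

variable {J : ℕ}

lemma one_le_log (hz : 3 ≤ z) : 1 ≤ Real.log z := by
  rw [Real.le_log_iff_exp_le (by positivity)]
  exact Real.exp_one_lt_three.le.trans (by exact_mod_cast hz)

lemma ro_sum (hz : 3 ≤ z) {i : ℕ} (hi : i ≤ J) :
    (∑ d ∈ Vs z (z ^ 2 ^ J), ro (z ^ 2 ^ i) d / d) * 2 ^ i ≤ 3 * 2 ^ J := by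
  have l1 := one_le_log hz
  have h := rough_sum (Y := z ^ 2 ^ i) (D := z ^ 2 ^ J)
    {d ∈ Vs z (z ^ 2 ^ J) | ∀ p ∈ d.primeFactors, z ^ 2 ^ i < p}
    (fun d hd => (mem_Vs.1 (mem_filter.1 hd).1).1) fun d hd p pp h => (mem_filter.1 hd).2 p
      (Nat.mem_primeFactors.2 ⟨pp, h, by have := (mem_Vs.1 (mem_filter.1 hd).1).1; omega⟩)
  have e : ∑ d ∈ Vs z (z ^ 2 ^ J), ro (z ^ 2 ^ i) d / d =
      ∑ d ∈ Vs z (z ^ 2 ^ J) with ∀ p ∈ d.primeFactors, z ^ 2 ^ i < p, (d : ℝ)⁻¹ := by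
    rw [sum_filter]
    refine sum_congr rfl fun d _ => ?_
    unfold ro
    split_ifs <;> simp
  rw [← e] at h
  have h0 : 0 ≤ ∑ d ∈ Vs z (z ^ 2 ^ J), ro (z ^ 2 ^ i) d / d :=
    sum_nonneg fun d _ => div_nonneg (ro_mem _ d).1 (Nat.cast_nonneg d)
  have h1 := mul_le_mul_of_nonneg_left (log_nat_mono (Nat.le_add_right (z ^ 2 ^ i) 1)) h0
  rw [← pow_add, Nat.cast_pow, Real.log_pow] at h
  rw [Nat.cast_pow, Real.log_pow] at h1
  push_cast at h h1
  have h2 : (2 : ℝ) ^ i ≤ 2 ^ J := pow_le_pow_right₀ one_le_two hi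
  have h3 : (1 : ℝ) ≤ 2 ^ J := one_le_pow₀ one_le_two
  refine le_of_mul_le_mul_right ?_ (zero_lt_one.trans_le l1)
  nlinarith [mul_le_mul_of_nonneg_right h2 (zero_le_one.trans l1)]

lemma mass (hz : 3 ≤ z) (hJ : 1 ≤ J) :
    ∑ d ∈ Vs z (z ^ 2 ^ J), tf z J d ^ 2 / d ≤ 3 * 2 ^ J / J := by
  have J0 : (0 : ℝ) < J := by exact_mod_cast hJ
  have h1 : ∀ d, tf z J d ^ 2 ≤ tf z J d := fun d => by
    refine pow_le_of_le_one (div_nonneg (sum_nonneg fun i _ => (ro_mem _ d).1) J0.le) ?_ two_ne_zero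
    rw [tf, div_le_one J0]
    simpa using sum_le_card_nsmul (range J) _ 1 fun i _ => (ro_mem (z ^ 2 ^ (i + 1)) d).2
  refine (sum_le_sum fun d _ => div_le_div_of_nonneg_right (h1 d) (Nat.cast_nonneg d)).trans ?_
  simp only [tf, div_right_comm _ (J : ℝ), ← sum_div]
  refine div_le_div_of_nonneg_right ?_ J0.le
  simp only [sum_div]
  rw [sum_comm]
  have h2 : ∀ i ∈ range J, ∑ d ∈ Vs z (z ^ 2 ^ J), ro (z ^ 2 ^ (i + 1)) d / d ≤
      3 * 2 ^ J / 2 * (1 / 2) ^ i := fun i hi => by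
    have := ro_sum hz (Nat.succ_le_of_lt (mem_range.1 hi))
    rw [← le_div_iff₀ (by positivity)] at this
    exact this.trans (le_of_eq (by rw [Nat.succ_eq_add_one, pow_succ, one_div, inv_pow]; field_simp))
  refine (sum_le_sum h2).trans ?_
  rw [← mul_sum]
  have := sum_geometric_two_le J
  have h3 : (0 : ℝ) < 2 ^ J := by positivity
  nlinarith

lemma energy (hz : 3 ≤ z) (hJ : 1 ≤ J) :
    ∑ d ∈ Vs z (z ^ 2 ^ J), ∑ e ∈ Vs z (z ^ 2 ^ J),
      up z (z ^ 2 ^ J) d e * (tf z J d - tf z J e) ^ 2 ≤ 84 * (2 ^ J * Real.log z) / J := by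
  have J0 : (0 : ℝ) < J := by exact_mod_cast hJ
  have l1 := one_le_log hz
  set P := (Ioc z (z ^ 2 ^ J)).filter Nat.Prime
  set b : ℕ → ℕ → ℝ := fun p j => if p ≤ z ^ 2 ^ (j + 1) then 1 else 0 with hb
  have b0 : ∀ p j, 0 ≤ b p j ∧ b p j ≤ 1 := fun p j => by
    simp only [hb]
    split_ifs <;> norm_num
  have h1 : ∀ d ∈ Vs z (z ^ 2 ^ J), ∑ e ∈ Vs z (z ^ 2 ^ J),
      up z (z ^ 2 ^ J) d e * (tf z J d - tf z J e) ^ 2 ≤ 2 / J ^ 2 * ∑ i ∈ range J,
        ro (z ^ 2 ^ (i + 1)) d / d * ∑ j ∈ range (i + 1), ∑ p ∈ P, Real.log p / p * b p j := by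
    intro d hd
    have d0 : 0 < d := (mem_Vs.1 hd).1.1
    rw [sum_up]
    refine (sum_le_sum (g := fun p : ℕ => 2 / (J : ℝ) ^ 2 * ∑ i ∈ range J, ro (z ^ 2 ^ (i + 1)) d / d *
      ∑ j ∈ range (i + 1), Real.log p / p * b p j) fun p hp => ?_).trans (le_of_eq ?_)
    · have s := sq_sum_le _ (b p) (fun i => ro_mem (z ^ 2 ^ (i + 1)) d) (b0 p) J
      have l0 : 0 ≤ Real.log p / (d * p : ℕ) := div_nonneg (log_nat_nonneg p) (Nat.cast_nonneg _)
      have e : 2 / (J : ℝ) ^ 2 * ∑ i ∈ range J, ro (z ^ 2 ^ (i + 1)) d / d *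
          ∑ j ∈ range (i + 1), Real.log p / p * b p j = Real.log p / (d * p : ℕ) *
          ((2 * ∑ i ∈ range J, ro (z ^ 2 ^ (i + 1)) d * ∑ j ∈ range (i + 1), b p j) / J ^ 2) := by
        simp only [← mul_sum]
        simp only [mul_sum (range J), sum_div]
        refine sum_congr rfl fun i _ => ?_
        push_cast
        ring
      rw [e]
      split_ifs
      · refine mul_le_mul_of_nonneg_left ?_ l0
        rw [tf, tf, ← sub_div, ← sum_sub_distrib, div_pow]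
        simp only [ro_sub d0 (mem_filter.1 hp).2]
        exact div_le_div_of_nonneg_right s (by positivity)
      · exact mul_nonneg l0 (div_nonneg ((sq_nonneg _).trans s) (by positivity))
    · rw [← mul_sum, sum_comm]
      congr 1
      refine sum_congr rfl fun i _ => ?_
      rw [← mul_sum, sum_comm]
  refine (sum_le_sum h1).trans ?_
  rw [← mul_sum, sum_comm]
  have h2 : ∀ j, ∑ p ∈ P, Real.log p / p * b p j ≤ 14 * Real.log z * 2 ^ j := fun j => by
    have := mertens_upper (n := z ^ 2 ^ (j + 1)) (Nat.one_le_pow _ _ (by omega))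
      {p ∈ P | p ≤ z ^ 2 ^ (j + 1)} fun p hp => ⟨(mem_filter.1 (mem_filter.1 hp).1).2,
        (mem_filter.1 hp).2⟩
    rw [sum_filter, Nat.cast_pow, Real.log_pow] at this
    simp only [hb, mul_ite, mul_one, mul_zero]
    push_cast at this
    have h3 : (1 : ℝ) ≤ 2 ^ j := one_le_pow₀ one_le_two
    rw [pow_succ (2 : ℝ)] at this
    nlinarith [mul_le_mul h3 l1 zero_le_one (by positivity)]
  have h3 : ∀ i ∈ range J, ∑ d ∈ Vs z (z ^ 2 ^ J), ro (z ^ 2 ^ (i + 1)) d / d *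
      ∑ j ∈ range (i + 1), ∑ p ∈ P, Real.log p / p * b p j ≤ 42 * (2 ^ J * Real.log z) := by
    intro i hi
    have a := ro_sum hz (Nat.succ_le_of_lt (mem_range.1 hi))
    have c := sum_le_sum fun j (_ : j ∈ range (i + 1)) => h2 j
    rw [← mul_sum, geom_sum_eq (by norm_num)] at c
    have h0 : 0 ≤ ∑ d ∈ Vs z (z ^ 2 ^ J), ro (z ^ 2 ^ (i + 1)) d / d :=
      sum_nonneg fun d _ => div_nonneg (ro_mem _ d).1 (Nat.cast_nonneg d)
    rw [← sum_mul]
    refine (mul_le_mul_of_nonneg_left (c.trans (show _ ≤ 14 * Real.log z * 2 ^ (i + 1) by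
      nlinarith)) h0).trans ?_
    rw [Nat.succ_eq_add_one] at a
    nlinarith
  refine (mul_le_mul_of_nonneg_left (sum_le_card_nsmul _ _ _ h3) (by positivity)).trans
    (le_of_eq ?_)
  rw [card_range, nsmul_eq_mul]
  field_simp
  norm_num

end Pool.Agent.Lib.MP_aa636d_nt.Win
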