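import Pool.Agent.Lib.MP_aa636d_nt.WinC

/-! The order of vanishing at one of a coincidence is large. -/

namespace Pool.Agent.Lib.MP_aa636d_nt.Win
open Finset Polynomial

lemma log_fact_ge (μ : ℕ) {t : ℝ} (ht : 0 < t) : μ * Real.log t - t ≤ Real.log μ.factorial := by
  have := Real.log_le_log (by positivity) (Real.pow_div_factorial_le_exp t ht.le μ)
  rw [Real.log_div (by positivity) (by positivity), Real.log_exp, Real.log_pow] at this
  linarith

theorem walk : ∃ c : ℝ, 0 ≤ c ∧ ∀ {U : Finset ℕ} {K : ℕ} {ε : ℕ → ℤ} {G : ℤ[X]} {z J : ℕ}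
    {x h : ℝ}, (∀ a ∈ U, a < K) → (∀ a ∈ U, |ε a| = 1) → ∑ a ∈ U, C (ε a) * X ^ a = G → G ≠ 0 →
    2 ≤ K → 3 ≤ z → 1 ≤ J → 0 ≤ x → (z ^ 2 ^ J : ℕ) * Real.log K ≤ mu G 1 →
    Real.log K - Real.log (mu G 1) - 2 ^ J * Real.log z ≤ x →
    (∀ (E : Finset ℕ) (w : ℕ → ℝ), (∀ e ∈ E, 0 < e ∧ e ≠ 1) →
      (∀ e ∈ E, w e ≤ lN 1 (cyclotomic e ℤ)) → ∑ e ∈ E, mu G e * w e ≤ h) →
    mu G 1 * (Real.log K - Real.log (mu G 1)) - h ≤
      mu G 1 * (343 * (2 ^ J * Real.log z) / J + 7 * 2 ^ J * (x + 2 * 2 ^ J + c)) := by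
  obtain ⟨c, c0, hc⟩ := rate
  refine ⟨c + 2, by positivity, ?_⟩
  intro U K ε G z J x h hU hε hG h0 hK hz hJ hx hD hX hh
  have l1 := one_le_log hz
  have k0 : 0 < Real.log K := Real.log_pos (by exact_mod_cast hK)
  have lD : Real.log (z ^ 2 ^ J : ℕ) = 2 ^ J * Real.log z := by
    rw [Nat.cast_pow, Real.log_pow]
    norm_num
  have D1 : 1 ≤ z ^ 2 ^ J := Nat.one_le_pow _ _ (by omega)
  have om : ∀ d ∈ Vs z (z ^ 2 ^ J), (d.primeFactors.card : ℝ) ≤ 2 ^ J := fun d hd => by
    exact_mod_cast omega_le (by omega) hd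
  have ms := mass hz hJ
  have en := energy hz hJ
  set D := z ^ 2 ^ J
  set V := Vs z D
  have m0 : (0 : ℝ) < mu G 1 := lt_of_lt_of_le (by positivity) hD
  generalize hm' : (mu G 1 : ℝ) = m at hD hX m0 ⊢
  set f : ℕ → ℝ := fun e => min 1 (e * mu G e / m) with hf
  have f0 : ∀ e, 0 ≤ f e ∧ f e ≤ 1 := fun e => ⟨le_min zero_le_one (by positivity), min_le_left ..⟩
  have S1 : ∀ d ∈ V, m * ∑ e ∈ V, (up z D d e + up z D e d) * f e ≤
      ∑ e ∈ V.erase d, mu G e * (e * (up z D d e + up z D e d)) := fun d hd => by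
    have d0 : 0 < d := (mem_Vs.1 hd).1.1
    rw [← add_sum_erase _ _ hd, up_zero fun p pp h => by nlinarith [pp.two_le], add_zero,
      zero_mul, zero_add, mul_sum]
    refine sum_le_sum fun e _ => ?_
    have := (le_div_iff₀ m0).1 (min_le_right 1 (e * mu G e / m))
    nlinarith [mul_le_mul_of_nonneg_left this (add_nonneg (up_nonneg z D d e) (up_nonneg z D e d))]
  have E0 : ∀ d, ∀ e ∈ V.erase d, 0 < e ∧ e ≠ d := fun d e he =>
    ⟨(mem_Vs.1 (mem_of_mem_erase he)).1.1, ne_of_mem_erase he⟩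
  have V1 : 1 ∈ V := mem_Vs.2 ⟨⟨le_rfl, D1⟩, squarefree_one, by simp⟩
  set B := Real.log z + x + 2 * 2 ^ J + c with hB
  have B0 : 0 ≤ B := by positivity
  have J0 : (0 : ℝ) < J := by exact_mod_cast hJ
  have key := cacc V1 (up z D) (up_nonneg z D) (fun e => 1 - f e) (tf z J) (fun d => (B + 2) / d)
    (fun e => ⟨sub_nonneg.2 (f0 e).2, sub_le_self _ (f0 e).1⟩)
    (by simp [hf, hm', m0.ne']) (by simp [tf, ro, J0.ne']) (fun d => by positivity)
    fun d hd _ => by
      have d1 := (mem_Vs.1 hd).1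
      have d0 : (0 : ℝ) < d := by exact_mod_cast d1.1
      rcases le_total 1 (d * mu G d / m) with a | a
      · refine le_trans (sum_nonpos fun e _ => mul_nonpos_of_nonneg_of_nonpos
          (add_nonneg (up_nonneg ..) (up_nonneg ..)) ?_) (by positivity)
        have : f d = 1 := min_eq_left a
        linarith [(f0 e).2]
      have fd : f d * m = d * mu G d := by
        rw [show f d = _ from min_eq_right a, div_mul_cancel₀ _ m0.ne']
      have s1 := (S1 d hd).trans (star hU hε hG h0 d1.1 _ (E0 d) _ fun e he =>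
        lN_edge hd (mem_of_mem_erase he) (ne_of_mem_erase he))
      have s2 := log_fact_ge (mu G d) (div_pos m0 d0)
      rw [Real.log_div m0.ne' d0.ne'] at s2
      have s3 : Real.log U.card ≤ Real.log K := log_nat_mono (by
        simpa using card_le_card fun a ha => mem_range.2 (hU a ha))
      have s4 := hc z D d (by omega) hd
      have s5 : d * Real.log K ≤ m :=
        le_trans (mul_le_mul_of_nonneg_right (by exact_mod_cast d1.2) k0.le) hD
      have s6 := om d hd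
      simp only [sub_sub_sub_cancel_left, mul_sub, sum_sub_distrib, ← sum_mul]
      rw [div_le_iff₀ d0, lD] at s4
      rw [le_div_iff₀ d0]
      refine le_of_mul_le_mul_left ?_ m0
      generalize ∑ e ∈ V, (up z D d e + up z D e d) * f e = a1 at s1 ⊢
      generalize ∑ e ∈ V, (up z D d e + up z D e d) = a2 at s4 ⊢
      have t1 : m * a1 ≤ Real.log K + mu G d * (Real.log K - Real.log m + d.primeFactors.card) +
          m / d := by linarith
      have t2 := mul_le_mul_of_nonneg_left t1 d0.le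
      have t3 : d * (m / d) = m := mul_div_cancel₀ _ d0.ne'
      have t4 := mul_le_mul_of_nonneg_left s4 (mul_nonneg (f0 d).1 m0.le)
      have t5 : f d * m * (Real.log K - Real.log m + d.primeFactors.card -
          (2 ^ J * Real.log z - Real.log z - c - d.primeFactors.card)) ≤ 1 * m * B :=
        (mul_le_mul_of_nonneg_left (by linarith) (mul_nonneg (f0 d).1 m0.le)).trans
          (mul_le_mul_of_nonneg_right (mul_le_mul_of_nonneg_right (f0 d).2 m0.le) B0)
      have t6 : d * (mu G d * (Real.log K - Real.log m + d.primeFactors.card)) =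
          f d * m * (Real.log K - Real.log m + d.primeFactors.card) := by rw [fd, mul_assoc]
      nlinarith
  have s1 := (S1 1 V1).trans (hh _ _ (E0 1) fun e he => by
    simpa using lN_edge V1 (mem_of_mem_erase he) (ne_of_mem_erase he))
  have s4 := hc z D 1 (by omega) V1
  simp only [mul_sub, mul_one, sum_sub_distrib, ← mul_div_assoc, mul_div_right_comm,
    ← sum_mul] at key
  simp only [Nat.primeFactors_one, card_empty, Nat.cast_zero, sub_zero, Nat.cast_one, div_one,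
    lD] at s4
  have q1 : (1 : ℝ) ≤ 2 ^ J := one_le_pow₀ one_le_two
  have q2 : Real.log z ≤ 2 ^ J * Real.log z / J := by
    rw [le_div_iff₀ J0, mul_comm]
    exact mul_le_mul_of_nonneg_right (by exact_mod_cast Nat.lt_two_pow_self.le) (by linarith)
  have q3 : 3 * 2 ^ J / J * (B + 2) ≤
      3 * (2 ^ J * Real.log z / J) + 3 * 2 ^ J * (x + 2 * 2 ^ J + (c + 2)) := by
    have : 3 * 2 ^ J / J * (x + 2 * 2 ^ J + (c + 2)) ≤ 3 * 2 ^ J * (x + 2 * 2 ^ J + (c + 2)) :=
      mul_le_mul_of_nonneg_right (div_le_self (by positivity) (by exact_mod_cast hJ))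
        (by positivity)
    calc _ = 3 * (2 ^ J * Real.log z / J) + 3 * 2 ^ J / J * (x + 2 * 2 ^ J + (c + 2)) := by
          rw [hB]
          ring
      _ ≤ _ := by linarith
  have q4 := mul_le_mul_of_nonneg_right ms (show 0 ≤ B + 2 by positivity)
  have q5 := le_mul_of_one_le_left (show 0 ≤ x + 2 * 2 ^ J + (c + 2) by positivity) q1
  rw [mul_div_assoc] at en ⊢
  have q6 : Real.log K - Real.log m - ∑ e ∈ V, (up z D 1 e + up z D e 1) * f e ≤
      343 * (2 ^ J * Real.log z / J) + 7 * 2 ^ J * (x + 2 * 2 ^ J + (c + 2)) := by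
    nlinarith
  nlinarith [mul_le_mul_of_nonneg_left q6 m0.le]

lemma taylor {n K m : ℕ} {U : Finset ℕ} {ε : ℕ → ℤ} (hU : ∀ a ∈ U, a < K)
    (hε : ∀ a ∈ U, |ε a| = 1) (hn : 2 * K ≤ n) (h3 : 3 ≤ n)
    (he : ∑ a ∈ U, ε a * Real.log (n + a : ℕ) = 0) (hm : ∀ j < m, ∑ a ∈ U, ε a * a ^ j = 0) :
    n * |((∑ a ∈ U, ε a * a ^ m : ℤ) : ℝ)| ≤ 2 * (m + 1) * U.card * K ^ (m + 1) := by
  have n0 : (0 : ℝ) < n := by positivity
  have l1 := one_le_log h3
  have hK : (K : ℝ) / n ≤ 1 / 2 := by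
    rw [div_le_div_iff₀ n0 two_pos, one_mul, mul_comm]
    exact_mod_cast hn
  have h1 : |∑ a ∈ U, ε a * (∑ i ∈ range m, (-(a / n : ℝ)) ^ (i + 1) / (i + 1) +
      Real.log (1 - -(a / n : ℝ)))| ≤ U.card * (2 * (K / n : ℝ) ^ (m + 1)) := by
    rw [← nsmul_eq_mul]
    refine (abs_sum_le_sum_abs _ _).trans (sum_le_card_nsmul _ _ _ fun a ha => ?_)
    have a0 : (0 : ℝ) ≤ a / n := by positivity
    have a1 : (a : ℝ) / n ≤ K / n :=
      div_le_div_of_nonneg_right (by exact_mod_cast (hU a ha).le) n0.le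
    have := Real.abs_log_sub_add_sum_range_le (x := -(a / n : ℝ))
      (by rw [abs_neg, abs_of_nonneg a0]; linarith) m
    rw [abs_neg, abs_of_nonneg a0] at this
    rw [abs_mul, ← Int.cast_abs, hε a ha, Int.cast_one, one_mul]
    refine this.trans ?_
    rw [div_le_iff₀ (by linarith)]
    have b := pow_le_pow_left₀ a0 a1 (m + 1)
    have b0 : 0 ≤ (K / n : ℝ) ^ (m + 1) := by positivity
    nlinarith
  have h2 : ∑ a ∈ U, ε a * (∑ i ∈ range m, (-(a / n : ℝ)) ^ (i + 1) / (i + 1) +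
      Real.log (1 - -(a / n : ℝ))) = ∑ i ∈ range m, (-(1 / n : ℝ)) ^ (i + 1) / (i + 1) *
      ((∑ a ∈ U, ε a * a ^ (i + 1) : ℤ) : ℝ) - ((∑ a ∈ U, ε a * a ^ 0 : ℤ) : ℝ) * Real.log n := by
    have e : ∀ a : ℕ, Real.log (1 - -(a / n : ℝ)) = Real.log (n + a : ℕ) - Real.log n := fun a => by
      rw [← Real.log_div (by positivity) n0.ne']
      congr 1
      push_cast
      field_simp
      ring
    simp only [e, mul_add, mul_sub, sum_add_distrib, sum_sub_distrib, he, mul_sum, zero_sub]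
    rw [sum_comm]
    push_cast
    simp only [mul_sum, sum_mul, pow_zero, mul_one, sub_eq_add_neg]
    congr 1
    exact sum_congr rfl fun i _ => sum_congr rfl fun a _ => by
      rw [div_eq_mul_one_div (a : ℝ), neg_mul_eq_mul_neg, mul_pow]
      ring
  rw [h2] at h1
  rcases m with _ | r
  · rw [sum_range_zero, zero_sub, abs_neg, abs_mul, abs_of_nonneg (by linarith : 0 ≤ Real.log n),
      zero_add, pow_one, ← mul_div_assoc, ← mul_div_assoc, le_div_iff₀ n0] at h1
    have := abs_nonneg ((∑ a ∈ U, ε a * a ^ 0 : ℤ) : ℝ)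
    push_cast at h1 this ⊢
    nlinarith [mul_le_mul_of_nonneg_left l1 (mul_nonneg this n0.le)]
  · rw [hm 0 r.succ_pos, sum_range_succ, sum_eq_zero fun i hi => by
      rw [hm (i + 1) (by have := mem_range.1 hi; omega), Int.cast_zero, mul_zero],
      Int.cast_zero, zero_mul, sub_zero, zero_add, abs_mul, abs_div, abs_pow, abs_neg,
      abs_of_pos (by positivity : (0 : ℝ) < 1 / n), abs_of_pos (by positivity : (0 : ℝ) < r + 1),
      div_mul_eq_mul_div, div_le_iff₀ (by positivity)] at h1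
    have e := mul_le_mul_of_nonneg_left h1 (show (0 : ℝ) ≤ n ^ (r + 1 + 1) by positivity)
    have e1 : ∀ t : ℝ, (n : ℝ) ^ (r + 1 + 1) * ((1 / n) ^ (r + 1) * t) = n * t := fun t => by
      rw [div_pow, one_pow, pow_succ _ (r + 1)]
      field_simp
    have e2 : (n : ℝ) ^ (r + 1 + 1) * (U.card * (2 * (K / n : ℝ) ^ (r + 1 + 1)) * (r + 1)) =
        2 * (r + 1) * U.card * K ^ (r + 1 + 1) := by
      rw [div_pow]
      field_simp
    rw [e1, e2] at e
    refine e.trans ?_
    push_cast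
    gcongr
    linarith

lemma order_le {U : Finset ℕ} {ε : ℕ → ℤ} {m a : ℕ} (ha : a ∈ U) (h0 : ε a ≠ 0)
    (hm : ∀ j < m, ∑ a ∈ U, ε a * a ^ j = 0) : m ≤ U.card := by
  by_contra h
  set f : ℤ[X] := ∏ b ∈ U.erase a, (X - C (b : ℤ)) with hf
  have h1 : f.natDegree < m := by
    rw [hf, natDegree_finsetProd_X_sub_C_eq_card]
    exact (card_erase_le.trans_lt (not_le.1 h))
  have h2 : ∑ b ∈ U, ε b * eval (b : ℤ) f = 0 := by
    simp only [eval_eq_sum_range' h1, mul_sum]
    rw [sum_comm]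
    refine sum_eq_zero fun j hj => ?_
    simp only [mul_left_comm (ε _), ← mul_sum, hm j (mem_range.1 hj), mul_zero]
  rw [← add_sum_erase _ _ ha, sum_eq_zero fun b hb => by
    rw [hf, eval_prod, prod_eq_zero hb (by simp), mul_zero], add_zero, hf, eval_prod] at h2
  refine mul_ne_zero h0 (prod_ne_zero_iff.2 fun b hb => ?_) h2
  simpa [sub_eq_zero] using (ne_of_mem_erase hb).symm

theorem core : ∃ c : ℝ, 0 ≤ c ∧ ∀ n K : ℕ, 2 ≤ K → 2 * K ≤ n → Bad K n → ∃ m : ℕ,
    (∀ y : ℕ, 1 ≤ y → y ≤ K → 384 * y * Real.log K ≤ Real.log n ^ 2 →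
      m * Real.log n ≤ 8 * K * (Real.log K - Real.log y + 10)) ∧
    Real.log n ≤ (m + 3) * Real.log K + 2 ∧
    ∀ (z J : ℕ) (x : ℝ), 3 ≤ z → 1 ≤ J → 0 ≤ x → (z ^ 2 ^ J : ℕ) * Real.log K ≤ m →
      Real.log K - Real.log m - 2 ^ J * Real.log z ≤ x → Real.log n ≤ 3 * Real.log K + 2 +
        m * (343 * (2 ^ J * Real.log z) / J + 7 * 2 ^ J * (x + 2 * 2 ^ J + c)) := by
  obtain ⟨c, c0, hc⟩ := walk
  refine ⟨c + 1, by positivity, fun n K hK hn ⟨S, T, hS, hT, hd, hne, he⟩ => ?_⟩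
  have hU : ∀ x ∈ S ∪ T, x < K := fun x hx => (mem_union.1 hx).elim (hS x) (hT x)
  set ε : ℕ → ℤ := fun a => if a ∈ S then 1 else -1 with hε
  have e1 : ∀ a ∈ S ∪ T, |ε a| = 1 := fun a _ => by
    simp only [hε]
    split_ifs <;> rfl
  obtain ⟨a, ha⟩ := id hne
  have ha' : a ∈ S ∪ T := mem_union_left _ ha
  have e0 : ε a ≠ 0 := fun h => by simpa [h] using e1 a ha'
  obtain ⟨G, hG⟩ : ∃ G : ℤ[X], ∑ a ∈ S ∪ T, C (ε a) * X ^ a = G := ⟨_, rfl⟩
  have h0 : G ≠ 0 := fun h => by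
    have := congrArg (coeff · a) (hG.trans h)
    simp only [finsetSum_coeff, coeff_C_mul_X_pow, sum_ite_eq, ha', if_true, coeff_zero] at this
    exact e0 this
  obtain ⟨H, H0, p1, p2, p3⟩ := at_one hG h0
  have mu1 := order_le ha' e0 p1
  have uK : (S ∪ T).card ≤ K := by simpa using card_le_card fun a ha => mem_range.2 (hU a ha)
  have n0 : (0 : ℝ) < n := by exact_mod_cast (by omega : 0 < n)
  have nz : ∀ x : ℕ, ((n + x : ℕ) : ℝ) ≠ 0 := fun x => by
    push_cast
    positivity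
  have t := taylor hU e1 hn (by omega) (by
    have := congrArg (fun x : ℕ => Real.log x) he
    simp only [Nat.cast_prod] at this
    rw [Real.log_prod fun x _ => nz x, Real.log_prod fun x _ => nz x] at this
    rw [sum_union hd, sum_congr rfl fun x hx => by rw [show ε x = 1 from if_pos hx],
      sum_congr rfl (s₁ := T) fun x hx => by
        rw [show ε x = -1 from if_neg (disjoint_right.1 hd hx)]]
    simp only [Int.cast_one, one_mul, Int.cast_neg, neg_mul, sum_neg_distrib, this,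
      add_neg_cancel]) p1
  set m := mu G 1
  have K0 : (0 : ℝ) < K := by positivity
  have H1 : (1 : ℝ) ≤ |(H : ℝ)| := by exact_mod_cast Int.one_le_abs H0
  have t2 : Real.log n + Real.log m.factorial + Real.log |(H : ℝ)| ≤ (m + 3) * Real.log K + 2 := by
    rw [p2, Int.cast_mul, Int.cast_natCast, abs_mul, Nat.abs_cast, ← mul_assoc] at t
    have b1 : (2 : ℝ) * (m + 1) * (S ∪ T).card * K ^ (m + 1) ≤ 4 * K ^ (m + 3) := by
      have b2 : (m : ℝ) + 1 ≤ 2 * K := by exact_mod_cast (by omega : m + 1 ≤ 2 * K)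
      have b3 : ((S ∪ T).card : ℝ) ≤ K := by exact_mod_cast uK
      calc _ ≤ 2 * (2 * K) * K * (K : ℝ) ^ (m + 1) := by gcongr
        _ = _ := by ring
    have := Real.log_le_log (by positivity) (t.trans b1)
    rw [Real.log_mul (by positivity) (by positivity), Real.log_mul (by positivity) (by positivity),
      Real.log_mul (by positivity) (by positivity), Real.log_pow] at this
    push_cast at this
    linarith [log_four_le]
  refine ⟨m, fun y y1 y2 y3 => le_trans (mul_le_mul_of_nonneg_right (by exact_mod_cast mu1)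
    (log_nat_nonneg n)) (size_bound (by omega) y1 y2 hK y3 hS hT hd hne he), ?_,
    fun z J x hz hJ hx hD hX => ?_⟩
  · linarith [log_nat_nonneg m.factorial, Real.log_nonneg H1]
  · have w := hc hU e1 hG h0 hK hz hJ hx hD hX p3
    have m0 : (0 : ℝ) < m :=
      lt_of_lt_of_le (mul_pos (by positivity) (Real.log_pos (by exact_mod_cast hK))) hD
    have q1 : (1 : ℝ) ≤ 2 ^ J := one_le_pow₀ one_le_two
    nlinarith [log_fact_ge m m0, mul_le_mul_of_nonneg_left q1 m0.le]

end Pool.Agent.Lib.MP_aa636d_nt.Win
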