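import Pool.Agent.Lib.MP_aa636d_nt.WinD

/-! The choice of the parameters. -/

namespace Pool.Agent.Lib.MP_aa636d_nt.Win
open Finset Filter

lemma ev (C : ℝ) (hC : 0 < C) (j : ℕ) : ∀ᶠ x : ℝ in atTop, C * Real.log x ^ j ≤ x := by
  filter_upwards [(Real.isLittleO_pow_log_id_atTop (n := j)).bound (inv_pos.2 hC),
    eventually_ge_atTop 0] with x h h0
  rw [Real.norm_eq_abs, Real.norm_eq_abs, id, abs_of_nonneg h0, inv_mul_eq_div,
    le_div_iff₀' hC] at h
  exact (mul_le_mul_of_nonneg_left (le_abs_self _) hC.le).trans h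

lemma win_up {K m : ℕ} {L A B E w : ℝ} (e2 : 16 * A ≤ L) (e3 : 100000 ≤ L) (A0 : 0 < A)
    (B1 : 1 ≤ B) (e6 : 10 ≤ E) (hE : Real.log B = E) (w0 : w * (A * E) = L ^ 2 * B / 100000)
    (K0 : (0 : ℝ) < K) (K2 : K ≤ 2 * w) (k1 : Real.log K ≤ 2 * A)
    (s1 : ∀ y : ℕ, 1 ≤ y → y ≤ K → 384 * y * Real.log K ≤ L ^ 2 →
      m * L ≤ 8 * K * (Real.log K - Real.log y + 10)) : m * A ≤ 32 / 100000 * L * B := by
  have L0 : 0 < L := by linarith
  have B0 : 0 < B := by linarith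
  have k0 := log_nat_nonneg K
  have y0 : 0 < K / B := div_pos K0 B0
  have y1 := Real.log_le_log y0 (Nat.le_ceil _)
  rw [Real.log_div K0.ne' B0.ne', hE] at y1
  have y2 : K / B * A ≤ L ^ 2 / 100000 := by
    rw [div_mul_eq_mul_div, div_le_iff₀ B0]
    nlinarith [mul_le_mul_of_nonneg_right K2 A0.le, mul_pos (show 0 < w by linarith) A0]
  have := s1 ⌈K / B⌉₊ (Nat.ceil_pos.2 y0) (Nat.ceil_le.2 (div_le_self K0.le B1)) (by
    have := mul_le_mul (Nat.ceil_lt_add_one y0.le).le k1 k0 (by linarith)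
    nlinarith [mul_le_mul e3 e2 (by positivity) L0.le])
  have y3 : m * L ≤ 32 * w * E := by
    nlinarith [mul_le_mul K2 (show Real.log K - Real.log ⌈K / B⌉₊ + 10 ≤ 2 * E by linarith)
      (by linarith [log_nat_mono (Nat.ceil_le.2 (div_le_self K0.le B1))]) (by linarith)]
  refine le_of_mul_le_mul_left ?_ L0
  nlinarith [mul_le_mul_of_nonneg_right y3 A0.le]

lemma win_low {K m : ℕ} {L A B c : ℝ} (c0 : 0 ≤ c) (hA : Real.log L = A) (hB : Real.log A = B)
    (L0 : 0 < L) (e5 : 3 ≤ A) (B1 : 10 ≤ B) (e4 : 8 * (7 * (11 + c)) ^ 3 * B ^ 3 ≤ A)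
    (k1 : Real.log K ≤ 2 * A) (m2 : L / (4 * A) ≤ m)
    (s3 : ∀ (z J : ℕ) (x : ℝ), 3 ≤ z → 1 ≤ J → 0 ≤ x → (z ^ 2 ^ J : ℕ) * Real.log K ≤ m →
      Real.log K - Real.log m - 2 ^ J * Real.log z ≤ x → L ≤ 3 * Real.log K + 2 +
        m * (343 * (2 ^ J * Real.log z) / J + 7 * 2 ^ J * (x + 2 * 2 ^ J + c))) :
    L * B ≤ (3 * Real.log K + 2) * B + 1030 * (m * A) := by
  have A0 : 0 < A := by linarith
  have B0 : 0 < B := by linarith
  have k0 := log_nat_nonneg K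
  have a0 : ⌊A⌋₊ ≠ 0 := (Nat.floor_pos.2 (by linarith)).ne'
  have j1 : ((2 : ℝ) ^ Nat.log 8 ⌊A⌋₊) ^ 3 ≤ A := by
    rw [← pow_mul, mul_comm, pow_mul]
    refine le_trans ?_ (Nat.floor_le A0.le)
    exact_mod_cast Nat.pow_log_le_self 8 a0
  have j2 : A ≤ 8 ^ (Nat.log 8 ⌊A⌋₊ + 1) :=
    (Nat.lt_floor_add_one A).le.trans (by
      exact_mod_cast Nat.lt_pow_succ_log_self (by norm_num : 1 < 8) ⌊A⌋₊)
  generalize Nat.log 8 ⌊A⌋₊ = J at j1 j2
  have l8 : Real.log 8 ≤ 2.1 := by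
    rw [show (8 : ℝ) = 2 ^ 3 by norm_num, Real.log_pow]
    push_cast
    linarith [Real.log_two_lt_d9]
  have j3 : B ≤ 3 * J := by
    have := Real.log_le_log A0 j2
    rw [Real.log_pow, hB] at this
    push_cast at this
    nlinarith [mul_le_mul_of_nonneg_left l8 (show (0 : ℝ) ≤ J + 1 by positivity)]
  have J0 : (0 : ℝ) < J := by linarith
  have j4 : 7 * (11 + c) * B ≤ 2 ^ J := by
    refine le_of_pow_le_pow_left₀ three_ne_zero (by positivity) ?_
    rw [pow_succ, show (8 : ℝ) = 2 ^ 3 by norm_num, ← pow_mul, mul_comm 3, pow_mul] at j2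
    rw [mul_pow]
    linarith
  have s4 := s3 ⌊Real.exp ((A - Real.log 8 - 2 * B) / 2 ^ J)⌋₊ J (3 * B + 5 + 2 ^ J)
  have hQ : ∀ z : ℕ, Real.log (z ^ 2 ^ J : ℕ) = 2 ^ J * Real.log z := fun z => by
    rw [Nat.cast_pow, Real.log_pow]
    norm_num
  have q0 := hQ ⌊Real.exp ((A - Real.log 8 - 2 * B) / 2 ^ J)⌋₊
  generalize (2 : ℝ) ^ J = Q at *
  have q1 : 77 * B ≤ Q := by nlinarith
  have Q0 : 0 < Q := by linarith
  have q2 : 2 ≤ (A - Real.log 8 - 2 * B) / Q := by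
    rw [le_div_iff₀ Q0]
    nlinarith [mul_le_mul (show 77 ≤ Q by linarith) (show 77 ≤ Q by linarith) (by norm_num) Q0.le]
  have q3 : Q * ((A - Real.log 8 - 2 * B) / Q) = A - Real.log 8 - 2 * B := mul_div_cancel₀ _ Q0.ne'
  generalize (A - Real.log 8 - 2 * B) / Q = s at *
  have z1 : 3 ≤ Real.exp s := by linarith [Real.add_one_le_exp s]
  have z2 : 3 ≤ ⌊Real.exp s⌋₊ := Nat.le_floor (by exact_mod_cast z1)
  have z3 := Nat.floor_le (Real.exp_pos s).le
  have z4 := Nat.lt_floor_add_one (Real.exp s)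
  generalize ⌊Real.exp s⌋₊ = z at *
  have z0 : (0 : ℝ) < z := by positivity
  have z5 : Q * Real.log z ≤ Q * s :=
    mul_le_mul_of_nonneg_left ((Real.log_le_iff_le_exp z0).2 z3) Q0.le
  have z6 : s ≤ Real.log z + 1 := by
    have := Real.log_le_log (Real.exp_pos s) (show Real.exp s ≤ z * 2 by linarith)
    rw [Real.log_exp, Real.log_mul z0.ne' two_ne_zero] at this
    linarith [Real.log_two_lt_d9]
  have d1 : ((z ^ 2 ^ J : ℕ) : ℝ) ≤ L / (8 * A ^ 2) := by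
    rw [← Real.log_le_log_iff (by positivity) (by positivity), q0,
      Real.log_div L0.ne' (by positivity), Real.log_mul (by norm_num) (by positivity),
      Real.log_pow, hA, hB]
    push_cast
    linarith
  have m3 := Real.log_le_log (by positivity) m2
  rw [Real.log_div L0.ne' (by positivity), Real.log_mul (by norm_num) A0.ne', hA, hB] at m3
  have s5 := s4 z2 (by exact_mod_cast J0) (by positivity)
    ((mul_le_mul d1 k1 k0 (by positivity)).trans (le_trans (le_of_eq (by field_simp; norm_num)) m2))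
    (by nlinarith [log_four_le, mul_le_mul_of_nonneg_left z6 Q0.le])
  have f1 : 343 * (Q * Real.log z) / J * B ≤ 1029 * A := by
    rw [div_mul_eq_mul_div, div_le_iff₀ J0]
    have := mul_le_mul (show Q * Real.log z ≤ A by
      linarith [Real.log_nonneg (show (1 : ℝ) ≤ 8 by norm_num)]) j3 B0.le A0.le
    linarith
  have f2 : 7 * Q * (3 * B + 5 + Q + 2 * Q + c) * B ≤ A := by
    have g1 : 3 * B + 5 + Q + 2 * Q + c ≤ (11 + c) * Q := by nlinarith
    calc _ ≤ 7 * Q * ((11 + c) * Q) * B := by gcongr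
      _ = Q ^ 2 * (7 * (11 + c) * B) := by ring
      _ ≤ Q ^ 2 * Q := by gcongr
      _ ≤ A := by linarith
  have f3 := mul_le_mul_of_nonneg_left (add_le_add f1 f2) (Nat.cast_nonneg (α := ℝ) m)
  have f4 := mul_le_mul_of_nonneg_right s5 B0.le
  linarith

end Pool.Agent.Lib.MP_aa636d_nt.Win
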